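import Pool.Agent.P.MP_de05b4_pr.Env

/-! The environment seen from the accelerated particle. -/

namespace DRW

open MeasureTheory
open scoped ENNReal

/-- One step of the discrete chain on environments, acting on functions. -/
noncomputable def stepOp (φ : Env → ℝ≥0∞) (ω : Env) : ℝ≥0∞ :=
  ∑ i, ENNReal.ofReal (ω 0 i) * φ (shift (dir i) ω)

/-- `jumps γ n t φ ω` is the expectation of `φ (τ_{Y_t} ω)` on the event that the accelerated
walk `Y`, started at the origin, makes exactly `n` jumps up to time `t`: it waits an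
exponential time of rate `γ ω` and then makes a step of the discrete chain. -/
noncomputable def jumps (γ : Env → ℝ) : ℕ → ℝ → (Env → ℝ≥0∞) → Env → ℝ≥0∞
  | 0, t, φ, ω => ENNReal.ofReal (Real.exp (-(γ ω * t))) * φ ω
  | n + 1, t, φ, ω => ∫⁻ u in Set.Ioc 0 t,
      ENNReal.ofReal (γ ω * Real.exp (-(γ ω * u))) * stepOp (jumps γ n (t - u) φ) ω

/-- The transition semigroup of the environment seen from the accelerated particle. -/
noncomputable def accSemigroup (γ : Env → ℝ) (t : ℝ) (φ : Env → ℝ≥0∞) (ω : Env) : ℝ≥0∞ :=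
  ∑' n, jumps γ n t φ ω

/-- `Q` is invariant for the environment seen from the accelerated particle. -/
def InvariantAcc (γ : Env → ℝ) (Q : Measure Env) : Prop :=
  ∀ t : ℝ, 0 ≤ t → ∀ A : Set Env, MeasurableSet A →
    Q A = ∫⁻ ω, accSemigroup γ t (A.indicator 1) ω ∂Q

/-- A local accelerating function: measurable, positive, and depending only on the
environment in a finite box. -/
def LocalAcc (γ : Env → ℝ) : Prop :=
  Measurable γ ∧ (∀ ω, 0 < γ ω) ∧ ∃ R : ℕ, ∀ ω ω' : Env,
    (∀ w : ℤ × ℤ, |w.1| ≤ R → |w.2| ≤ R → ω w = ω' w) → γ ω = γ ω'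

end DRW
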