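import Pool.Agent.P.MP_de05b4_pr.Basic0

/-! The maximum principle and the harmonic extension. -/

namespace DRW

open MeasureTheory ProbabilityTheory Finset Filter
open scoped ENNReal Topology

variable {N : ℕ} [NeZero N]

theorem eq_univ_of_closed {S : Finset (T N)} (hne : S.Nonempty)
    (h : ∀ x ∈ S, ∀ i, x + dr N i ∈ S) : S = univ := by
  obtain ⟨x, hx⟩ := hne
  have h0 : ∀ y ∈ S, ∀ a : ℕ, y + ((a : ZMod N), 0) ∈ S := by
    intro y hy a
    induction a with
    | zero => rw [Nat.cast_zero]; exact (add_zero y).symm ▸ hy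
    | succ a ih =>
      have := h _ ih 0
      rw [dr0, add_assoc] at this
      simpa using this
  have h1 : ∀ y ∈ S, ∀ a : ℕ, y + (0, (a : ZMod N)) ∈ S := by
    intro y hy a
    induction a with
    | zero => rw [Nat.cast_zero]; exact (add_zero y).symm ▸ hy
    | succ a ih =>
      have := h _ ih 1
      rw [dr1, add_assoc] at this
      simpa using this
  refine eq_univ_of_forall fun z => ?_
  have := h1 _ (h0 x hx (z - x).1.val) (z - x).2.val
  simp only [ZMod.natCast_val, ZMod.cast_id', id_eq] at this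
  convert this using 1
  ext <;> simp

/-- maximum principle: a superharmonic function on `D` that is nonnegative on the outer
boundary of `D` is nonnegative on `D` -/
theorem MP {G : E N → ℝ} (hG : Pos G) {D : Finset (T N)} (hD : D ≠ univ) {f : T N → ℝ}
    (hs : ∀ x ∈ D, lap G f x ≤ 0)
    (hb : ∀ x ∈ D, ∀ i, x + dr N i ∉ D → 0 ≤ f (x + dr N i)) : ∀ x ∈ D, 0 ≤ f x := by
  by_contra hcon
  push Not at hcon
  obtain ⟨x₀, hx₀, hneg⟩ := hcon
  obtain ⟨x₁, hx₁, hmin⟩ := Finset.exists_min_image D f ⟨x₀, hx₀⟩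
  have hm : f x₁ < 0 := lt_of_le_of_lt (hmin x₀ hx₀) hneg
  have hcl : ∀ x ∈ D.filter (fun x => f x = f x₁), ∀ i,
      x + dr N i ∈ D.filter (fun x => f x = f x₁) := by
    intro x hx i
    obtain ⟨hxD, hxf⟩ := mem_filter.mp hx
    have hge : ∀ j, f x ≤ f (x + dr N j) := fun j => by
      by_cases hj : x + dr N j ∈ D
      · rw [hxf]; exact hmin _ hj
      · have := hb x hxD j hj; linarith
    have hnn : ∀ j ∈ (univ : Finset (Fin 4)), 0 ≤ G (x, j) * (f (x + dr N j) - f x) :=
      fun j _ => mul_nonneg (hG _).le (sub_nonneg.mpr (hge j))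
    have hz : ∑ j, G (x, j) * (f (x + dr N j) - f x) = 0 :=
      le_antisymm (hs x hxD) (Finset.sum_nonneg hnn)
    have hi := (Finset.sum_eq_zero_iff_of_nonneg hnn).mp hz i (mem_univ _)
    have hi' : f (x + dr N i) = f x₁ := by
      rcases mul_eq_zero.mp hi with h | h
      · exact absurd h (hG _).ne'
      · linarith
    refine mem_filter.mpr ⟨?_, hi'⟩
    by_contra hn
    have := hb x hxD i hn
    linarith
  have := eq_univ_of_closed (S := D.filter fun x => f x = f x₁)
    ⟨x₁, mem_filter.mpr ⟨hx₁, rfl⟩⟩ hcl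
  exact hD (eq_univ_of_forall fun x => (mem_filter.mp (this ▸ mem_univ x)).1)

/-- comparison principle -/
theorem le_of_lap {G : E N → ℝ} (hG : Pos G) {D : Finset (T N)} (hD : D ≠ univ) {f g : T N → ℝ}
    (hs : ∀ x ∈ D, lap G g x ≤ lap G f x)
    (hb : ∀ x ∈ D, ∀ i, x + dr N i ∉ D → f (x + dr N i) ≤ g (x + dr N i)) :
    ∀ x ∈ D, f x ≤ g x := fun x hx =>
  sub_nonneg.mp (MP hG hD (f := fun z => g z - f z)
    (fun y hy => by rw [lap_sub]; exact sub_nonpos.mpr (hs y hy))
    (fun y hy i hi => sub_nonneg.mpr (hb y hy i hi)) x hx)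

theorem eq_of_lap {G : E N → ℝ} (hG : Pos G) {D : Finset (T N)} (hD : D ≠ univ) {f g : T N → ℝ}
    (hs : ∀ x ∈ D, lap G f x = lap G g x)
    (hb : ∀ x ∈ D, ∀ i, x + dr N i ∉ D → f (x + dr N i) = g (x + dr N i)) :
    ∀ x ∈ D, f x = g x := fun x hx =>
  le_antisymm (le_of_lap hG hD (fun y hy => (hs y hy).ge) (fun y hy i hi => (hb y hy i hi).le) x hx)
    (le_of_lap hG hD (fun y hy => (hs y hy).le) (fun y hy i hi => (hb y hy i hi).ge) x hx)

theorem hmat_mulVec (W : Finset (T N)) (G : E N → ℝ) (g : T N → ℝ) (x : T N) :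
    (hmat W G).mulVec g x = if x ∈ W then -lap G g x else g x := by
  unfold Matrix.mulVec dotProduct hmat lap
  by_cases hx : x ∈ W
  · simp only [hx, if_true, Finset.sum_mul]
    rw [Finset.sum_comm, ← Finset.sum_neg_distrib]
    refine Finset.sum_congr rfl fun i _ => ?_
    simp only [mul_assoc, ← Finset.mul_sum, sub_mul, Finset.sum_sub_distrib, ite_mul, one_mul,
      zero_mul, Finset.sum_ite_eq', mem_univ, if_true]
    ring
  · simp [hx]

theorem hmat_det_ne {G : E N → ℝ} (hG : Pos G) {W : Finset (T N)} (hW : W ≠ univ) :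
    (hmat W G).det ≠ 0 := by
  intro h
  obtain ⟨g, hg, hg0⟩ := Matrix.exists_mulVec_eq_zero_iff.mpr h
  apply hg
  have hoff : ∀ x, x ∉ W → g x = 0 := fun x hx => by
    have := congrFun hg0 x
    rwa [hmat_mulVec, if_neg hx] at this
  have hin : ∀ x ∈ W, lap G g x = 0 := fun x hx => by
    have := congrFun hg0 x
    rw [hmat_mulVec, if_pos hx] at this
    simpa using this
  funext x
  by_cases hx : x ∈ W
  · exact eq_of_lap hG hW (g := fun _ => 0) (fun y hy => by rw [hin y hy, lap_const])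
      (fun y _ i hi => hoff _ hi) x hx
  · exact hoff x hx

theorem hmat_mulVec_har {G : E N → ℝ} (hG : Pos G) {W : Finset (T N)} (hW : W ≠ univ)
    (f : T N → ℝ) : (hmat W G).mulVec (har W f G) = fun x => if x ∈ W then 0 else f x := by
  unfold har
  rw [Matrix.mulVec_mulVec, Matrix.mul_nonsing_inv _ (isUnit_iff_ne_zero.mpr (hmat_det_ne hG hW)),
    Matrix.one_mulVec]

theorem har_off {G : E N → ℝ} (hG : Pos G) {W : Finset (T N)} (hW : W ≠ univ) (f : T N → ℝ)
    {x : T N} (hx : x ∉ W) : har W f G x = f x := by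
  have := congrFun (hmat_mulVec_har hG hW f) x
  rwa [hmat_mulVec, if_neg hx, if_neg hx] at this

theorem har_lap {G : E N → ℝ} (hG : Pos G) {W : Finset (T N)} (hW : W ≠ univ) (f : T N → ℝ)
    {x : T N} (hx : x ∈ W) : lap G (har W f G) x = 0 := by
  have := congrFun (hmat_mulVec_har hG hW f) x
  rw [hmat_mulVec, if_pos hx, if_pos hx] at this
  simpa using this

theorem har_unique {G : E N → ℝ} (hG : Pos G) {W : Finset (T N)} (hW : W ≠ univ)
    {f g : T N → ℝ} (h1 : ∀ x ∈ W, lap G g x = 0) (h2 : ∀ x, x ∉ W → g x = f x) :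
    g = har W f G := by
  funext x
  by_cases hx : x ∈ W
  · exact eq_of_lap hG hW (fun y hy => by rw [h1 y hy, har_lap hG hW f hy])
      (fun y _ i hi => by rw [h2 _ hi, har_off hG hW f hi]) x hx
  · rw [h2 x hx, har_off hG hW f hx]

/-- mean value property -/
theorem har_mean {G : E N → ℝ} (hG : Pos G) {W : Finset (T N)} (hW : W ≠ univ) (f : T N → ℝ)
    {x : T N} (hx : x ∈ W) : har W f G x = ∑ i, om G (x, i) * har W f G (x + dr N i) := by
  have h := har_lap hG hW f hx
  rw [lap_eq] at h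
  have hZ := Zs_pos hG x
  change _ = ∑ i, G (x, i) / Zs G x * har W f G (x + dr N i)
  simp only [div_mul_eq_mul_div, ← Finset.sum_div]
  field_simp
  linarith

theorem le_har {G : E N → ℝ} (hG : Pos G) {W : Finset (T N)} (hW : W ≠ univ) {f : T N → ℝ}
    {c : ℝ} (h : ∀ x, x ∉ W → c ≤ f x) (x : T N) : c ≤ har W f G x := by
  by_cases hx : x ∈ W
  · exact le_of_lap hG hW (f := fun _ => c) (fun y hy => by rw [lap_const, har_lap hG hW f hy])
      (fun y _ i hi => by rw [har_off hG hW f hi]; exact h _ hi) x hx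
  · rw [har_off hG hW f hx]; exact h x hx

theorem har_le {G : E N → ℝ} (hG : Pos G) {W : Finset (T N)} (hW : W ≠ univ) {f : T N → ℝ}
    {c : ℝ} (h : ∀ x, x ∉ W → f x ≤ c) (x : T N) : har W f G x ≤ c := by
  by_cases hx : x ∈ W
  · exact le_of_lap hG hW (g := fun _ => c) (fun y hy => by rw [lap_const, har_lap hG hW f hy])
      (fun y _ i hi => by rw [har_off hG hW f hi]; exact h _ hi) x hx
  · rw [har_off hG hW f hx]; exact h x hx

theorem har_nonneg {G : E N → ℝ} (hG : Pos G) {W : Finset (T N)} (hW : W ≠ univ) {f : T N → ℝ}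
    (h : ∀ x, 0 ≤ f x) (x : T N) : 0 ≤ har W f G x := le_har hG hW (fun y _ => h y) x

theorem har_ind_nonneg {G : E N → ℝ} (hG : Pos G) {W : Finset (T N)} (hW : W ≠ univ)
    (S : Finset (T N)) (x : T N) : 0 ≤ har W (ind S) G x := har_nonneg hG hW (ind_nonneg S) x

theorem har_ind_le_one {G : E N → ℝ} (hG : Pos G) {W : Finset (T N)} (hW : W ≠ univ)
    (S : Finset (T N)) (x : T N) : har W (ind S) G x ≤ 1 :=
  har_le hG hW (fun y _ => ind_le_one S y) x

theorem har_pos {G : E N → ℝ} (hG : Pos G) {W : Finset (T N)} (hW : W ≠ univ) {f : T N → ℝ}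
    (h : ∀ x, 0 < f x) (x : T N) : 0 < har W f G x := by
  obtain ⟨y, -, hy⟩ := Finset.exists_min_image univ f univ_nonempty
  exact lt_of_lt_of_le (h y) (le_har hG hW (fun z _ => hy z (mem_univ z)) x)

theorem har_mono {G : E N → ℝ} (hG : Pos G) {W : Finset (T N)} (hW : W ≠ univ) {f g : T N → ℝ}
    (h : ∀ x, x ∉ W → f x ≤ g x) (x : T N) : har W f G x ≤ har W g G x := by
  by_cases hx : x ∈ W
  · exact le_of_lap hG hW (fun y hy => by rw [har_lap hG hW f hy, har_lap hG hW g hy])
      (fun y _ i hi => by rw [har_off hG hW f hi, har_off hG hW g hi]; exact h _ hi) x hx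
  · rw [har_off hG hW f hx, har_off hG hW g hx]; exact h x hx

theorem har_congr (G : E N → ℝ) {W : Finset (T N)} {f g : T N → ℝ}
    (h : ∀ x, x ∉ W → f x = g x) : har W f G = har W g G := by
  unfold har
  congr 1
  funext x
  by_cases hx : x ∈ W
  · rw [if_pos hx, if_pos hx]
  · rw [if_neg hx, if_neg hx, h x hx]

theorem har_const {G : E N → ℝ} (hG : Pos G) {W : Finset (T N)} (hW : W ≠ univ) (c : ℝ)
    (x : T N) : har W (fun _ => c) G x = c :=
  le_antisymm (har_le hG hW (fun _ _ => le_rfl) x) (le_har hG hW (fun _ _ => le_rfl) x)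

theorem har_add (G : E N → ℝ) (W : Finset (T N)) (f g : T N → ℝ) (x : T N) :
    har W (fun z => f z + g z) G x = har W f G x + har W g G x := by
  unfold har
  rw [← Pi.add_apply, ← Matrix.mulVec_add]
  congr 2
  funext z; simp only [Pi.add_apply]; split_ifs <;> simp

theorem har_mul (G : E N → ℝ) (W : Finset (T N)) (c : ℝ) (f : T N → ℝ) (x : T N) :
    har W (fun z => c * f z) G x = c * har W f G x := by
  unfold har
  rw [← smul_eq_mul, ← Pi.smul_apply, ← Matrix.mulVec_smul]
  congr 2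
  funext z; simp only [Pi.smul_apply, smul_eq_mul]; split_ifs <;> simp

theorem har_sub (G : E N → ℝ) (W : Finset (T N)) (f g : T N → ℝ) (x : T N) :
    har W (fun z => f z - g z) G x = har W f G x - har W g G x := by
  have := har_add G W (fun z => f z - g z) g x
  simp only [sub_add_cancel] at this
  linarith

theorem har_sum {ι : Type*} (s : Finset ι) (G : E N → ℝ) (W : Finset (T N)) (f : ι → T N → ℝ)
    (x : T N) : har W (fun z => ∑ k ∈ s, f k z) G x = ∑ k ∈ s, har W (f k) G x := by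
  classical
  induction s using Finset.induction_on with
  | empty => simpa using har_mul G W 0 (fun _ => 0) x
  | insert a s ha ih => simp only [Finset.sum_insert ha]; rw [har_add, ih]

theorem har_ind_sum (G : E N → ℝ) (W S : Finset (T N)) (x : T N) :
    har W (ind S) G x = ∑ y ∈ S, har W (ind {y}) G x := by
  rw [← har_sum]; congr 1; funext z; exact ind_eq_sum S z

/-- the harmonic extension as a superposition of harmonic measures -/
theorem har_eq_sum (G : E N → ℝ) (W : Finset (T N)) (f : T N → ℝ) (x : T N) :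
    har W f G x = ∑ y, f y * har W (ind {y}) G x := by
  simp only [← har_mul]
  rw [← har_sum]; congr 1; funext z; simp [ind]

theorem har_har {G : E N → ℝ} (hG : Pos G) {W W' : Finset (T N)} (hW : W ≠ univ) (h : W' ⊆ W)
    (f : T N → ℝ) : har W' (har W f G) G = har W f G :=
  (har_unique hG (fun h' => hW (univ_subset_iff.mp (h' ▸ h)))
    (fun _ hx => har_lap hG hW f (h hx)) fun _ _ => rfl).symm

theorem measurable_har (W : Finset (T N)) (f : T N → ℝ) (x : T N) :
    Measurable fun G => har W f G x := by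
  have hc : Continuous fun G : E N → ℝ => hmat W G := by
    refine continuous_matrix fun a b => ?_
    unfold hmat
    split_ifs <;> fun_prop
  have h1 : Measurable fun G : E N → ℝ => (hmat W G).det := hc.matrix_det.measurable
  have h2 : ∀ a b, Measurable fun G : E N → ℝ => (hmat W G).adjugate a b := fun a b =>
    (hc.matrix_adjugate.matrix_elem a b).measurable
  unfold har Matrix.mulVec dotProduct
  refine Finset.measurable_sum _ fun y _ => Measurable.mul_const ?_ _
  simp only [Matrix.inv_def, Ring.inverse_eq_inv', Matrix.smul_apply, smul_eq_mul]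
  exact h1.inv.mul (h2 x y)

/-- the boundary data may depend measurably on the weights -/
theorem measurable_har' (W : Finset (T N)) {f : (E N → ℝ) → T N → ℝ}
    (hf : ∀ y, Measurable fun G => f G y) (x : T N) : Measurable fun G => har W (f G) G x := by
  simp only [har_eq_sum _ W (f _) x]
  exact Finset.measurable_sum _ fun y _ => (hf y).mul (measurable_har W _ x)

theorem har_dep {W : Finset (T N)} (f : T N → ℝ) {G G' : E N → ℝ}
    (h : ∀ e : E N, e.1 ∈ W → G e = G' e) : har W f G = har W f G' := by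
  have : hmat W G = hmat W G' := by
    funext x y
    unfold hmat
    by_cases hx : x ∈ W
    · rw [if_pos hx, if_pos hx]
      exact Finset.sum_congr rfl fun i _ => by rw [h (x, i) hx]
    · rw [if_neg hx, if_neg hx]
  unfold har; rw [this]

theorem Fx_har_dep {W : Finset (T N)} (f : T N → ℝ) {S : Finset (E N)} {G G' : E N → ℝ}
    (h : ∀ e : E N, e.1 ∈ W → G e = G' e) (h' : ∀ e ∈ S, G e = G' e) :
    Fx G S (har W f G) = Fx G' S (har W f G') := by
  rw [har_dep f h]
  exact Finset.sum_congr rfl fun e he => by rw [h' e he]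

theorem har_scl {G : E N → ℝ} (hG : Pos G) {W : Finset (T N)} (hW : W ≠ univ) (f : T N → ℝ)
    (x : T N) {c : ℝ} (hc : 0 < c) : har W f (scl x c G) = har W f G :=
  (har_unique (pos_scl hG x hc) hW (fun y hy => by rw [lap_scl, har_lap hG hW f hy, mul_zero])
    fun _ hy => har_off hG hW f hy).symm

omit [NeZero N] in
theorem pos_shG {G : E N → ℝ} (hG : Pos G) (z : T N) : Pos (shG z G) := fun _ => hG _

/-- translation covariance -/
theorem har_shG {G : E N → ℝ} (hG : Pos G) {W W' : Finset (T N)} (hW : W ≠ univ) (z : T N)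
    (hWW : ∀ x, x ∈ W ↔ x + z ∈ W') {f f' : T N → ℝ} (hf : ∀ x, f x = f' (x + z)) (x : T N) :
    har W f (shG z G) x = har W' f' G (x + z) := by
  have hW' : W' ≠ univ := fun h =>
    hW (eq_univ_of_forall fun x => (hWW x).mpr (h ▸ mem_univ _))
  refine (congrFun (har_unique (g := fun x => har W' f' G (x + z)) (pos_shG hG z) hW ?_ ?_) x).symm
  · intro y hy
    have := har_lap hG hW' f' ((hWW y).mp hy)
    unfold lap at this ⊢
    simpa only [shG, add_right_comm] using this
  · intro y hy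
    rw [har_off hG hW' f' (fun h => hy ((hWW y).mpr h)), hf]

/-! the quantities attached to a strip -/

theorem measurable_uu (s t : ℕ) (x : T N) : Measurable fun G => uu s t G x := measurable_har _ _ x
theorem measurable_vv (s t : ℕ) (x : T N) : Measurable fun G => vv s t G x := measurable_har _ _ x
theorem measurable_gx (s t : ℕ) (x y : T N) : Measurable fun G => gx s t x G y :=
  measurable_har _ _ y
theorem measurable_Fx_har (S : Finset (E N)) (W : Finset (T N)) (f : T N → ℝ) :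
    Measurable fun G => Fx G S (har W f G) := measurable_Fx S (measurable_har W f)
theorem measurable_FL (s t : ℕ) (Sg : Finset (T N)) : Measurable (FL s t Sg) :=
  measurable_Fx_har _ _ _
theorem measurable_FR (s t : ℕ) (Sg : Finset (T N)) : Measurable (FR s t Sg) :=
  measurable_Fx_har _ _ _
theorem measurable_HH (s t : ℕ) (x : T N) : Measurable (HH s t x) := measurable_Fx_har _ _ _
theorem measurable_esc (s t : ℕ) (x : T N) : Measurable (esc s t x) :=
  Finset.measurable_sum _ fun _ _ =>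
    (measurable_om _).mul (measurable_const.sub (measurable_gx s t x _))
theorem measurable_pii (s t : ℕ) (x : T N) : Measurable (pii s t x) :=
  (measurable_HH s t x).div (measurable_esc s t x)
theorem measurable_Esc (s t : ℕ) (I : Finset (T N)) : Measurable (Esc s t I) :=
  measurable_Fx _ fun x => measurable_const.sub (measurable_har _ _ x)
theorem measurable_Xb (r w l : ℕ) (p : ZMod N) : Measurable (Xb r w p l) :=
  measurable_Fx_har _ _ _

theorem uu_nonneg {G : E N → ℝ} (hG : Pos G) (s t : ℕ) (x : T N) : 0 ≤ uu s t G x :=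
  har_ind_nonneg hG (Wd_ne_univ s t) _ x
theorem uu_le_one {G : E N → ℝ} (hG : Pos G) (s t : ℕ) (x : T N) : uu s t G x ≤ 1 :=
  har_ind_le_one hG (Wd_ne_univ s t) _ x
theorem vv_nonneg {G : E N → ℝ} (hG : Pos G) (s t : ℕ) (x : T N) : 0 ≤ vv s t G x :=
  har_ind_nonneg hG (Wd_ne_univ s t) _ x
theorem vv_le_one {G : E N → ℝ} (hG : Pos G) (s t : ℕ) (x : T N) : vv s t G x ≤ 1 :=
  har_ind_le_one hG (Wd_ne_univ s t) _ x
theorem gx_nonneg {G : E N → ℝ} (hG : Pos G) (s t : ℕ) (x y : T N) : 0 ≤ gx s t x G y :=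
  har_ind_nonneg hG (Wd_sdiff_ne_univ s t _) _ y
theorem gx_le_one {G : E N → ℝ} (hG : Pos G) (s t : ℕ) (x y : T N) : gx s t x G y ≤ 1 :=
  har_ind_le_one hG (Wd_sdiff_ne_univ s t _) _ y
theorem gx_self {G : E N → ℝ} (hG : Pos G) (s t : ℕ) (x : T N) : gx s t x G x = 1 := by
  unfold gx
  rw [har_off hG (Wd_sdiff_ne_univ s t _) _ (by simp), ind_of_mem (mem_singleton_self x)]
theorem gx_off {G : E N → ℝ} (hG : Pos G) {s t : ℕ} {x y : T N} (hx : x ∈ Wd N s t)
    (hy : y ∉ Wd N s t) : gx s t x G y = 0 := by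
  unfold gx
  rw [har_off hG (Wd_sdiff_ne_univ s t _) _ (by simp [hy]),
    ind_of_notMem (by rw [mem_singleton]; rintro rfl; exact hy hx)]
theorem gx_lap {G : E N → ℝ} (hG : Pos G) {s t : ℕ} (x : T N) {y : T N} (hy : y ∈ Wd N s t) :
    lap G (gx s t x G) y = if y = x then -(Zs G x * esc s t x G) else 0 := by
  split_ifs with h
  · subst h
    have hZ := Zs_pos hG y
    unfold lap esc
    rw [gx_self hG, Finset.mul_sum, ← Finset.sum_neg_distrib]
    refine Finset.sum_congr rfl fun i _ => ?_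
    change _ = -(Zs G y * (G (y, i) / Zs G y * _))
    field_simp
    ring
  · exact har_lap hG (Wd_sdiff_ne_univ s t _) _ (by simp [hy, h])

theorem FL_nonneg {G : E N → ℝ} (hG : Pos G) (s t : ℕ) (Sg : Finset (T N)) : 0 ≤ FL s t Sg G :=
  Fx_nonneg hG fun _ _ => har_ind_nonneg hG (Wd_ne_univ s t) _ _
theorem FR_nonneg {G : E N → ℝ} (hG : Pos G) (s t : ℕ) (Sg : Finset (T N)) : 0 ≤ FR s t Sg G :=
  Fx_nonneg hG fun _ _ => har_ind_nonneg hG (Wd_ne_univ s t) _ _
theorem HH_nonneg {G : E N → ℝ} (hG : Pos G) (s t : ℕ) (x : T N) : 0 ≤ HH s t x G :=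
  Fx_nonneg hG fun _ _ => gx_nonneg hG s t x _
theorem esc_nonneg {G : E N → ℝ} (hG : Pos G) (s t : ℕ) (x : T N) : 0 ≤ esc s t x G :=
  Finset.sum_nonneg fun _ _ => mul_nonneg (om_pos hG _).le (sub_nonneg.mpr (gx_le_one hG s t x _))
theorem esc_le_one {G : E N → ℝ} (hG : Pos G) (s t : ℕ) (x : T N) : esc s t x G ≤ 1 := by
  rw [← sum_om hG x]
  exact Finset.sum_le_sum fun i _ => mul_le_of_le_one_right (om_pos hG _).le
    (by have := gx_nonneg hG s t x (x + dr N i); linarith)

theorem FL_eq_sum (G : E N → ℝ) (s t : ℕ) (I : Finset (T N)) :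
    FL s t I G = ∑ y ∈ I, FL s t {y} G := by
  unfold FL; rw [← Fx_sum]; exact Fx_congr G fun e _ => har_ind_sum G _ I _
theorem FR_eq_sum (G : E N → ℝ) (s t : ℕ) (I : Finset (T N)) :
    FR s t I G = ∑ y ∈ I, FR s t {y} G := by
  unfold FR; rw [← Fx_sum]; exact Fx_congr G fun e _ => har_ind_sum G _ I _

theorem FL_dep {s t : ℕ} (hst : s < t) (I : Finset (T N)) {G G' : E N → ℝ}
    (h : ∀ e : E N, col e.1 < t → G e = G' e) : FL s t I G = FL s t I G' :=
  Fx_har_dep _ (fun e he => h e (mem_Wd.mp he).2) fun e he =>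
    h e (by rw [mem_Col.mp (mem_SE.mp he).1]; exact hst)
theorem FR_dep {s t : ℕ} (hst : s < t) (I : Finset (T N)) {G G' : E N → ℝ}
    (h : ∀ e : E N, s < col e.1 → G e = G' e) : FR s t I G = FR s t I G' :=
  Fx_har_dep _ (fun e he => h e (mem_Wd.mp he).1) fun e he =>
    h e (by rw [mem_Col.mp (mem_SE.mp he).1]; exact hst)

theorem Fx_har_scl {G : E N → ℝ} (hG : Pos G) {W : Finset (T N)} (hW : W ≠ univ) (f : T N → ℝ)
    {S : Finset (E N)} {x : T N} (hS : ∀ e ∈ S, e.1 ≠ x) {c : ℝ} (hc : 0 < c) :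
    Fx (scl x c G) S (har W f (scl x c G)) = Fx G S (har W f G) := by
  rw [har_scl hG hW f x hc, Fx_scl c hS]
theorem gx_scl {G : E N → ℝ} (hG : Pos G) (s t : ℕ) (x y : T N) {c : ℝ} (hc : 0 < c) :
    gx s t x (scl y c G) = gx s t x G := har_scl hG (Wd_sdiff_ne_univ s t _) _ y hc
theorem esc_scl {G : E N → ℝ} (hG : Pos G) (s t : ℕ) (x y : T N) {c : ℝ} (hc : 0 < c) :
    esc s t x (scl y c G) = esc s t x G := by
  unfold esc; simp only [gx_scl hG s t x y hc, om_scl y hc]
theorem HH_scl {G : E N → ℝ} (hG : Pos G) {s t : ℕ} (x : T N) {y : T N} (hy : y ∈ Wd N s t)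
    {c : ℝ} (hc : 0 < c) : HH s t x (scl y c G) = HH s t x G :=
  Fx_har_scl hG (Wd_sdiff_ne_univ s t _) _ (fun e he h => by
    rw [mem_Src, h] at he; rw [mem_Wd] at hy; omega) hc
theorem FR_scl {G : E N → ℝ} (hG : Pos G) {s t : ℕ} (I : Finset (T N)) {y : T N}
    (hy : col y ≠ t) {c : ℝ} (hc : 0 < c) : FR s t I (scl y c G) = FR s t I G :=
  Fx_har_scl hG (Wd_ne_univ s t) _ (fun e he (h : e.1 = y) => hy (h ▸ mem_Col.mp (mem_SE.mp he).1)) hc

/-- the outer boundary of a strip lies on the two walls -/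
theorem nbr_Wd {s t : ℕ} (ht : t < N) {x : T N} (hx : x ∈ Wd N s t) (i : Fin 4)
    (hi : x + dr N i ∉ Wd N s t) : col (x + dr N i) = s ∨ col (x + dr N i) = t := by
  rw [mem_Wd] at hx hi
  rcases col_nbr (x := x) (by omega) (by omega) i with h | h | h <;> omega

/-- comparison on a closed strip: enough to compare on the two walls -/
theorem le_on_strip {G : E N → ℝ} (hG : Pos G) {s t : ℕ} (ht : t < N) {f g : T N → ℝ}
    (hs : ∀ x ∈ Wd N s t, lap G g x ≤ lap G f x)
    (hl : ∀ x, col x = s → f x ≤ g x) (hr : ∀ x, col x = t → f x ≤ g x)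
    {x : T N} (h1 : s ≤ col x) (h2 : col x ≤ t) : f x ≤ g x := by
  by_cases hx : x ∈ Wd N s t
  · exact le_of_lap hG (Wd_ne_univ s t) hs
      (fun y hy i hi => (nbr_Wd ht hy i hi).elim (hl _) (hr _)) x hx
  · rw [mem_Wd] at hx
    rcases (by omega : col x = s ∨ col x = t) with h | h
    · exact hl x h
    · exact hr x h

theorem eq_on_strip {G : E N → ℝ} (hG : Pos G) {s t : ℕ} (ht : t < N) {f g : T N → ℝ}
    (hs : ∀ x ∈ Wd N s t, lap G f x = lap G g x)
    (hl : ∀ x, col x = s → f x = g x) (hr : ∀ x, col x = t → f x = g x)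
    {x : T N} (h1 : s ≤ col x) (h2 : col x ≤ t) : f x = g x :=
  le_antisymm
    (le_on_strip hG ht (fun y hy => (hs y hy).ge) (fun y hy => (hl y hy).le)
      (fun y hy => (hr y hy).le) h1 h2)
    (le_on_strip hG ht (fun y hy => (hs y hy).le) (fun y hy => (hl y hy).ge)
      (fun y hy => (hr y hy).ge) h1 h2)

theorem har_Wd_off {G : E N → ℝ} (hG : Pos G) {s t : ℕ} (f : T N → ℝ) {x : T N}
    (hx : col x ≤ s ∨ t ≤ col x) : har (Wd N s t) f G x = f x :=
  har_off hG (Wd_ne_univ s t) f (by rw [mem_Wd]; omega)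

theorem har_Wd_lap {G : E N → ℝ} (hG : Pos G) {s t : ℕ} (f : T N → ℝ) {x : T N}
    (h1 : s < col x) (h2 : col x < t) : lap G (har (Wd N s t) f G) x = 0 :=
  har_lap hG (Wd_ne_univ s t) f (mem_Wd.mpr ⟨h1, h2⟩)

theorem uu_left {G : E N → ℝ} (hG : Pos G) {s t : ℕ} (hst : s < t) {x : T N} (hx : col x = s) :
    uu s t G x = 0 := by
  unfold uu; rw [har_Wd_off hG _ (Or.inl hx.le), ind_of_notMem (by rw [mem_Col]; omega)]
theorem uu_right {G : E N → ℝ} (hG : Pos G) {s t : ℕ} {x : T N} (hx : col x = t) :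
    uu s t G x = 1 := by
  unfold uu; rw [har_Wd_off hG _ (Or.inr hx.ge), ind_of_mem (mem_Col.mpr hx)]
theorem vv_left {G : E N → ℝ} (hG : Pos G) {s t : ℕ} {x : T N} (hx : col x = s) :
    vv s t G x = 1 := by
  unfold vv; rw [har_Wd_off hG _ (Or.inl hx.le), ind_of_mem (mem_Col.mpr hx)]
theorem vv_right {G : E N → ℝ} (hG : Pos G) {s t : ℕ} (hst : s < t) {x : T N} (hx : col x = t) :
    vv s t G x = 0 := by
  unfold vv; rw [har_Wd_off hG _ (Or.inr hx.ge), ind_of_notMem (by rw [mem_Col]; omega)]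
theorem uu_lap {G : E N → ℝ} (hG : Pos G) {s t : ℕ} {x : T N} (h1 : s < col x) (h2 : col x < t) :
    lap G (uu s t G) x = 0 := har_Wd_lap hG _ h1 h2
theorem vv_lap {G : E N → ℝ} (hG : Pos G) {s t : ℕ} {x : T N} (h1 : s < col x) (h2 : col x < t) :
    lap G (vv s t G) x = 0 := har_Wd_lap hG _ h1 h2

theorem uu_add_vv {G : E N → ℝ} (hG : Pos G) {s t : ℕ} (hst : s < t) (ht : t < N) {x : T N}
    (h1 : s ≤ col x) (h2 : col x ≤ t) : uu s t G x + vv s t G x = 1 :=
  eq_on_strip hG ht (f := fun z => uu s t G z + vv s t G z) (g := fun _ => 1)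
    (fun y hy => by
      rw [mem_Wd] at hy
      rw [lap_add, uu_lap hG hy.1 hy.2, vv_lap hG hy.1 hy.2, lap_const, add_zero])
    (fun y hy => by rw [uu_left hG hst hy, vv_left hG hy, zero_add])
    (fun y hy => by rw [uu_right hG hy, vv_right hG hst hy, add_zero]) h1 h2

theorem col_tg_left {s : ℕ} (hs : s + 1 < N) {I : Finset (T N)} (hI : I ⊆ Col N s) {e : E N}
    (he : e ∈ SE I 0) : col (tg e) = s + 1 := by
  obtain ⟨h1, h2⟩ := mem_SE.mp he
  have h3 := mem_Col.mp (hI h1)
  unfold tg; rw [h2, col_add0 (by omega), h3]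

theorem col_tg_right {t : ℕ} (ht : 1 ≤ t) {I : Finset (T N)} (hI : I ⊆ Col N t) {e : E N}
    (he : e ∈ SE I 2) : col (tg e) = t - 1 := by
  obtain ⟨h1, h2⟩ := mem_SE.mp he
  have h3 := mem_Col.mp (hI h1)
  unfold tg; rw [h2, col_add2 (by omega), h3]

end DRW
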