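import Pool.Agent.P.MP_de05b4_pr.Stmts

/-! Elementary facts: the Gamma product measure, sums over edges, columns and windows. -/

namespace DRW

open MeasureTheory ProbabilityTheory Finset Filter
open scoped ENNReal Topology

variable {N : ℕ}

theorem gamma_ae_pos (a : ℝ) : ∀ᵐ x ∂gammaMeasure a 1, 0 < x := by
  rw [ae_iff]
  have : {x : ℝ | ¬ 0 < x} = Set.Iic 0 := by ext x; simp
  rw [this, gammaMeasure, withDensity_apply _ measurableSet_Iic,
    ← setLIntegral_congr Iio_ae_eq_Iic]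
  exact lintegral_gammaPDF_of_nonpos le_rfl

theorem prob_mu [NeZero N] {β : E N → ℝ} (hβ : Pos β) : IsProbabilityMeasure (mu β) := by
  have : ∀ e, IsProbabilityMeasure (gammaMeasure (β e) 1) := fun e =>
    isProbabilityMeasure_gammaMeasure (hβ e) one_pos
  unfold mu; infer_instance

theorem ae_pos [NeZero N] {β : E N → ℝ} (hβ : Pos β) : ∀ᵐ G ∂mu β, Pos G := by
  have : ∀ e, IsProbabilityMeasure (gammaMeasure (β e) 1) := fun e =>
    isProbabilityMeasure_gammaMeasure (hβ e) one_pos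
  unfold Pos mu
  rw [ae_all_iff]
  intro e
  exact (measurePreserving_eval (fun e => gammaMeasure (β e) 1) e).quasiMeasurePreserving.ae
    (gamma_ae_pos (β e))

theorem pos_al {α : Fin 4 → ℝ} (hα : ∀ i, 0 < α i) : Pos (al N α) := fun e => hα e.2

theorem pos_bump {β : E N → ℝ} (hβ : Pos β) (e : E N) : Pos (bump β e) := by
  intro e'; unfold bump; have := hβ e'; split_ifs <;> linarith

theorem prob_gam {α : Fin 4 → ℝ} (hα : ∀ i, 0 < α i) : IsProbabilityMeasure (gam α) := by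
  have : ∀ i, IsProbabilityMeasure (gammaMeasure (α i) 1) := fun i =>
    isProbabilityMeasure_gammaMeasure (hα i) one_pos
  unfold gam; infer_instance

theorem gam_ae_pos {α : Fin 4 → ℝ} (hα : ∀ i, 0 < α i) : ∀ᵐ g ∂gam α, ∀ i, 0 < g i := by
  have : ∀ i, IsProbabilityMeasure (gammaMeasure (α i) 1) := fun i =>
    isProbabilityMeasure_gammaMeasure (hα i) one_pos
  unfold gam
  rw [ae_all_iff]
  intro i
  exact (measurePreserving_eval (fun i => gammaMeasure (α i) 1) i).quasiMeasurePreserving.ae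
    (gamma_ae_pos (α i))

theorem measurable_nrm : Measurable nrm := by
  unfold nrm; fun_prop

theorem dirichlet_eq (α : Fin 4 → ℝ) : dirichlet α = (gam α).map nrm := rfl

theorem prob_dirichlet {α : Fin 4 → ℝ} (hα : ∀ i, 0 < α i) :
    IsProbabilityMeasure (dirichlet α) := by
  have := prob_gam hα
  rw [dirichlet_eq]; exact Measure.isProbabilityMeasure_map measurable_nrm.aemeasurable

theorem prob_lawG {α : Fin 4 → ℝ} (hα : ∀ i, 0 < α i) : IsProbabilityMeasure (lawG α) := by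
  have := prob_gam hα
  unfold lawG; infer_instance

theorem prob_law {α : Fin 4 → ℝ} (hα : ∀ i, 0 < α i) : IsProbabilityMeasure (law α) := by
  have := prob_dirichlet hα
  unfold law; infer_instance

theorem dirichlet_ae {α : Fin 4 → ℝ} (hα : ∀ i, 0 < α i) :
    ∀ᵐ g ∂dirichlet α, (∀ i, 0 < g i) ∧ ∑ i, g i = 1 := by
  rw [dirichlet_eq, ae_map_iff measurable_nrm.aemeasurable]
  · filter_upwards [gam_ae_pos hα] with g hg
    have hs : 0 < ∑ j, g j := Finset.sum_pos (fun j _ => hg j) univ_nonempty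
    refine ⟨fun i => div_pos (hg i) hs, ?_⟩
    unfold nrm
    rw [← Finset.sum_div, div_self hs.ne']
  · have h1 : MeasurableSet {g : Fin 4 → ℝ | ∀ i, 0 < g i} := by
      rw [Set.ofPred_forall]
      exact MeasurableSet.iInter fun i => measurableSet_lt measurable_const (measurable_pi_apply i)
    have h2 : MeasurableSet {g : Fin 4 → ℝ | ∑ i, g i = 1} :=
      measurableSet_eq_fun (by fun_prop) measurable_const
    exact h1.inter h2

theorem measurable_shift (x : ℤ × ℤ) : Measurable (shift x) := by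
  unfold shift; fun_prop

/-! expectation -/

theorem Ex_mono [NeZero N] {β : E N → ℝ} (hβ : Pos β) {X Y : (E N → ℝ) → ℝ}
    (h : ∀ G, Pos G → X G ≤ Y G) : Ex β X ≤ Ex β Y :=
  lintegral_mono_ae ((ae_pos hβ).mono fun G hG => ENNReal.ofReal_le_ofReal (h G hG))

theorem Ex_congr [NeZero N] {β : E N → ℝ} (hβ : Pos β) {X Y : (E N → ℝ) → ℝ}
    (h : ∀ G, Pos G → X G = Y G) : Ex β X = Ex β Y :=
  le_antisymm (Ex_mono hβ fun G hG => (h G hG).le) (Ex_mono hβ fun G hG => (h G hG).ge)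

theorem Ex_add_le [NeZero N] (β : E N → ℝ) {X Y : (E N → ℝ) → ℝ} (hX : Measurable X) :
    Ex β (fun G => X G + Y G) ≤ Ex β X + Ex β Y := by
  unfold Ex
  rw [← lintegral_add_left hX.ennreal_ofReal]
  exact lintegral_mono fun G => ENNReal.ofReal_add_le

theorem Ex_add [NeZero N] {β : E N → ℝ} (hβ : Pos β) {X Y : (E N → ℝ) → ℝ} (hX : Measurable X)
    (h0 : ∀ G, Pos G → 0 ≤ X G) (h1 : ∀ G, Pos G → 0 ≤ Y G) :
    Ex β (fun G => X G + Y G) = Ex β X + Ex β Y := by
  unfold Ex
  rw [← lintegral_add_left hX.ennreal_ofReal]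
  exact lintegral_congr_ae ((ae_pos hβ).mono fun G hG => ENNReal.ofReal_add (h0 G hG) (h1 G hG))

theorem Ex_sum [NeZero N] {β : E N → ℝ} (hβ : Pos β) {ι : Type*} (s : Finset ι)
    {X : ι → (E N → ℝ) → ℝ} (hX : ∀ k ∈ s, Measurable (X k))
    (h0 : ∀ k ∈ s, ∀ G, Pos G → 0 ≤ X k G) :
    Ex β (fun G => ∑ k ∈ s, X k G) = ∑ k ∈ s, Ex β (X k) := by
  unfold Ex
  rw [← lintegral_finsetSum _ fun k hk => (hX k hk).ennreal_ofReal]
  exact lintegral_congr_ae ((ae_pos hβ).mono fun G hG =>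
    ENNReal.ofReal_sum_of_nonneg fun k hk => h0 k hk G hG)

theorem Ex_const_mul [NeZero N] (β : E N → ℝ) {X : (E N → ℝ) → ℝ} {c : ℝ} (hc : 0 ≤ c) :
    Ex β (fun G => c * X G) = ENNReal.ofReal c * Ex β X := by
  unfold Ex
  rw [← lintegral_const_mul' _ _ ENNReal.ofReal_ne_top]
  exact lintegral_congr fun G => ENNReal.ofReal_mul hc

theorem Ex_const [NeZero N] {β : E N → ℝ} (hβ : Pos β) (c : ℝ) :
    Ex β (fun _ => c) = ENNReal.ofReal c := by
  have := prob_mu hβ
  unfold Ex; simp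

/-- Markov inequality, for an event that forces `X` to be large on positive weights -/
theorem mu_le_Ex [NeZero N] {β : E N → ℝ} (hβ : Pos β) {X : (E N → ℝ) → ℝ} (hX : Measurable X)
    {D : Set (E N → ℝ)} {c : ℝ} (hc : 0 < c) (h : ∀ G, Pos G → G ∈ D → c ≤ X G) :
    mu β D ≤ ENNReal.ofReal c⁻¹ * Ex β X := by
  have h1 : mu β D ≤ mu β {G | ENNReal.ofReal c ≤ ENNReal.ofReal (X G)} :=
    measure_mono_ae ((ae_pos hβ).mono fun G hG hD => ENNReal.ofReal_le_ofReal (h G hG hD))
  have h2 := mul_meas_ge_le_lintegral (μ := mu β) hX.ennreal_ofReal (ENNReal.ofReal c)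
  have hc' : ENNReal.ofReal c ≠ 0 := by simpa using hc
  rw [ENNReal.ofReal_inv_of_pos hc]
  calc mu β D ≤ (ENNReal.ofReal c)⁻¹ * (ENNReal.ofReal c * mu β D) := by
        rw [← mul_assoc, ENNReal.inv_mul_cancel hc' ENNReal.ofReal_ne_top, one_mul]
    _ ≤ _ := by
        gcongr
        exact le_trans (by gcongr) h2

theorem mu_mono [NeZero N] {β : E N → ℝ} (hβ : Pos β) {D D' : Set (E N → ℝ)}
    (h : ∀ G, Pos G → G ∈ D → G ∈ D') : mu β D ≤ mu β D' :=
  measure_mono_ae ((ae_pos hβ).mono fun G hG hD => h G hG hD)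

/-! translations -/

theorem measurable_shG (z : T N) : Measurable (shG z) := by
  unfold shG; fun_prop

theorem mp_shG [NeZero N] {α : Fin 4 → ℝ} (hα : ∀ i, 0 < α i) (z : T N) :
    MeasurePreserving (shG z) (mu (al N α)) (mu (al N α)) := by
  have : ∀ e : E N, IsProbabilityMeasure (gammaMeasure (al N α e) 1) := fun e =>
    isProbabilityMeasure_gammaMeasure (hα e.2) one_pos
  let σ : E N ≃ E N := (Equiv.subRight z).prodCongr (Equiv.refl _)
  have h := measurePreserving_piCongrLeft (fun e : E N => gammaMeasure (al N α e) 1) σ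
  have h2 : (fun e : E N => gammaMeasure (al N α (σ e)) 1) =
      fun e : E N => gammaMeasure (al N α e) 1 := rfl
  have h3 : ⇑(MeasurableEquiv.piCongrLeft (fun _ : E N => ℝ) σ) = shG z := by
    funext G e
    have : e = σ (e.1 + z, e.2) := by simp [σ]
    rw [this, MeasurableEquiv.piCongrLeft_apply_apply]
    simp [shG, σ]
  rw [h2, h3] at h
  exact h

theorem Ex_shG [NeZero N] {α : Fin 4 → ℝ} (hα : ∀ i, 0 < α i) (z : T N)
    {X : (E N → ℝ) → ℝ} (hX : Measurable X) :
    Ex (al N α) (fun G => X (shG z G)) = Ex (al N α) X :=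
  (mp_shG hα z).lintegral_comp hX.ennreal_ofReal

/-! weights at a site -/

theorem Zs_pos {G : E N → ℝ} (hG : Pos G) (x : T N) : 0 < Zs G x :=
  Finset.sum_pos (fun i _ => hG (x, i)) univ_nonempty

theorem om_pos {G : E N → ℝ} (hG : Pos G) (e : E N) : 0 < om G e := div_pos (hG e) (Zs_pos hG _)

theorem sum_om {G : E N → ℝ} (hG : Pos G) (x : T N) : ∑ i, om G (x, i) = 1 := by
  change ∑ i, G (x, i) / Zs G x = 1
  rw [← Finset.sum_div]
  exact div_self (Zs_pos hG x).ne'

theorem om_le_one {G : E N → ℝ} (hG : Pos G) (e : E N) : om G e ≤ 1 := by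
  rw [← sum_om hG e.1]
  exact Finset.single_le_sum (f := fun i => om G (e.1, i)) (fun i _ => (om_pos hG _).le)
    (mem_univ e.2)

theorem measurable_Zs (x : T N) : Measurable fun G : E N → ℝ => Zs G x := by
  unfold Zs; fun_prop

theorem measurable_om (e : E N) : Measurable fun G : E N → ℝ => om G e := by
  unfold om Zs; fun_prop

theorem pos_scl {G : E N → ℝ} (hG : Pos G) (x : T N) {c : ℝ} (hc : 0 < c) : Pos (scl x c G) := by
  intro e; unfold scl; have := hG e; split_ifs <;> positivity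

theorem om_scl {G : E N → ℝ} (x : T N) {c : ℝ} (hc : 0 < c) (e : E N) :
    om (scl x c G) e = om G e := by
  unfold om Zs scl
  by_cases h : e.1 = x
  · simp only [h, if_true, ← Finset.mul_sum]
    rw [mul_div_mul_left _ _ hc.ne']
  · simp [h]

theorem lap_scl (G : E N → ℝ) (x : T N) (c : ℝ) (f : T N → ℝ) (y : T N) :
    lap (scl x c G) f y = (if y = x then c else 1) * lap G f y := by
  unfold lap scl
  by_cases h : y = x <;> simp [h, Finset.mul_sum, mul_assoc]

theorem Fx_scl {G : E N → ℝ} {x : T N} (c : ℝ) {S : Finset (E N)} (hS : ∀ e ∈ S, e.1 ≠ x)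
    (g : T N → ℝ) : Fx (scl x c G) S g = Fx G S g := by
  unfold Fx scl
  exact Finset.sum_congr rfl fun e he => by rw [if_neg (hS e he)]

theorem lap_eq (G : E N → ℝ) (f : T N → ℝ) (x : T N) :
    lap G f x = (∑ i, G (x, i) * f (x + dr N i)) - Zs G x * f x := by
  unfold lap Zs
  rw [Finset.sum_mul, ← Finset.sum_sub_distrib]
  exact Finset.sum_congr rfl fun i _ => by ring

theorem lap_add (G : E N → ℝ) (f g : T N → ℝ) (x : T N) :
    lap G (fun z => f z + g z) x = lap G f x + lap G g x := by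
  unfold lap; rw [← Finset.sum_add_distrib]; exact Finset.sum_congr rfl fun i _ => by ring

theorem lap_sub (G : E N → ℝ) (f g : T N → ℝ) (x : T N) :
    lap G (fun z => f z - g z) x = lap G f x - lap G g x := by
  unfold lap; rw [← Finset.sum_sub_distrib]; exact Finset.sum_congr rfl fun i _ => by ring

theorem lap_mul (G : E N → ℝ) (c : ℝ) (f : T N → ℝ) (x : T N) :
    lap G (fun z => c * f z) x = c * lap G f x := by
  unfold lap; rw [Finset.mul_sum]; exact Finset.sum_congr rfl fun i _ => by ring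

theorem lap_const (G : E N → ℝ) (c : ℝ) (x : T N) : lap G (fun _ => c) x = 0 := by
  unfold lap; simp

theorem lap_sum {ι : Type*} (s : Finset ι) (G : E N → ℝ) (f : ι → T N → ℝ) (x : T N) :
    lap G (fun z => ∑ k ∈ s, f k z) x = ∑ k ∈ s, lap G (f k) x := by
  unfold lap
  rw [Finset.sum_comm]
  exact Finset.sum_congr rfl fun i _ => by rw [← Finset.sum_sub_distrib, Finset.mul_sum]

/-! fluxes -/

theorem ind_nonneg (S : Finset (T N)) (x : T N) : 0 ≤ ind S x := by
  unfold ind; split_ifs <;> norm_num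

theorem ind_le_one (S : Finset (T N)) (x : T N) : ind S x ≤ 1 := by
  unfold ind; split_ifs <;> norm_num

theorem ind_of_mem {S : Finset (T N)} {x : T N} (h : x ∈ S) : ind S x = 1 := if_pos h

theorem ind_of_notMem {S : Finset (T N)} {x : T N} (h : x ∉ S) : ind S x = 0 := if_neg h

theorem ind_eq_sum (S : Finset (T N)) (x : T N) : ind S x = ∑ y ∈ S, ind {y} x := by
  unfold ind; simp

theorem mem_SE {I : Finset (T N)} {i : Fin 4} {e : E N} : e ∈ SE I i ↔ e.1 ∈ I ∧ e.2 = i := by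
  unfold SE; rw [Finset.mem_product, mem_singleton]

theorem mem_outE {W : Finset (T N)} {e : E N} : e ∈ outE W ↔ e.1 ∈ W := by
  simp [outE, Finset.mem_product]

theorem sum_SE (I : Finset (T N)) (i : Fin 4) (φ : E N → ℝ) :
    ∑ e ∈ SE I i, φ e = ∑ y ∈ I, φ (y, i) := by
  unfold SE; rw [Finset.sum_product]; simp

theorem sum_outE (W : Finset (T N)) (φ : E N → ℝ) :
    ∑ e ∈ outE W, φ e = ∑ y ∈ W, ∑ i, φ (y, i) := by
  unfold outE; rw [Finset.sum_product]

theorem Fx_SE (G : E N → ℝ) (I : Finset (T N)) (i : Fin 4) (g : T N → ℝ) :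
    Fx G (SE I i) g = ∑ y ∈ I, G (y, i) * g (y + dr N i) := by
  unfold Fx; rw [sum_SE]; rfl

theorem Fx_mono {G : E N → ℝ} (hG : Pos G) {S : Finset (E N)} {g g' : T N → ℝ}
    (h : ∀ e ∈ S, g (tg e) ≤ g' (tg e)) : Fx G S g ≤ Fx G S g' :=
  Finset.sum_le_sum fun e he => mul_le_mul_of_nonneg_left (h e he) (hG e).le

theorem Fx_congr (G : E N → ℝ) {S : Finset (E N)} {g g' : T N → ℝ}
    (h : ∀ e ∈ S, g (tg e) = g' (tg e)) : Fx G S g = Fx G S g' :=
  Finset.sum_congr rfl fun e he => by rw [h e he]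

theorem Fx_nonneg {G : E N → ℝ} (hG : Pos G) {S : Finset (E N)} {g : T N → ℝ}
    (h : ∀ e ∈ S, 0 ≤ g (tg e)) : 0 ≤ Fx G S g :=
  Finset.sum_nonneg fun e he => mul_nonneg (hG e).le (h e he)

theorem Fx_le_sum {G : E N → ℝ} (hG : Pos G) {S : Finset (E N)} {g : T N → ℝ}
    (h : ∀ e ∈ S, g (tg e) ≤ 1) : Fx G S g ≤ ∑ e ∈ S, G e :=
  Finset.sum_le_sum fun e he => mul_le_of_le_one_right (hG e).le (h e he)

theorem Fx_subset {G : E N → ℝ} (hG : Pos G) {S S' : Finset (E N)} (hS : S ⊆ S') {g : T N → ℝ}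
    (h : ∀ e ∈ S', 0 ≤ g (tg e)) : Fx G S g ≤ Fx G S' g :=
  Finset.sum_le_sum_of_subset_of_nonneg hS fun e he _ => mul_nonneg (hG e).le (h e he)

theorem Fx_add (G : E N → ℝ) (S : Finset (E N)) (g g' : T N → ℝ) :
    Fx G S (fun z => g z + g' z) = Fx G S g + Fx G S g' := by
  unfold Fx; rw [← Finset.sum_add_distrib]; exact Finset.sum_congr rfl fun e _ => by ring

theorem Fx_sub (G : E N → ℝ) (S : Finset (E N)) (g g' : T N → ℝ) :
    Fx G S (fun z => g z - g' z) = Fx G S g - Fx G S g' := by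
  unfold Fx; rw [← Finset.sum_sub_distrib]; exact Finset.sum_congr rfl fun e _ => by ring

theorem Fx_mul (G : E N → ℝ) (S : Finset (E N)) (c : ℝ) (g : T N → ℝ) :
    Fx G S (fun z => c * g z) = c * Fx G S g := by
  unfold Fx; rw [Finset.mul_sum]; exact Finset.sum_congr rfl fun e _ => by ring

theorem Fx_sum {ι : Type*} (s : Finset ι) (G : E N → ℝ) (S : Finset (E N)) (g : ι → T N → ℝ) :
    Fx G S (fun z => ∑ k ∈ s, g k z) = ∑ k ∈ s, Fx G S (g k) := by
  unfold Fx; rw [Finset.sum_comm]; exact Finset.sum_congr rfl fun e _ => by rw [Finset.mul_sum]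

theorem Fx_union (G : E N → ℝ) {S S' : Finset (E N)} (h : Disjoint S S') (g : T N → ℝ) :
    Fx G (S ∪ S') g = Fx G S g + Fx G S' g := Finset.sum_union h

theorem measurable_Fx (S : Finset (E N)) {g : (E N → ℝ) → T N → ℝ}
    (hg : ∀ x, Measurable fun G => g G x) : Measurable fun G => Fx G S (g G) :=
  Finset.measurable_sum _ fun e _ => (measurable_pi_apply e).mul (hg _)

/-! divergence -/

theorem sum_ite_src [NeZero N] (A : Finset (E N)) (β : E N → ℝ) (z : T N) :
    (∑ e ∈ A, if e.1 = z then β e else 0) = ∑ i, if (z, i) ∈ A then β (z, i) else 0 := by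
  rw [← Finset.sum_filter, ← Finset.sum_filter]
  refine Finset.sum_bij' (fun e _ => e.2) (fun i _ => (z, i)) ?_ ?_ ?_ ?_ ?_
  · rintro ⟨x, i⟩ h; simp only [mem_filter] at h; obtain ⟨h1, rfl⟩ := h; simpa using h1
  · intro i h; simp only [mem_filter] at h; simp [h.2]
  · rintro ⟨x, i⟩ h; simp only [mem_filter] at h; obtain ⟨h1, rfl⟩ := h; rfl
  · intro i _; rfl
  · rintro ⟨x, i⟩ h; simp only [mem_filter] at h; obtain ⟨h1, rfl⟩ := h; rfl

theorem sum_ite_tg [NeZero N] (A : Finset (E N)) (β : E N → ℝ) (z : T N) :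
    (∑ e ∈ A, if tg e = z then β e else 0) =
      ∑ i, if (z - dr N i, i) ∈ A then β (z - dr N i, i) else 0 := by
  rw [← Finset.sum_filter, ← Finset.sum_filter]
  refine Finset.sum_bij' (fun e _ => e.2) (fun i _ => (z - dr N i, i)) ?_ ?_ ?_ ?_ ?_
  · rintro ⟨x, i⟩ h; obtain ⟨h1, rfl⟩ := mem_filter.mp h
    exact mem_filter.mpr ⟨mem_univ _, by simpa [tg] using h1⟩
  · intro i h; exact mem_filter.mpr ⟨(mem_filter.mp h).2, by simp [tg]⟩
  · rintro ⟨x, i⟩ h; obtain ⟨h1, rfl⟩ := mem_filter.mp h; simp [tg]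
  · intro i _; rfl
  · rintro ⟨x, i⟩ h; obtain ⟨h1, rfl⟩ := mem_filter.mp h; simp [tg]

theorem dvA_eq [NeZero N] (A : Finset (E N)) (β : E N → ℝ) (z : T N) :
    dvA A β z = ∑ i, ((if (z - dr N i, i) ∈ A then β (z - dr N i, i) else 0)
      - if (z, i) ∈ A then β (z, i) else 0) := by
  unfold dvA; rw [sum_ite_src, sum_ite_tg, Finset.sum_sub_distrib]

theorem dvA_le_dv [NeZero N] {A : Finset (E N)} {β : E N → ℝ} (hβ : ∀ e, 0 ≤ β e) {z : T N}
    (h : ∀ i, (z, i) ∈ A) : dvA A β z ≤ dv β z := by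
  rw [dvA_eq]; unfold dv inw Zs
  rw [← Finset.sum_sub_distrib]
  refine Finset.sum_le_sum fun i _ => ?_
  rw [if_pos (h i)]
  have := hβ (z - dr N i, i)
  split_ifs <;> linarith

theorem dvA_le_inw [NeZero N] (A : Finset (E N)) {β : E N → ℝ} (hβ : ∀ e, 0 ≤ β e) (z : T N) :
    dvA A β z ≤ inw β z := by
  rw [dvA_eq]; unfold inw
  refine Finset.sum_le_sum fun i _ => ?_
  have := hβ (z - dr N i, i)
  have := hβ (z, i)
  split_ifs <;> linarith

theorem dvA_eq_dv [NeZero N] {A : Finset (E N)} (β : E N → ℝ) {z : T N}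
    (h : ∀ i, (z, i) ∈ A) (h' : ∀ i, (z - dr N i, i) ∈ A) : dvA A β z = dv β z := by
  rw [dvA_eq]; unfold dv inw Zs
  rw [← Finset.sum_sub_distrib]
  exact Finset.sum_congr rfl fun i _ => by rw [if_pos (h i), if_pos (h' i)]

theorem inw_al (α : Fin 4 → ℝ) (z : T N) : inw (al N α) z = ∑ i, α i := rfl

theorem Zs_al (α : Fin 4 → ℝ) (z : T N) : Zs (al N α) z = ∑ i, α i := rfl

theorem dv_al (α : Fin 4 → ℝ) (z : T N) : dv (al N α) z = 0 := sub_self _

theorem dv_add (β θ : E N → ℝ) (z : T N) : dv (β + θ) z = dv β z + dv θ z := by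
  unfold dv inw Zs; simp only [Pi.add_apply, Finset.sum_add_distrib]; ring

theorem dv_mul (c : ℝ) (θ : E N → ℝ) (z : T N) : dv (fun e => c * θ e) z = c * dv θ z := by
  unfold dv inw Zs; rw [mul_sub, Finset.mul_sum, Finset.mul_sum]

theorem dv_sum {ι : Type*} (s : Finset ι) (θ : ι → E N → ℝ) (z : T N) :
    dv (fun e => ∑ k ∈ s, θ k e) z = ∑ k ∈ s, dv (θ k) z := by
  unfold dv inw Zs
  rw [Finset.sum_sub_distrib, Finset.sum_comm, Finset.sum_comm (s := univ)]

theorem dv_single (e : E N) (c : ℝ) (z : T N) :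
    dv (fun e' => if e' = e then c else 0) z = c * (ind {tg e} z - ind {e.1} z) := by
  obtain ⟨x, j⟩ := e
  unfold dv inw Zs ind tg
  simp only [Prod.mk.injEq, mem_singleton, sub_eq_iff_eq_add]
  have h1 : (∑ i, if z = x + dr N i ∧ i = j then c else 0) = if z = x + dr N j then c else 0 := by
    rw [Finset.sum_eq_single j] <;> simp +contextual
  have h2 : (∑ i : Fin 4, if z = x ∧ i = j then c else 0) = if z = x then c else 0 := by
    rw [Finset.sum_eq_single j] <;> simp +contextual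
  rw [h1, h2]
  split_ifs <;> ring

theorem dv_bump (β : E N → ℝ) (e : E N) (z : T N) :
    dv (bump β e) z = dv β z + ind {tg e} z - ind {e.1} z := by
  have : bump β e = β + fun e' => if e' = e then (1 : ℝ) else 0 := rfl
  rw [this, dv_add, dv_single]; ring

/-! columns and rows -/

theorem dr0 : dr N 0 = (1, 0) := rfl
theorem dr1 : dr N 1 = (0, 1) := rfl
theorem dr2 : dr N 2 = (-1, 0) := rfl
theorem dr3 : dr N 3 = (0, -1) := rfl

theorem cz_dir (i : Fin 4) : cz N (dir i).1 (dir i).2 = dr N i := by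
  fin_cases i <;> simp [cz, dir, dr]

theorem cz_add (a b c d : ℤ) : cz N (a + c) (b + d) = cz N a b + cz N c d := by
  simp [cz]

theorem val_add_one [NeZero N] {a : ZMod N} (h : a.val + 1 < N) : (a + 1).val = a.val + 1 := by
  have : a + 1 = ((a.val + 1 : ℕ) : ZMod N) := by simp
  rw [this, ZMod.val_cast_of_lt h]

theorem val_sub_one [NeZero N] {a : ZMod N} (h : 1 ≤ a.val) : (a - 1).val = a.val - 1 := by
  have h1 : a - 1 = ((a.val - 1 : ℕ) : ZMod N) := by rw [Nat.cast_sub h]; simp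
  rw [h1, ZMod.val_cast_of_lt (lt_of_le_of_lt (Nat.sub_le _ _) (ZMod.val_lt a))]

theorem add_one_eq_zero [NeZero N] {a : ZMod N} (h : ¬ a.val + 1 < N) : a + 1 = 0 := by
  have h1 : a.val + 1 = N := le_antisymm (ZMod.val_lt a) (not_lt.mp h)
  have : a + 1 = ((a.val + 1 : ℕ) : ZMod N) := by simp
  rw [this, h1]; simp

theorem val_neg_one' [NeZero N] : (-1 : ZMod N).val = N - 1 := by
  obtain ⟨n, rfl⟩ := Nat.exists_eq_succ_of_ne_zero (NeZero.ne N)
  exact ZMod.val_neg_one n

theorem col_lt [NeZero N] (x : T N) : col x < N := ZMod.val_lt _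

theorem col_add0 [NeZero N] {x : T N} (h : col x + 1 < N) : col (x + dr N 0) = col x + 1 := by
  simpa [col, dr0] using val_add_one h

theorem col_add2 [NeZero N] {x : T N} (h : 1 ≤ col x) : col (x + dr N 2) = col x - 1 := by
  have := val_sub_one (a := x.1) h
  simpa [col, dr2, sub_eq_add_neg] using this

theorem col_add1 (x : T N) : col (x + dr N 1) = col x := by simp [col, dr1]

theorem col_add3 (x : T N) : col (x + dr N 3) = col x := by simp [col, dr3]

theorem sub_dr0 (x : T N) : x - dr N 0 = x + dr N 2 := by simp [dr0, dr2, sub_eq_add_neg]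
theorem sub_dr1 (x : T N) : x - dr N 1 = x + dr N 3 := by simp [dr1, dr3, sub_eq_add_neg]
theorem sub_dr2 (x : T N) : x - dr N 2 = x + dr N 0 := by simp [dr0, dr2, sub_eq_add_neg]
theorem sub_dr3 (x : T N) : x - dr N 3 = x + dr N 1 := by simp [dr1, dr3, sub_eq_add_neg]

theorem col_add0_wrap [NeZero N] {x : T N} (h : ¬ col x + 1 < N) : col (x + dr N 0) = 0 := by
  have := add_one_eq_zero (a := x.1) h
  simp [col, dr0, this]

theorem col_add2_wrap [NeZero N] {x : T N} (h : col x = 0) : col (x + dr N 2) = N - 1 := by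
  have h0 : x.1 = 0 := (ZMod.val_eq_zero _).mp h
  simp [col, dr2, h0, val_neg_one']

theorem row_add0 (x : T N) : (x + dr N 0).2 = x.2 := by simp [dr0]
theorem row_add1 (x : T N) : (x + dr N 1).2 = x.2 + 1 := by simp [dr1]
theorem row_add2 (x : T N) : (x + dr N 2).2 = x.2 := by simp [dr2]
theorem row_add3 (x : T N) : (x + dr N 3).2 = x.2 - 1 := by simp [dr3, sub_eq_add_neg]

/-- the columns of the four neighbours of a site away from the two extreme columns -/
theorem col_nbr [NeZero N] {x : T N} (h0 : 1 ≤ col x) (h1 : col x + 1 < N) (i : Fin 4) :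
    (i = 0 ∧ col (x + dr N i) = col x + 1) ∨ (i = 2 ∧ col (x + dr N i) + 1 = col x) ∨
      ((i = 1 ∨ i = 3) ∧ col (x + dr N i) = col x) := by
  fin_cases i
  · exact Or.inl ⟨rfl, col_add0 h1⟩
  · exact Or.inr (Or.inr ⟨Or.inl rfl, col_add1 x⟩)
  · refine Or.inr (Or.inl ⟨rfl, ?_⟩)
    have := col_add2 h0
    change col (x + dr N 2) + 1 = col x
    omega
  · exact Or.inr (Or.inr ⟨Or.inr rfl, col_add3 x⟩)

theorem col_nbr_sub [NeZero N] {x : T N} (h0 : 1 ≤ col x) (h1 : col x + 1 < N) (i : Fin 4) :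
    (i = 0 ∧ col (x - dr N i) + 1 = col x) ∨ (i = 2 ∧ col (x - dr N i) = col x + 1) ∨
      ((i = 1 ∨ i = 3) ∧ col (x - dr N i) = col x) := by
  fin_cases i
  · refine Or.inl ⟨rfl, ?_⟩
    have := col_add2 h0
    change col (x - dr N 0) + 1 = col x
    rw [sub_dr0]; omega
  · refine Or.inr (Or.inr ⟨Or.inl rfl, ?_⟩)
    change col (x - dr N 1) = col x
    rw [sub_dr1, col_add3]
  · refine Or.inr (Or.inl ⟨rfl, ?_⟩)
    change col (x - dr N 2) = col x + 1
    rw [sub_dr2, col_add0 h1]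
  · refine Or.inr (Or.inr ⟨Or.inr rfl, ?_⟩)
    change col (x - dr N 3) = col x
    rw [sub_dr3, col_add1]

theorem col_add_cz [NeZero N] (x : T N) (a : ℕ) (b : ℤ) (h : col x + a < N) :
    col (x + cz N a b) = col x + a := by
  have : x.1 + ((a : ℤ) : ZMod N) = ((x.1.val + a : ℕ) : ZMod N) := by simp
  unfold col cz at *
  simp only [Prod.fst_add]
  rw [this, ZMod.val_cast_of_lt h]

theorem col_mk [NeZero N] {c : ℕ} (hc : c < N) (y : ZMod N) : col (((c : ZMod N), y) : T N) = c :=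
  ZMod.val_cast_of_lt hc

section sets
variable [NeZero N]

theorem mem_Wd {s t : ℕ} {x : T N} : x ∈ Wd N s t ↔ s < col x ∧ col x < t := by simp [Wd]
theorem mem_Col {c : ℕ} {x : T N} : x ∈ Col N c ↔ col x = c := by simp [Col]
theorem mem_Cols {s t : ℕ} {x : T N} : x ∈ Cols N s t ↔ s ≤ col x ∧ col x ≤ t := by simp [Cols]
theorem mem_Win {c l : ℕ} {p : ZMod N} {x : T N} :
    x ∈ Win N c p l ↔ col x = c ∧ (x.2 - p).val < l := by simp [Win]
theorem mem_Box {s t l : ℕ} {p : ZMod N} {x : T N} :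
    x ∈ Box N s t p l ↔ s < col x ∧ col x < t ∧ (x.2 - p).val < l := by simp [Box]
theorem mem_Sep {s t l : ℕ} {p : ZMod N} {x : T N} : x ∈ Sep s t p l ↔
    (s < col x ∧ col x < t) ∧ (x.2 = p - 1 ∨ x.2 = p + (l : ZMod N)) := by simp [Sep, Wd]
theorem mem_Src {s t : ℕ} {e : E N} :
    e ∈ Src N s t ↔ (col e.1 = s ∧ e.2 = 0) ∨ (col e.1 = t ∧ e.2 = 2) := by
  simp [Src, mem_SE, mem_Col]

theorem ne_univ_of_subset {W : Finset (T N)} {s t : ℕ} (h : W ⊆ Wd N s t) : W ≠ univ := by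
  intro hW
  have := h (hW ▸ mem_univ (0 : T N))
  rw [mem_Wd] at this
  simp [col] at this

theorem Wd_ne_univ (s t : ℕ) : Wd N s t ≠ univ := ne_univ_of_subset Subset.rfl

theorem Wd_sdiff_ne_univ (s t : ℕ) (S : Finset (T N)) : Wd N s t \ S ≠ univ :=
  ne_univ_of_subset sdiff_subset

theorem Box_subset (s t l : ℕ) (p : ZMod N) : Box N s t p l ⊆ Wd N s t := fun x hx => by
  rw [mem_Box] at hx; rw [mem_Wd]; exact ⟨hx.1, hx.2.1⟩

theorem Win_subset (c l : ℕ) (p : ZMod N) : Win N c p l ⊆ Col N c := fun x hx => by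
  rw [mem_Win] at hx; rw [mem_Col]; exact hx.1

theorem Fx_Src (G : E N → ℝ) (s t : ℕ) (g : T N → ℝ) :
    Fx G (Src N s t) g = Fx G (SE (Col N s) 0) g + Fx G (SE (Col N t) 2) g := by
  refine Fx_union G (Finset.disjoint_left.mpr fun e h1 h2 => ?_) g
  rw [mem_SE] at h1 h2
  have := h1.2.symm.trans h2.2
  exact absurd this (by decide)

theorem sum_Col {M : Type*} [AddCommMonoid M] {c : ℕ} (hc : c < N) (φ : T N → M) :
    ∑ x ∈ Col N c, φ x = ∑ y : ZMod N, φ ((c : ZMod N), y) := by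
  refine Finset.sum_bij' (fun x _ => x.2) (fun y _ => ((c : ZMod N), y)) ?_ ?_ ?_ ?_ ?_
  · intro x _; exact mem_univ _
  · intro y _; rw [mem_Col]; exact col_mk hc y
  · intro x hx; rw [mem_Col] at hx; ext
    · simp [← hx, col]
    · rfl
  · intro y _; rfl
  · intro x hx; rw [mem_Col] at hx; congr 1; ext
    · simp [← hx, col]
    · rfl

theorem card_Col {c : ℕ} (hc : c < N) : (Col N c).card = N := by
  rw [Finset.card_eq_sum_ones, sum_Col hc]; simp

theorem sum_Win {M : Type*} [AddCommMonoid M] {c l : ℕ} (hc : c < N) (hl : l ≤ N) (p : ZMod N)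
    (φ : T N → M) :
    ∑ x ∈ Win N c p l, φ x = ∑ k ∈ range l, φ ((c : ZMod N), p + (k : ZMod N)) := by
  refine Finset.sum_bij' (fun x _ => (x.2 - p).val) (fun k _ => ((c : ZMod N), p + (k : ZMod N)))
    ?_ ?_ ?_ ?_ ?_
  · intro x hx; rw [mem_Win] at hx; exact mem_range.mpr hx.2
  · intro k hk; rw [mem_range] at hk; rw [mem_Win]
    refine ⟨col_mk hc _, ?_⟩
    simp only [add_sub_cancel_left]
    rwa [ZMod.val_cast_of_lt (lt_of_lt_of_le hk hl)]
  · intro x hx; rw [mem_Win] at hx; ext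
    · simp [← hx.1, col]
    · simp
  · intro k hk; rw [mem_range] at hk
    simp only [add_sub_cancel_left]
    exact ZMod.val_cast_of_lt (lt_of_lt_of_le hk hl)
  · intro x hx; rw [mem_Win] at hx; congr 1; ext
    · simp [← hx.1, col]
    · simp

theorem card_Win {c l : ℕ} (hc : c < N) (hl : l ≤ N) (p : ZMod N) : (Win N c p l).card = l := by
  rw [Finset.card_eq_sum_ones, sum_Win hc hl]; simp

theorem sum_sum_Win {M : Type*} [AddCommMonoid M] {c l : ℕ} (hc : c < N) (hl : l ≤ N)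
    (φ : T N → M) :
    ∑ p : ZMod N, ∑ x ∈ Win N c p l, φ x = l • ∑ x ∈ Col N c, φ x := by
  simp only [sum_Win hc hl, sum_Col hc]
  rw [Finset.sum_comm]
  have : ∀ k ∈ range l, ∑ p : ZMod N, φ ((c : ZMod N), p + (k : ZMod N)) =
      ∑ y : ZMod N, φ ((c : ZMod N), y) := fun k _ =>
    Equiv.sum_comp (Equiv.addRight (k : ZMod N)) fun y => φ ((c : ZMod N), y)
  rw [Finset.sum_congr rfl this, Finset.sum_const, card_range]

theorem sum_Cols {M : Type*} [AddCommMonoid M] (s t : ℕ) (φ : T N → M) :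
    ∑ x ∈ Cols N s t, φ x = ∑ r ∈ Finset.Icc s t, ∑ x ∈ Col N r, φ x := by
  rw [← Finset.sum_fiberwise_of_maps_to (s := Cols N s t) (t := Finset.Icc s t) (g := col)
    (fun x hx => by rw [mem_Cols] at hx; exact mem_Icc.mpr hx)]
  refine Finset.sum_congr rfl fun r hr => Finset.sum_congr ?_ fun _ _ => rfl
  rw [mem_Icc] at hr
  ext x; simp only [mem_filter, mem_Cols, mem_Col]; omega

theorem card_Wd {s t : ℕ} (ht : t ≤ N) : (Wd N s t).card = (t - s - 1) * N := by
  have h : Wd N s t = Cols N (s + 1) (t - 1) := by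
    ext x; rw [mem_Wd, mem_Cols]; omega
  rw [h, Finset.card_eq_sum_ones, sum_Cols]
  have : ∀ r ∈ Finset.Icc (s + 1) (t - 1), ∑ x ∈ Col N r, 1 = N := fun r hr => by
    rw [mem_Icc] at hr
    rw [← Finset.card_eq_sum_ones, card_Col (by omega)]
  rw [Finset.sum_congr rfl this, Finset.sum_const, Nat.card_Icc, smul_eq_mul]
  congr 1; omega

/-- at most `2 * w` sites of a strip of width `w` lie on two given rows -/
theorem card_two_rows (s w : ℕ) (a b : ZMod N) :
    ((Wd N s (s + w)).filter fun x => x.2 = a ∨ x.2 = b).card ≤ 2 * w := by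
  have h : ∀ c : ZMod N, ((Wd N s (s + w)).filter fun x => x.2 = c).card ≤ w := by
    intro c
    have : ((Wd N s (s + w)).filter fun x => x.2 = c).card ≤ (Finset.Ioo s (s + w)).card := by
      refine Finset.card_le_card_of_injOn col ?_ ?_
      · intro x hx
        simp only [coe_filter, Set.mem_ofPred_eq, mem_Wd] at hx
        simpa using hx.1
      · intro x hx y hy hxy
        simp only [coe_filter, Set.mem_ofPred_eq] at hx hy
        ext
        · exact ZMod.val_injective _ hxy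
        · rw [hx.2, hy.2]
    rw [Nat.card_Ioo] at this
    omega
  rw [Finset.filter_or]
  exact (Finset.card_union_le _ _).trans (by have := h a; have := h b; omega)

theorem dvA_Src_in {s t : ℕ} (ht : t < N) (β : E N → ℝ) {z : T N} (hz : z ∈ Wd N s t) :
    dvA (outE (Wd N s t) ∪ Src N s t) β z = dv β z := by
  refine dvA_eq_dv β (fun i => mem_union_left _ (mem_outE.mpr hz)) fun i => ?_
  rw [mem_Wd] at hz
  rw [mem_union, mem_outE, mem_Wd, mem_Src]
  rcases col_nbr_sub (x := z) (by omega) (by omega) i with h | h | h <;> simp only <;> omega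

theorem dvA_Src_left {s t : ℕ} (hst : s < t) (ht : t < N) (α : Fin 4 → ℝ) {z : T N}
    (hz : z ∈ Col N s) : dvA (outE (Wd N s t) ∪ Src N s t) (al N α) z = α 2 - α 0 := by
  rw [mem_Col] at hz
  have h0 : col (z - dr N 0) + 1 = s ∨ col (z - dr N 0) = N - 1 := by
    rw [sub_dr0]
    by_cases h : col z = 0
    · exact Or.inr (col_add2_wrap h)
    · left; have := col_add2 (x := z) (by omega); omega
  have h1 : col (z - dr N 1) = s := by rw [sub_dr1, col_add3, hz]
  have h2 : col (z - dr N 2) = s + 1 := by rw [sub_dr2, col_add0 (by omega), hz]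
  have h3 : col (z - dr N 3) = s := by rw [sub_dr3, col_add1, hz]
  rw [dvA_eq, Fin.sum_univ_four]
  have key : ∀ (x : T N) (i : Fin 4), (x, i) ∈ outE (Wd N s t) ∪ Src N s t ↔
      (s < col x ∧ col x < t) ∨ (col x = s ∧ i.val = 0) ∨ (col x = t ∧ i.val = 2) := by
    intro x i
    simp only [mem_union, mem_outE, mem_Wd, mem_Src, Fin.ext_iff]; rfl
  rw [if_neg ((key _ 0).not.mpr (by have : (0 : Fin 4).val = 0 := rfl; omega)),
    if_pos ((key _ 0).mpr (by have : (0 : Fin 4).val = 0 := rfl; omega)),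
    if_neg ((key _ 1).not.mpr (by have : (1 : Fin 4).val = 1 := rfl; omega)),
    if_neg ((key _ 1).not.mpr (by have : (1 : Fin 4).val = 1 := rfl; omega)),
    if_pos ((key _ 2).mpr (by have : (2 : Fin 4).val = 2 := rfl; omega)),
    if_neg ((key _ 2).not.mpr (by have : (2 : Fin 4).val = 2 := rfl; omega)),
    if_neg ((key _ 3).not.mpr (by have : (3 : Fin 4).val = 3 := rfl; omega)),
    if_neg ((key _ 3).not.mpr (by have : (3 : Fin 4).val = 3 := rfl; omega))]
  simp only [al]; ring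

theorem dvA_Src_right {s t : ℕ} (hst : s < t) (_ht : t < N) (α : Fin 4 → ℝ) {z : T N}
    (hz : z ∈ Col N t) : dvA (outE (Wd N s t) ∪ Src N s t) (al N α) z = α 0 - α 2 := by
  rw [mem_Col] at hz
  have h0 : col (z - dr N 0) + 1 = t := by
    rw [sub_dr0]; have := col_add2 (x := z) (by omega); omega
  have h1 : col (z - dr N 1) = t := by rw [sub_dr1, col_add3, hz]
  have h2 : col (z - dr N 2) = t + 1 ∨ col (z - dr N 2) = 0 := by
    rw [sub_dr2]
    by_cases h : col z + 1 < N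
    · left; rw [col_add0 h, hz]
    · exact Or.inr (col_add0_wrap h)
  have h3 : col (z - dr N 3) = t := by rw [sub_dr3, col_add1, hz]
  rw [dvA_eq, Fin.sum_univ_four]
  have key : ∀ (x : T N) (i : Fin 4), (x, i) ∈ outE (Wd N s t) ∪ Src N s t ↔
      (s < col x ∧ col x < t) ∨ (col x = s ∧ i.val = 0) ∨ (col x = t ∧ i.val = 2) := by
    intro x i
    simp only [mem_union, mem_outE, mem_Wd, mem_Src, Fin.ext_iff]; rfl
  rw [if_pos ((key _ 0).mpr (by have : (0 : Fin 4).val = 0 := rfl; omega)),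
    if_neg ((key _ 0).not.mpr (by have : (0 : Fin 4).val = 0 := rfl; omega)),
    if_neg ((key _ 1).not.mpr (by have : (1 : Fin 4).val = 1 := rfl; omega)),
    if_neg ((key _ 1).not.mpr (by have : (1 : Fin 4).val = 1 := rfl; omega)),
    if_neg ((key _ 2).not.mpr (by have : (2 : Fin 4).val = 2 := rfl; omega)),
    if_pos ((key _ 2).mpr (by have : (2 : Fin 4).val = 2 := rfl; omega)),
    if_neg ((key _ 3).not.mpr (by have : (3 : Fin 4).val = 3 := rfl; omega)),
    if_neg ((key _ 3).not.mpr (by have : (3 : Fin 4).val = 3 := rfl; omega))]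
  simp only [al]; ring

end sets

end DRW
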