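import Pool.Agent.P.MP_de05b4_pr.Defs2
import Pool.Agent.P.MP_de05b4_pr.R.Erg

/-! Elementary facts on shifts, the one step operator and the accelerating function. -/

namespace DRW

open MeasureTheory ProbabilityTheory Finset Filter
open scoped ENNReal Topology

theorem shift_shift (x y : ℤ × ℤ) (ω : Env) : shift x (shift y ω) = shift (y + x) ω := by
  funext z; simp [shift, add_assoc]

theorem shift_zero (ω : Env) : shift 0 ω = ω := by
  funext z; simp [shift]

theorem shift_apply (x y : ℤ × ℤ) (ω : Env) : shift x ω y = ω (x + y) := rfl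

theorem shift_apply_zero (x : ℤ × ℤ) (ω : Env) : shift x ω 0 = ω x := by simp [shift]

theorem Good.shift {ω : Env} (h : Good ω) (x : ℤ × ℤ) : Good (shift x ω) := fun y => h (x + y)

theorem Good.pos {ω : Env} (h : Good ω) (x : ℤ × ℤ) (i : Fin 4) : 0 < ω x i := (h x).1 i

theorem Good.sum {ω : Env} (h : Good ω) (x : ℤ × ℤ) : ∑ i, ω x i = 1 := (h x).2

theorem Good.le_one {ω : Env} (h : Good ω) (x : ℤ × ℤ) (i : Fin 4) : ω x i ≤ 1 := by
  rw [← h.sum x]
  exact single_le_sum (fun j _ => (h.pos x j).le) (mem_univ i)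

theorem Good.sum_ofReal {ω : Env} (h : Good ω) (x : ℤ × ℤ) :
    ∑ i, ENNReal.ofReal (ω x i) = 1 := by
  rw [← ENNReal.ofReal_sum_of_nonneg fun i _ => (h.pos x i).le, h.sum, ENNReal.ofReal_one]

theorem measurable_coord (x : ℤ × ℤ) (i : Fin 4) : Measurable fun ω : Env => ω x i :=
  (measurable_pi_apply i).comp (measurable_pi_apply x)

theorem measurableSet_good : MeasurableSet {ω : Env | Good ω} := by
  have : {ω : Env | Good ω} = ⋂ x, ((⋂ i, {ω : Env | 0 < ω x i}) ∩ {ω | ∑ i, ω x i = 1}) := by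
    ext ω; simp [Good]
  rw [this]
  refine MeasurableSet.iInter fun x => (MeasurableSet.iInter fun i =>
    measurableSet_lt measurable_const (measurable_coord x i)).inter ?_
  exact measurableSet_eq_fun (Finset.measurable_sum _ fun i _ => measurable_coord x i)
    measurable_const

theorem ae_good {α : Fin 4 → ℝ} (hα : ∀ i, 0 < α i) : ∀ᵐ ω ∂law α, Good ω := by
  have := prob_dirichlet hα
  exact ae_all_iff.2 fun x =>
    (measurePreserving_eval_infinitePi (fun _ : ℤ × ℤ => dirichlet α) x).quasiMeasurePreserving.ae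
      (dirichlet_ae hα)

theorem mp_shift {α : Fin 4 → ℝ} (hα : ∀ i, 0 < α i) (x : ℤ × ℤ) :
    MeasurePreserving (shift x) (law α) (law α) := by
  have := prob_dirichlet hα
  exact (pf_Erg (dirichlet α)).1 x

theorem erg_shift {α : Fin 4 → ℝ} (hα : ∀ i, 0 < α i) : Ergodic (shift (dir 0)) (law α) := by
  have := prob_dirichlet hα
  exact (pf_Erg (dirichlet α)).2

theorem lintegral_shift {α : Fin 4 → ℝ} (hα : ∀ i, 0 < α i) (x : ℤ × ℤ) {φ : Env → ℝ≥0∞}
    (hφ : Measurable φ) : ∫⁻ ω, φ (shift x ω) ∂law α = ∫⁻ ω, φ ω ∂law α :=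
  (mp_shift hα x).lintegral_comp hφ

theorem ae_shift {α : Fin 4 → ℝ} (hα : ∀ i, 0 < α i) {p : Env → Prop}
    (h : ∀ᵐ ω ∂law α, p ω) : ∀ᵐ ω ∂law α, ∀ x, p (shift x ω) :=
  ae_all_iff.2 fun x => (mp_shift hα x).quasiMeasurePreserving.ae h

/-! the one step operators -/

theorem measurable_stepOp {φ : Env → ℝ≥0∞} (hφ : Measurable φ) : Measurable (stepOp φ) :=
  Finset.measurable_sum _ fun i _ =>
    (measurable_coord 0 i).ennreal_ofReal.mul (hφ.comp (measurable_shift _))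

theorem measurable_stepOp' {β : Type*} [MeasurableSpace β] {Φ : β → Env → ℝ≥0∞} {w : β → Env}
    (hΦ : Measurable fun p : β × Env => Φ p.1 p.2) (hw : Measurable w) :
    Measurable fun b => stepOp (Φ b) (w b) :=
  Finset.measurable_sum _ fun i _ =>
    ((measurable_coord 0 i).comp hw).ennreal_ofReal.mul
      (hΦ.comp (measurable_id.prodMk ((measurable_shift (dir i)).comp hw)))

theorem stepOp_mono {φ ψ : Env → ℝ≥0∞} {ω : Env}
    (h : ∀ i, φ (shift (dir i) ω) ≤ ψ (shift (dir i) ω)) : stepOp φ ω ≤ stepOp ψ ω :=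
  sum_le_sum fun i _ => mul_le_mul_right (h i) _

theorem stepOp_congr {φ ψ : Env → ℝ≥0∞} {ω : Env}
    (h : ∀ i, φ (shift (dir i) ω) = ψ (shift (dir i) ω)) : stepOp φ ω = stepOp ψ ω :=
  sum_congr rfl fun i _ => by rw [h i]

theorem stepOp_add (φ ψ : Env → ℝ≥0∞) (ω : Env) :
    stepOp (fun w => φ w + ψ w) ω = stepOp φ ω + stepOp ψ ω := by
  simp only [stepOp, mul_add, sum_add_distrib]

theorem stepOp_const_mul (c : ℝ≥0∞) (φ : Env → ℝ≥0∞) (ω : Env) :
    stepOp (fun w => c * φ w) ω = c * stepOp φ ω := by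
  simp only [stepOp, mul_sum, mul_left_comm]

theorem stepOp_const {ω : Env} (h : Good ω) (c : ℝ≥0∞) : stepOp (fun _ => c) ω = c := by
  simp only [stepOp, ← sum_mul, h.sum_ofReal, one_mul]

theorem stepOp_iSup {φ : ℕ → Env → ℝ≥0∞} (h : Monotone φ) (ω : Env) :
    stepOp (fun w => ⨆ k, φ k w) ω = ⨆ k, stepOp (φ k) ω := by
  simp only [stepOp, ENNReal.mul_iSup]
  exact ENNReal.finsetSum_iSup_of_monotone fun i a b hab => mul_le_mul_right (h hab _) _

theorem stepOp_tsum {ι : Type*} (φ : ι → Env → ℝ≥0∞) (ω : Env) :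
    stepOp (fun w => ∑' k, φ k w) ω = ∑' k, stepOp (φ k) ω := by
  simp only [stepOp, ← ENNReal.tsum_mul_left]
  exact (Summable.tsum_finsetSum fun _ _ => ENNReal.summable).symm

theorem stepOp_lintegral {β : Type*} [MeasurableSpace β] (μ : Measure β)
    {Φ : β → Env → ℝ≥0∞} (hΦ : ∀ w, Measurable fun b => Φ b w) (ω : Env) :
    stepOp (fun w => ∫⁻ b, Φ b w ∂μ) ω = ∫⁻ b, stepOp (Φ b) ω ∂μ := by
  simp only [stepOp]
  rw [lintegral_finsetSum _ fun i _ => (hΦ _).const_mul _]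
  exact sum_congr rfl fun i _ => (lintegral_const_mul _ (hΦ _)).symm

theorem stepOp_shift (φ : Env → ℝ≥0∞) (x : ℤ × ℤ) (ω : Env) :
    stepOp φ (shift x ω) = pOp ω (fun y => φ (shift y ω)) x := by
  simp only [stepOp, pOp, shift_shift, shift_apply_zero]

theorem pOp_mono (ω : Env) {F F' : ℤ × ℤ → ℝ≥0∞} {x : ℤ × ℤ}
    (h : ∀ i, F (x + dir i) ≤ F' (x + dir i)) : pOp ω F x ≤ pOp ω F' x :=
  sum_le_sum fun i _ => mul_le_mul_right (h i) _

theorem pOp_add (ω : Env) (F F' : ℤ × ℤ → ℝ≥0∞) (x : ℤ × ℤ) :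
    pOp ω (fun y => F y + F' y) x = pOp ω F x + pOp ω F' x := by
  simp only [pOp, mul_add, sum_add_distrib]

theorem pOp_const_mul (ω : Env) (c : ℝ≥0∞) (F : ℤ × ℤ → ℝ≥0∞) (x : ℤ × ℤ) :
    pOp ω (fun y => c * F y) x = c * pOp ω F x := by
  simp only [pOp, mul_sum, mul_left_comm]

theorem pOp_const {ω : Env} (h : Good ω) (c : ℝ≥0∞) (x : ℤ × ℤ) :
    pOp ω (fun _ => c) x = c := by
  simp only [pOp, ← sum_mul, h.sum_ofReal, one_mul]

theorem pOp_le {ω : Env} (h : Good ω) {F : ℤ × ℤ → ℝ≥0∞} {c : ℝ≥0∞} {x : ℤ × ℤ}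
    (hF : ∀ i, F (x + dir i) ≤ c) : pOp ω F x ≤ c :=
  (pOp_mono ω (F' := fun _ => c) hF).trans (pOp_const h c x).le

theorem pOp_iSup (ω : Env) {F : ℕ → ℤ × ℤ → ℝ≥0∞} (h : Monotone F) (x : ℤ × ℤ) :
    pOp ω (fun y => ⨆ k, F k y) x = ⨆ k, pOp ω (F k) x := by
  simp only [pOp, ENNReal.mul_iSup]
  exact ENNReal.finsetSum_iSup_of_monotone fun i a b hab => mul_le_mul_right (h hab _) _

theorem pOp_tsum {ι : Type*} (ω : Env) (F : ι → ℤ × ℤ → ℝ≥0∞) (x : ℤ × ℤ) :
    pOp ω (fun y => ∑' k, F k y) x = ∑' k, pOp ω (F k) x := by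
  simp only [pOp, ← ENNReal.tsum_mul_left]
  exact (Summable.tsum_finsetSum fun _ _ => ENNReal.summable).symm

theorem kk_le_one (ω : Env) (x : ℤ × ℤ) : kk ω x ≤ 1 := by
  unfold kk; split_ifs <;> simp

theorem kk_shift (z x : ℤ × ℤ) (ω : Env) : kk (shift z ω) x = kk ω (z + x) := rfl

/-- from sets to functions: two weighted additive functionals that agree on indicators -/
theorem inv_fun {Q : Measure Env} {g : Env → ℝ≥0∞} (hg : Measurable g)
    (h : ∀ A : Set Env, MeasurableSet A →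
      ∫⁻ ω, g ω * A.indicator 1 ω ∂Q = ∫⁻ ω, g ω * stepOp (A.indicator 1) ω ∂Q)
    {φ : Env → ℝ≥0∞} (hφ : Measurable φ) :
    ∫⁻ ω, g ω * φ ω ∂Q = ∫⁻ ω, g ω * stepOp φ ω ∂Q := by
  refine Measurable.ennreal_induction (motive := fun φ =>
    ∫⁻ ω, g ω * φ ω ∂Q = ∫⁻ ω, g ω * stepOp φ ω ∂Q) ?_ ?_ ?_ hφ
  · intro c A hA
    have e : (A.indicator fun _ => c) = fun ω => c * A.indicator (1 : Env → ℝ≥0∞) ω := by
      funext ω; by_cases hω : ω ∈ A <;> simp [hω]
    have hi : Measurable (A.indicator (1 : Env → ℝ≥0∞)) := measurable_one.indicator hA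
    rw [e]
    simp only [stepOp_const_mul, mul_left_comm (g _) c]
    rw [lintegral_const_mul _ (hg.fun_mul hi), lintegral_const_mul _ (hg.fun_mul (measurable_stepOp hi)),
      h A hA]
  · intro f₁ f₂ _ h₁ h₂ e₁ e₂
    have e : stepOp (f₁ + f₂) = fun ω => stepOp f₁ ω + stepOp f₂ ω :=
      funext fun ω => stepOp_add f₁ f₂ ω
    simp only [e, Pi.add_apply, mul_add]
    rw [lintegral_add_left (hg.fun_mul h₁), lintegral_add_left (hg.fun_mul (measurable_stepOp h₁)), e₁, e₂]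
  · intro f hf hm e
    have e' : stepOp (fun ω => ⨆ n, f n ω) = fun ω => ⨆ n, stepOp (f n) ω :=
      funext fun ω => stepOp_iSup hm ω
    simp only [e', ENNReal.mul_iSup]
    rw [lintegral_iSup (fun n => hg.fun_mul (hf n)) fun a b hab ω => mul_le_mul_right (hm hab ω) _,
      lintegral_iSup (fun n => hg.fun_mul (measurable_stepOp (hf n)))
        fun a b hab ω => mul_le_mul_right (stepOp_mono fun i => hm hab _) _]
    exact iSup_congr e

/-! the accelerating function -/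

theorem measurable_SR (R : ℕ) : Measurable (SR R) :=
  Finset.measurable_sum _ fun i _ => Finset.measurable_prod _ fun _ _ => measurable_coord _ i

theorem measurable_gamR (R : ℕ) : Measurable (gamR R) :=
  Measurable.ite (measurableSet_lt measurable_const (measurable_SR R)) (measurable_SR R).inv
    measurable_const

theorem gamR_pos (R : ℕ) (ω : Env) : 0 < gamR R ω := by
  unfold gamR; split_ifs with h
  · exact inv_pos.2 h
  · exact one_pos

theorem SR_pos (R : ℕ) {ω : Env} (h : ∀ x i, 0 < ω x i) : 0 < SR R ω :=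
  sum_pos (fun i _ => prod_pos fun _ _ => h _ i) univ_nonempty

theorem gamR_eq (R : ℕ) {ω : Env} (h : ∀ x i, 0 < ω x i) : gamR R ω = (SR R ω)⁻¹ :=
  if_pos (SR_pos R h)

theorem SR_local (R : ℕ) {ω ω' : Env}
    (h : ∀ w : ℤ × ℤ, |w.1| ≤ R → |w.2| ≤ R → ω w = ω' w) : SR R ω = SR R ω' := by
  refine sum_congr rfl fun i _ => prod_congr rfl fun k hk => ?_
  have hk' : (k : ℤ) ≤ R := by exact_mod_cast (mem_range.1 hk).le
  rw [h] <;> fin_cases i <;> simp [dir, hk']

theorem localAcc_gamR (R : ℕ) : LocalAcc (gamR R) :=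
  ⟨measurable_gamR R, gamR_pos R, R, fun ω ω' h => by unfold gamR; rw [SR_local R h]⟩

theorem measurable_nrmE : Measurable nrmE :=
  measurable_pi_lambda _ fun w => measurable_nrm.comp (measurable_pi_apply w)

theorem nrmE_shift (x : ℤ × ℤ) (g : Env) : nrmE (shift x g) = shift x (nrmE g) := rfl

theorem measurable_zed {γ : Env → ℝ} (hγ : Measurable γ) : ∀ m, Measurable (zed γ m)
  | 0 => measurable_const
  | m + 1 => (hγ.div (measurable_const.add hγ)).ennreal_ofReal.mul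
      (measurable_stepOp (measurable_zed hγ m))

/-! torus paths -/

theorem measurable_pathP {N : ℕ} (R : ℕ) (x : T N) (i : Fin 4) : Measurable (pathP R x i) :=
  Finset.measurable_prod _ fun _ _ => measurable_om _

theorem measurable_SRt {N : ℕ} (R : ℕ) (x : T N) : Measurable (SRt R x) :=
  Finset.measurable_sum _ fun i _ => measurable_pathP R x i

theorem pathP_pos {N : ℕ} {G : E N → ℝ} (hG : Pos G) (R : ℕ) (x : T N) (i : Fin 4) :
    0 < pathP R x i G := prod_pos fun _ _ => om_pos hG _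

theorem pathP_le_one {N : ℕ} {G : E N → ℝ} (hG : Pos G) (R : ℕ) (x : T N) (i : Fin 4) :
    pathP R x i G ≤ 1 := prod_le_one (fun _ _ => (om_pos hG _).le) fun _ _ => om_le_one hG _

theorem SRt_pos {N : ℕ} {G : E N → ℝ} (hG : Pos G) (R : ℕ) (x : T N) : 0 < SRt R x G :=
  sum_pos (fun i _ => pathP_pos hG R x i) univ_nonempty

theorem pathI_nonneg {N : ℕ} (R : ℕ) (x : T N) (i : Fin 4) (e : E N) : 0 ≤ pathI R x i e :=
  sum_nonneg fun _ _ => by split_ifs <;> norm_num

end DRW
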