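import Pool.Agent.P.MP_de05b4_pr.Env

/-! Finite torus model with independent Gamma weights, and the list of intermediate
statements of the proof. -/

namespace DRW

open MeasureTheory ProbabilityTheory Finset Filter
open scoped ENNReal Topology

abbrev T (N : ℕ) : Type := ZMod N × ZMod N
abbrev E (N : ℕ) : Type := T N × Fin 4

def dr (N : ℕ) : Fin 4 → T N := ![(1, 0), (0, 1), (-1, 0), (0, -1)]

section defs0
variable {N : ℕ}

/-- end point of an oriented edge -/
def tg (e : E N) : T N := e.1 + dr N e.2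
def Pos (G : E N → ℝ) : Prop := ∀ e, 0 < G e
def al (N : ℕ) (α : Fin 4 → ℝ) : E N → ℝ := fun e => α e.2
def ind (S : Finset (T N)) : T N → ℝ := fun x => if x ∈ S then 1 else 0
def lap (G : E N → ℝ) (f : T N → ℝ) (x : T N) : ℝ := ∑ i, G (x, i) * (f (x + dr N i) - f x)
def Zs (G : E N → ℝ) (x : T N) : ℝ := ∑ i, G (x, i)
noncomputable def om (G : E N → ℝ) (e : E N) : ℝ := G e / Zs G e.1
def scl (x : T N) (c : ℝ) (G : E N → ℝ) : E N → ℝ := fun e => if e.1 = x then c * G e else G e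
def ScaleInv (x : T N) (Φ : (E N → ℝ) → ℝ≥0∞) : Prop :=
  ∀ c : ℝ, 0 < c → ∀ G, Pos G → Φ (scl x c G) = Φ G
def bump (β : E N → ℝ) (e : E N) : E N → ℝ := fun e' => β e' + if e' = e then 1 else 0
/-- flux of the sources `S` weighted by `g` at the end points -/
def Fx (G : E N → ℝ) (S : Finset (E N)) (g : T N → ℝ) : ℝ := ∑ e ∈ S, G e * g (tg e)
def SE (I : Finset (T N)) (i : Fin 4) : Finset (E N) := I ×ˢ {i}
def outE (W : Finset (T N)) : Finset (E N) := W ×ˢ univ
def dvA (A : Finset (E N)) (β : E N → ℝ) (z : T N) : ℝ :=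
  (∑ e ∈ A, if tg e = z then β e else 0) - ∑ e ∈ A, if e.1 = z then β e else 0
def inw (β : E N → ℝ) (z : T N) : ℝ := ∑ i, β (z - dr N i, i)
def dv (β : E N → ℝ) (z : T N) : ℝ := inw β z - Zs β z
def col (x : T N) : ℕ := x.1.val
def shG (z : T N) (G : E N → ℝ) : E N → ℝ := fun e => G (e.1 + z, e.2)
def cz (N : ℕ) (a b : ℤ) : T N := ((a : ZMod N), (b : ZMod N))
def Line (p : T N) (i : Fin 4) (e : E N) : Prop :=
  e.2 = i ∧ (if i = 0 ∨ i = 2 then e.1.2 = p.2 else e.1.1 = p.1)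
instance (p : T N) (i : Fin 4) (e : E N) : Decidable (Line p i e) := by
  unfold Line; infer_instance

end defs0

section defs1
variable (N : ℕ) [NeZero N]

def Wd (s t : ℕ) : Finset (T N) := univ.filter fun x => s < col x ∧ col x < t
def Col (c : ℕ) : Finset (T N) := univ.filter fun x => col x = c
def Cols (s t : ℕ) : Finset (T N) := univ.filter fun x => s ≤ col x ∧ col x ≤ t
def Win (c : ℕ) (p : ZMod N) (l : ℕ) : Finset (T N) :=
  univ.filter fun x => col x = c ∧ (x.2 - p).val < l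
def Box (s t : ℕ) (p : ZMod N) (l : ℕ) : Finset (T N) :=
  univ.filter fun x => s < col x ∧ col x < t ∧ (x.2 - p).val < l
/-- the edges leaving the two walls towards the inside of the strip -/
def Src (s t : ℕ) : Finset (E N) := SE (Col N s) 0 ∪ SE (Col N t) 2

variable {N}

def hmat (W : Finset (T N)) (G : E N → ℝ) : Matrix (T N) (T N) ℝ := fun x y =>
  if x ∈ W then ∑ i, G (x, i) * ((if y = x then 1 else 0) - (if y = x + dr N i then 1 else 0))
  else if y = x then 1 else 0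
/-- harmonic extension to `W` of the values of `f` outside `W` -/
noncomputable def har (W : Finset (T N)) (f : T N → ℝ) (G : E N → ℝ) : T N → ℝ :=
  (hmat W G)⁻¹.mulVec fun x => if x ∈ W then 0 else f x
noncomputable def mu (β : E N → ℝ) : Measure (E N → ℝ) :=
  Measure.pi fun e => gammaMeasure (β e) 1
noncomputable def Ex (β : E N → ℝ) (X : (E N → ℝ) → ℝ) : ℝ≥0∞ :=
  ∫⁻ G, ENNReal.ofReal (X G) ∂mu β
/-- the Doob transform of the weights -/
noncomputable def Tm (W : Finset (T N)) (A : Finset (E N)) (f : T N → ℝ) (G : E N → ℝ) :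
    E N → ℝ :=
  fun e => if e ∈ A then G e * (har W f G (tg e) / har W f G e.1) else G e
noncomputable def uu (s t : ℕ) (G : E N → ℝ) : T N → ℝ := har (Wd N s t) (ind (Col N t)) G
noncomputable def vv (s t : ℕ) (G : E N → ℝ) : T N → ℝ := har (Wd N s t) (ind (Col N s)) G
/-- flux from the left wall that leaves the strip in `Sg` -/
noncomputable def FL (s t : ℕ) (Sg : Finset (T N)) (G : E N → ℝ) : ℝ :=
  Fx G (SE (Col N s) 0) (har (Wd N s t) (ind Sg) G)
/-- flux from the right wall that leaves the strip in `Sg` -/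
noncomputable def FR (s t : ℕ) (Sg : Finset (T N)) (G : E N → ℝ) : ℝ :=
  Fx G (SE (Col N t) 2) (har (Wd N s t) (ind Sg) G)
/-- probability to hit `x` before leaving the strip -/
noncomputable def gx (s t : ℕ) (x : T N) (G : E N → ℝ) : T N → ℝ :=
  har (Wd N s t \ {x}) (ind {x}) G
/-- flux from both walls that hits `x` -/
noncomputable def HH (s t : ℕ) (x : T N) (G : E N → ℝ) : ℝ := Fx G (Src N s t) (gx s t x G)
/-- escape probability from `x` -/
noncomputable def esc (s t : ℕ) (x : T N) (G : E N → ℝ) : ℝ :=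
  ∑ i, om G (x, i) * (1 - gx s t x G (x + dr N i))
noncomputable def pii (s t : ℕ) (x : T N) (G : E N → ℝ) : ℝ := HH s t x G / esc s t x G
/-- flux from the window `I` of the left wall that does not come back to `I` -/
noncomputable def Esc (s t : ℕ) (I : Finset (T N)) (G : E N → ℝ) : ℝ :=
  Fx G (SE I 0) fun z => 1 - har (Wd N s t) (ind I) G z
/-- flux from a window that leaves the box next to it away from the left wall -/
noncomputable def Xb (r w : ℕ) (p : ZMod N) (l : ℕ) (G : E N → ℝ) : ℝ :=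
  Fx G (SE (Win N r p l) 0) (har (Box N r (r + w) p l) (fun z => 1 - ind (Col N r) z) G)
/-- the two rows just outside a box -/
def Sep (s t : ℕ) (p : ZMod N) (l : ℕ) : Finset (T N) :=
  (Wd N s t).filter fun x => x.2 = p - 1 ∨ x.2 = p + (l : ZMod N)
/-- weights obtained from `α` by adding a path from column `t` to column `r` -/
def Cl (α : Fin 4 → ℝ) (r t : ℕ) (β : E N → ℝ) : Prop :=
  (∀ e, α e.2 ≤ β e) ∧ (∀ e, col e.1 ≤ r → β e = α e.2) ∧
    ∃ z₀ ∈ Col N t, ∃ y ∈ Col N r, ∀ z, dv β z = ind {y} z - ind {z₀} z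

/-- mean backtracking flux per row across a strip of width `j` -/
noncomputable def aa (α : Fin 4 → ℝ) (N : ℕ) [NeZero N] (j : ℕ) : ℝ :=
  (Ex (al N α) (FR 0 j {0})).toReal

/-- periodic environment of Gamma weights seen from `x` -/
def liftE (x : T N) (G : E N → ℝ) : Env := fun w i => G (x + cz N w.1 w.2, i)
/-- the torus weights read off an environment on the lattice, the origin placed at `x` -/
def resE (x : T N) (γ : Env) : E N → ℝ :=
  fun e => γ ((e.1 - x).1.valMinAbs, (e.1 - x).2.valMinAbs) e.2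

end defs1

/-! lattice flows -/
def dvZ (θ : ℤ × ℤ → Fin 4 → ℝ) (z : ℤ × ℤ) : ℝ := ∑ i, (θ (z - dir i) i - θ z i)
def EnZ (θ : ℤ × ℤ → Fin 4 → ℝ) (c : ℝ) : Prop :=
  ∀ S : Finset ((ℤ × ℤ) × Fin 4), ∑ e ∈ S, θ e.1 e.2 ^ 2 ≤ c
def SuppZ (θ : ℤ × ℤ → Fin 4 → ℝ) (R : ℤ) : Prop := ∀ z i, θ z i ≠ 0 → |z.1| ≤ R ∧ |z.2| ≤ R
def LineZ (p : ℤ × ℤ) (i : Fin 4) (z : ℤ × ℤ) (j : Fin 4) : Prop :=
  j = i ∧ (if i = 0 ∨ i = 2 then z.2 = p.2 else z.1 = p.1)
instance (p : ℤ × ℤ) (i : Fin 4) (z : ℤ × ℤ) (j : Fin 4) : Decidable (LineZ p i z j) := by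
  unfold LineZ; infer_instance
noncomputable def diagZ (L : ℕ) (z : ℤ × ℤ) : ℝ :=
  if 0 ≤ z.1 ∧ 0 ≤ z.2 ∧ z.1 + z.2 = L then 1 / ((L : ℝ) + 1) else 0

/-! the Gamma environment on the lattice -/
noncomputable def gam (α : Fin 4 → ℝ) : Measure (Fin 4 → ℝ) :=
  Measure.pi fun i => gammaMeasure (α i) 1
noncomputable def lawG (α : Fin 4 → ℝ) : Measure Env :=
  Measure.infinitePi fun _ : ℤ × ℤ => gam α
noncomputable def nrm (g : Fin 4 → ℝ) : Fin 4 → ℝ := fun i => g i / ∑ j, g j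
/-- `A` only depends on the sites in the box of radius `R` -/
def Loc (R : ℕ) (A : Set Env) : Prop :=
  ∀ γ γ' : Env, (∀ w : ℤ × ℤ, |w.1| ≤ R → |w.2| ≤ R → γ w = γ' w) → (γ ∈ A ↔ γ' ∈ A)
def ExAC (α : Fin 4 → ℝ) : Prop :=
  ∃ Q : Measure Env, IsProbabilityMeasure Q ∧ Q ≪ law α ∧ Invariant Q
def Adm (α : Fin 4 → ℝ) : Prop := (∀ i, 0 < α i) ∧ α 2 < α 0
def Kap (α : Fin 4 → ℝ) : Prop := 1 < 2 * ∑ i, α i - max (α 0 + α 2) (α 1 + α 3)

end DRW
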