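import Pool.Agent.P.MP_de05b4_pr.Basic
import Pool.Agent.P.MP_de05b4_pr.Acc

/-! Definitions and intermediate statements for the accelerated walk and for the case of a
small trapping parameter. -/

namespace DRW

open MeasureTheory ProbabilityTheory Finset Filter
open scoped ENNReal Topology

/-- elliptic stochastic environments -/
def Good (ω : Env) : Prop := ∀ x, (∀ i, 0 < ω x i) ∧ ∑ i, ω x i = 1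

noncomputable def zed (γ : Env → ℝ) : ℕ → Env → ℝ≥0∞
  | 0, _ => 1
  | m + 1, ω => ENNReal.ofReal (γ ω / (1 + γ ω)) * stepOp (zed γ m) ω

/-- sum of the probabilities of the four straight paths of length `R` -/
noncomputable def SR (R : ℕ) (ω : Env) : ℝ := ∑ i, ∏ k ∈ range R, ω ((k : ℤ) • dir i) i
noncomputable def gamR (R : ℕ) (ω : Env) : ℝ := if 0 < SR R ω then (SR R ω)⁻¹ else 1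
noncomputable def nrmE (g : Env) : Env := fun w => nrm (g w)

/-- the measure with density `γ` with respect to `Q` is invariant for the discrete chain -/
def MuInv (γ : Env → ℝ) (Q : Measure Env) : Prop := ∀ A : Set Env, MeasurableSet A →
  ∫⁻ ω, ENNReal.ofReal (γ ω) * A.indicator 1 ω ∂Q =
    ∫⁻ ω, ENNReal.ofReal (γ ω) * stepOp (A.indicator 1) ω ∂Q
def ExMu (α : Fin 4 → ℝ) (R : ℕ) : Prop :=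
  ∃ Q : Measure Env, IsProbabilityMeasure Q ∧ Q ≪ law α ∧ MuInv (gamR R) Q

section torus
variable {N : ℕ}
def pe (x : T N) (i : Fin 4) (k : ℕ) : E N := (x + k • dr N i, i)
noncomputable def pathP (R : ℕ) (x : T N) (i : Fin 4) (G : E N → ℝ) : ℝ :=
  ∏ k ∈ range R, om G (pe x i k)
def pathI (R : ℕ) (x : T N) (i : Fin 4) (e : E N) : ℝ :=
  ∑ k ∈ range R, if e = pe x i k then 1 else 0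
noncomputable def SRt (R : ℕ) (x : T N) (G : E N → ℝ) : ℝ := ∑ i, pathP R x i G
end torus

/-! exit from a box, iterated -/
def nm (x : ℤ × ℤ) : ℤ := max |x.1| |x.2|
/-- a direction pointing outwards at `x` -/
def odir (x : ℤ × ℤ) : Fin 4 :=
  if |x.2| ≤ |x.1| then (if 0 ≤ x.1 then 0 else 2) else (if 0 ≤ x.2 then 1 else 3)
noncomputable def abar (R : ℕ) (x : ℤ × ℤ) (ω : Env) : ℝ≥0∞ :=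
  ENNReal.ofReal (1 / (1 + ∏ k ∈ range R, ω (x + (k : ℤ) • dir (odir x)) (odir x)))
noncomputable def pOp (ω : Env) (F : ℤ × ℤ → ℝ≥0∞) (x : ℤ × ℤ) : ℝ≥0∞ :=
  ∑ i, ENNReal.ofReal (ω x i) * F (x + dir i)
noncomputable def exitIt (ρ : ℤ) (ω : Env) (F : ℤ × ℤ → ℝ≥0∞) : ℕ → ℤ × ℤ → ℝ≥0∞
  | 0, x => if nm x < ρ then 0 else F x
  | n + 1, x => if nm x < ρ then pOp ω (exitIt ρ ω F n) x else F x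
noncomputable def Wex (R : ℕ) (ρ : ℤ) (ω : Env) : ℝ≥0∞ :=
  ⨆ n, exitIt ρ ω (fun x => abar R x ω) n 0

/-! traps -/
noncomputable def kk (ω : Env) (x : ℤ × ℤ) : ℝ≥0∞ := if ∀ i, ω x i ≤ 1 / 2 then 1 else 0
noncomputable def Mit (ω : Env) (l : ℝ≥0∞) (c : ℤ × ℤ → ℝ≥0∞) : ℕ → ℤ × ℤ → ℝ≥0∞
  | 0, _ => 0
  | n + 1, x => c x + (1 - l * kk ω x) * pOp ω (Mit ω l c n) x
/-- minimal solution of `M = c + (1 - l * kk) * p M` -/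
noncomputable def MM (ω : Env) (l : ℝ≥0∞) (c : ℤ × ℤ → ℝ≥0∞) (x : ℤ × ℤ) : ℝ≥0∞ :=
  ⨆ n, Mit ω l c n x
def KK : Finset (ℤ × ℤ) := {(0, 0), (1, 0)}
def NK : Finset (ℤ × ℤ) := {(-1, 0), (0, 1), (0, -1), (2, 0), (1, 1), (1, -1)}
/-- rate of entrance in the trap -/
noncomputable def cK (ω : Env) (x : ℤ × ℤ) : ℝ≥0∞ :=
  if x ∈ KK then 0 else ∑ i, if x + dir i ∈ KK then ENNReal.ofReal (ω x i) else 0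
def Sh (t : ℝ) : Set Env := {ω |
  (∀ i, i ≠ 0 → t / 100 * ω (0, 0) 0 ≤ ω (0, 0) i ∧ ω (0, 0) i < 2 * t / 100 * ω (0, 0) 0) ∧
  (∀ i, i ≠ 2 → t / 100 * ω (1, 0) 2 ≤ ω (1, 0) i ∧ ω (1, 0) i < 2 * t / 100 * ω (1, 0) 2) ∧
  ∀ x ∈ NK, ∀ i, ω x i ≤ 1 / 2}
noncomputable def dsite (j : Fin 4) (t : ℝ) (g : Fin 4 → ℝ) : Fin 4 → ℝ :=
  nrm fun i => if i = j then g i else t * g i
/-- deepening the trap -/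
noncomputable def Dt (t : ℝ) (ω : Env) : Env := fun x =>
  if x = (0, 0) then dsite 0 t (ω x) else if x = (1, 0) then dsite 2 t (ω x) else ω x
noncomputable def LL (ω : Env) (l : ℝ≥0∞) (x : ℤ × ℤ) : ℝ≥0∞ :=
  l * kk ω x * pOp ω (MM ω l (cK ω)) x
noncomputable def CC (t : ℝ) (ω : Env) (y : ℤ × ℤ) : ℝ≥0∞ :=
  ∑' z : ℤ × ℤ, (Sh t).indicator 1 (shift z ω) * cK (shift z ω) (y - z)
noncomputable def InK (f : Env → ℝ≥0∞) (ω : Env) : ℝ≥0∞ := ∑' x, f (shift x ω) * cK ω x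
/-- an invariant probability density -/
structure Dens (α : Fin 4 → ℝ) (f : Env → ℝ≥0∞) : Prop where
  meas : Measurable f
  fin : ∀ ω, f ω ≠ ⊤
  mass : ∫⁻ ω, f ω ∂law α = 1
  inv : ∀ φ : Env → ℝ≥0∞, Measurable φ →
    ∫⁻ ω, f ω * φ ω ∂law α = ∫⁻ ω, f ω * stepOp φ ω ∂law α
  pos : ∀ᵐ ω ∂law α, ∀ x, 0 < f (shift x ω)
  site : ∀ᵐ ω ∂law α, ∀ y, f (shift y ω) =
    ∑ i, f (shift (y - dir i) ω) * ENNReal.ofReal (ω (y - dir i) i)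
  inf : ∀ᵐ ω ∂law α, ∑' x, f (shift x ω) * kk ω x = ⊤

/-! ### jump calculus -/

def StJ1 : Prop := ∀ γ : Env → ℝ, Measurable γ → ∀ (n : ℕ) (Φ : ℝ × Env → ℝ≥0∞), Measurable Φ →
  Measurable fun p : ℝ × ℝ × Env => jumps γ n p.2.1 (fun ω => Φ (p.1, ω)) p.2.2

def StJL : Prop := ∀ γ : Env → ℝ, Measurable γ → ∀ (n : ℕ) (t : ℝ),
  (∀ φ ψ : Env → ℝ≥0∞, φ ≤ ψ → jumps γ n t φ ≤ jumps γ n t ψ) ∧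
  (∀ φ ψ : Env → ℝ≥0∞, Measurable φ → Measurable ψ → ∀ ω,
    jumps γ n t (φ + ψ) ω = jumps γ n t φ ω + jumps γ n t ψ ω) ∧
  (∀ (c : ℝ≥0∞) (φ : Env → ℝ≥0∞), Measurable φ → ∀ ω,
    jumps γ n t (fun ω' => c * φ ω') ω = c * jumps γ n t φ ω) ∧
  ∀ φ : ℕ → Env → ℝ≥0∞, (∀ k, Measurable (φ k)) → Monotone φ → ∀ ω,
    jumps γ n t (fun ω' => ⨆ k, φ k ω') ω = ⨆ k, jumps γ n t (φ k) ω

/-- last jump decomposition -/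
def StJF : Prop := ∀ γ : Env → ℝ, Measurable γ → (∀ ω, 0 < γ ω) → ∀ (n : ℕ) (t : ℝ)
  (φ : Env → ℝ≥0∞), Measurable φ → ∀ ω,
  jumps γ (n + 1) t φ ω = ∫⁻ u in Set.Ioc 0 t, jumps γ n u (fun ω' => ENNReal.ofReal (γ ω') *
    stepOp (fun ω'' => ENNReal.ofReal (Real.exp (-(γ ω'' * (t - u)))) * φ ω'') ω') ω

def StJN : Prop := ∀ γ : Env → ℝ, Measurable γ → (∀ ω, 0 < γ ω) → ∀ t : ℝ, 0 ≤ t →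
  ∀ ω, Good ω → accSemigroup γ t 1 ω ≤ 1 ∧
    ∀ m, 1 ≤ accSemigroup γ t 1 ω + ENNReal.ofReal (Real.exp t) * zed γ m ω

def StJA : Prop := ∀ γ : Env → ℝ, Measurable γ → (∀ ω, 0 < γ ω) → ∀ Q : Measure Env,
  IsProbabilityMeasure Q → (∀ᵐ ω ∂Q, Good ω) → (∀ᵐ ω ∂Q, ⨅ m, zed γ m ω = 0) → MuInv γ Q →
  InvariantAcc γ Q

def StJB : Prop := ∀ Q : Measure Env, IsProbabilityMeasure Q → InvariantAcc (fun _ => 1) Q →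
  Invariant Q

def StGood : Prop := ∀ α : Fin 4 → ℝ, (∀ i, 0 < α i) →
  0 < law α (Sh 1) ∧ 0 < law α {ω | kk ω 0 = 1}

def StUQA : Prop := ∀ α : Fin 4 → ℝ, (∀ i, 0 < α i) → ∀ γ : Env → ℝ, Measurable γ →
  (∀ ω, 0 < γ ω) → ∀ Q₁ Q₂ : Measure Env,
  IsProbabilityMeasure Q₁ → Q₁ ≪ law α → InvariantAcc γ Q₁ →
  IsProbabilityMeasure Q₂ → Q₂ ≪ law α → InvariantAcc γ Q₂ → Q₁ = Q₂

/-! ### product measure tools -/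

def StIndZ : Prop := ∀ (ν : Measure (Fin 4 → ℝ)) [IsProbabilityMeasure ν] (S : Set (ℤ × ℤ))
  (Φ Ψ : Env → ℝ≥0∞), Measurable Φ → Measurable Ψ → DependsOn Φ S → DependsOn Ψ Sᶜ →
  ∫⁻ ω, Φ ω * Ψ ω ∂(Measure.infinitePi fun _ : ℤ × ℤ => ν) =
    (∫⁻ ω, Φ ω ∂(Measure.infinitePi fun _ : ℤ × ℤ => ν)) *
      ∫⁻ ω, Ψ ω ∂(Measure.infinitePi fun _ : ℤ × ℤ => ν)

/-- resampling one site -/
def StUpd : Prop := ∀ (ν : Measure (Fin 4 → ℝ)) [IsProbabilityMeasure ν] (x : ℤ × ℤ)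
  (Ψ : Env → ℝ≥0∞), Measurable Ψ →
  ∫⁻ ω, Ψ ω ∂(Measure.infinitePi fun _ : ℤ × ℤ => ν) =
    ∫⁻ ω, ∫⁻ v, Ψ (Function.update ω x v) ∂ν ∂(Measure.infinitePi fun _ : ℤ × ℤ => ν)

/-! ### no explosion -/

def StNE1 : Prop := ∀ (R : ℕ) (ω : Env), Good ω → ∀ q : ℝ≥0∞, q ≤ 1 →
  (∀ x, ⨅ m, zed (gamR R) m (shift x ω) ≤ q) → ∀ ρ : ℤ, 0 ≤ ρ →
  ⨅ m, zed (gamR R) m ω ≤ q * Wex R ρ ω

def StNE2a : Prop := ∀ α : Fin 4 → ℝ, (∀ i, 0 < α i) → ∀ R : ℕ, ∃ m : ℝ≥0∞, m < 1 ∧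
  ∀ ρ : ℤ, 0 ≤ ρ → ∀ Ψ : Env → ℝ≥0∞, Measurable Ψ → DependsOn Ψ {x | nm x < ρ} →
    ∫⁻ ω, Ψ ω * Wex R ρ ω ∂law α ≤ m * ∫⁻ ω, Ψ ω ∂law α

def StNE2b : Prop := ∀ (R : ℕ) (ρ : ℤ), 0 ≤ ρ →
  Measurable (Wex R ρ) ∧ DependsOn (Wex R ρ) {x | nm x < ρ + R}

def StNE2 : Prop := ∀ α : Fin 4 → ℝ, (∀ i, 0 < α i) → ∀ R : ℕ, ∃ b : ℝ≥0∞, b < 1 ∧
  ∀ᵐ ω ∂law α, ∃ ρ : ℤ, 0 ≤ ρ ∧ Wex R ρ ω ≤ b

def StNE : Prop := ∀ α : Fin 4 → ℝ, (∀ i, 0 < α i) → ∀ R : ℕ,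
  ∀ᵐ ω ∂law α, ⨅ m, zed (gamR R) m ω = 0

/-! ### the accelerated Green function -/

def StGtA2 : Prop := ∀ α : Fin 4 → ℝ, (∀ i, 0 < α i) →
  ∃ (η ρ σ : ℝ) (R k C : ℕ), 0 < η ∧ 0 < ρ ∧ 2 < σ ∧ 1 ≤ k ∧
  ∀ (N : ℕ) [NeZero N] (m : ℕ), 2 ≤ m → C * m ≤ N →
  ∀ (x : T N) (i : Fin 4) (a b : Fin k → ℤ), (∀ l, |a l| ≤ m ∧ |b l| ≤ m) →
  Function.Injective (fun l => ((b l : ℤ) : ZMod N)) →
  ∃ θ : E N → ℝ, (∀ e, ρ * pathI R x i e ≤ θ e) ∧ (∀ e, θ e + η ≤ α e.2 + 2 * pathI R x i e) ∧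
    (∀ e, θ e ≤ C) ∧ ∑ e, θ e ^ 2 ≤ C * Real.log m ∧
    ∀ z, dv θ z = (∑ l, σ / k * ind {x + cz N (a l) (b l)} z) - σ * ind {x} z

def StBoost2 : Prop := ∀ (N : ℕ) [NeZero N] (β : E N → ℝ), Pos β → ∀ (R : ℕ) (x : T N)
  (i : Fin 4) (Φ : (E N → ℝ) → ℝ≥0∞), Measurable Φ → (∀ y, ScaleInv y Φ) →
  ∫⁻ G, ENNReal.ofReal (pathP R x i G ^ 2) * Φ G ∂mu β ≤
    ∫⁻ G, Φ G ∂mu fun e => β e + 2 * pathI R x i e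

def StGt02 : Prop := ∀ α : Fin 4 → ℝ, (∀ i, 0 < α i) → ∃ (s : ℝ) (R k : ℕ), 2 < s ∧ 1 ≤ k ∧
  ∀ c₁ : ℝ, 0 < c₁ → c₁ ≤ 1 → ∃ C C₀ : ℕ, ∀ (N : ℕ) [NeZero N] (K m : ℕ), K < N → 2 ≤ m →
  C₀ * m ≤ N → ∀ x ∈ Wd N 0 K, ∀ (i : Fin 4) (a b : Fin k → ℤ), (∀ l, |a l| ≤ m ∧ |b l| ≤ m) →
  Function.Injective (fun l => ((b l : ℤ) : ZMod N)) → ∀ lam : ℝ, 0 < lam → lam ≤ 1 →
  Ex (al N α) (fun G => if esc 0 K x G ≤ lam ∧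
      ∀ l, c₁ ≤ 1 - gx 0 K x G (x + cz N (a l) (b l)) then pathP R x i G ^ 2 else 0) ≤
    ENNReal.ofReal (C * (m : ℝ) ^ C * lam ^ s)

def StGt12 : Prop := ∀ α, Adm α → ∃ (s : ℝ) (R : ℕ), 2 < s ∧ ∃ C : ℕ, ∀ M : ℕ,
  ∃ (C' : ℝ) (C₀ K₀ : ℕ), 0 < C' ∧ ∀ (N : ℕ) [NeZero N] (K m : ℕ), K₀ ≤ K → C₀ * K ≤ N → 1 ≤ m →
  ∀ x ∈ Wd N 0 K, ∀ (i : Fin 4) (lam : ℝ), 0 < lam → lam ≤ 1 →
  Ex (al N α) (fun G => if esc 0 K x G ≤ lam then pathP R x i G ^ 2 else 0) ≤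
    ENNReal.ofReal (C' * (((m : ℝ) ^ M)⁻¹ + (m : ℝ) ^ C * lam ^ s))

def StGt2 : Prop := ∀ α, Adm α → ∃ (s C : ℝ) (R C₀ K₀ : ℕ), 2 < s ∧ 0 < C ∧
  ∀ (N : ℕ) [NeZero N] (K : ℕ), K₀ ≤ K → C₀ * K ≤ N → ∀ x ∈ Wd N 0 K, ∀ (i : Fin 4) (lam : ℝ),
  0 < lam → Ex (al N α) (fun G => if esc 0 K x G ≤ lam then pathP R x i G ^ 2 else 0) ≤
    ENNReal.ofReal (C * lam ^ s)

def StPi2 : Prop := ∀ α, Adm α → ∃ (C : ℝ) (R C₀ K₀ : ℕ), 0 < C ∧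
  ∀ (N : ℕ) [NeZero N] (K : ℕ), K₀ ≤ K → C₀ * K ≤ N → ∀ x ∈ Wd N 0 K,
  Ex (al N α) (fun G => (pii 0 K x G * SRt R x G) ^ (3 / 2 : ℝ)) ≤ ENNReal.ofReal C

def StLow2 : Prop := ∀ α, Adm α → ∀ R : ℕ, ∃ c : ℝ, 0 < c ∧ ∀ (N : ℕ) [NeZero N] (K : ℕ),
  K + R < N → ∀ x ∈ Wd N 0 K,
  ENNReal.ofReal c ≤ Ex (al N α) fun G => pii 0 K x G * SRt R x G

def StTest2 : Prop := ∀ (N : ℕ) [NeZero N] (K : ℕ), 2 ≤ K → K < N → ∀ G : E N → ℝ, Pos G →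
  ∀ φ : T N → ℝ, (∀ x, 0 ≤ φ x) → (∀ x, φ x ≤ 1) →
  |(∑ x ∈ Wd N 0 K, pii 0 K x G * ∑ i, om G (x, i) * φ (x + dr N i))
      - ∑ x ∈ Wd N 0 K, pii 0 K x G * φ x| ≤ ∑ e ∈ Src N 0 K, G e

def Approx2 (α : Fin 4 → ℝ) (R : ℕ) : Prop := ∃ s C : ℝ, 1 < s ∧ 0 < C ∧ ∀ ε : ℝ, 0 < ε →
  ∀ R₀ : ℕ, ∃ (N : ℕ) (_ : NeZero N), R₀ ≤ N ∧
  ∃ (S : Finset (T N)) (π : T N → (E N → ℝ) → ℝ) (Z : ℝ),
    0 < Z ∧ (∀ x, Measurable (π x)) ∧ (∀ x ∈ S, ∀ G, Pos G → 0 ≤ π x G) ∧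
    ∑ x ∈ S, Ex (al N α) (fun G => π x G * SRt R x G) = ENNReal.ofReal Z ∧
    (S.card : ℝ) ≤ C * Z ∧
    (∀ x ∈ S, Ex (al N α) (fun G => (π x G * SRt R x G) ^ s) ≤ ENNReal.ofReal C) ∧
    ∃ B : (E N → ℝ) → ℝ, Measurable B ∧ Ex (al N α) B ≤ ENNReal.ofReal (ε * Z) ∧
      ∀ G, Pos G → ∀ φ : T N → ℝ, (∀ x, 0 ≤ φ x) → (∀ x, φ x ≤ 1) →
        |(∑ x ∈ S, π x G * ∑ i, om G (x, i) * φ (x + dr N i)) - ∑ x ∈ S, π x G * φ x| ≤ B G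

def StFin2 : Prop := ∀ α, Adm α → ∃ R, Approx2 α R

def ApproxZ2 (α : Fin 4 → ℝ) (R : ℕ) : Prop := ∃ s : ℝ, 1 < s ∧ ∃ C : ℝ≥0∞, C ≠ ⊤ ∧
  ∀ ε : ℝ, 0 < ε → ∀ R₀ : ℕ, ∃ f : Env → ℝ≥0∞, Measurable f ∧ ∫⁻ g, f g ∂lawG α = 1 ∧
    ∫⁻ g, f g ^ s ∂lawG α ≤ C ∧ ∀ A : Set Env, MeasurableSet A → Loc R₀ A →
      ∫⁻ g, f g * (ENNReal.ofReal (gamR R (nrmE g)) * A.indicator 1 g) ∂lawG α ≤
        (∫⁻ g, f g * (ENNReal.ofReal (gamR R (nrmE g)) *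
          ∑ i, ENNReal.ofReal (nrm (g 0) i) * A.indicator 1 (shift (dir i) g)) ∂lawG α)
          + ENNReal.ofReal ε ∧
      (∫⁻ g, f g * (ENNReal.ofReal (gamR R (nrmE g)) *
          ∑ i, ENNReal.ofReal (nrm (g 0) i) * A.indicator 1 (shift (dir i) g)) ∂lawG α) ≤
        (∫⁻ g, f g * (ENNReal.ofReal (gamR R (nrmE g)) * A.indicator 1 g) ∂lawG α)
          + ENNReal.ofReal ε

def StTR12 : Prop := ∀ α : Fin 4 → ℝ, (∀ i, 0 < α i) → ∀ R, Approx2 α R → ApproxZ2 α R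

def ExMuG (α : Fin 4 → ℝ) (R : ℕ) : Prop :=
  ∃ Q : Measure Env, IsProbabilityMeasure Q ∧ Q ≪ lawG α ∧ ∀ A : Set Env, MeasurableSet A →
    ∫⁻ g, ENNReal.ofReal (gamR R (nrmE g)) * A.indicator 1 g ∂Q =
      ∫⁻ g, ENNReal.ofReal (gamR R (nrmE g)) *
        ∑ i, ENNReal.ofReal (nrm (g 0) i) * A.indicator 1 (shift (dir i) g) ∂Q

def StTR22 : Prop := ∀ α : Fin 4 → ℝ, (∀ i, 0 < α i) → ∀ R, ApproxZ2 α R → ExMuG α R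

def StTR32 : Prop := ∀ α : Fin 4 → ℝ, (∀ i, 0 < α i) → ∀ R, ExMuG α R → ExMu α R

def StRot2 : Prop := ∀ α : Fin 4 → ℝ, (∀ i, 0 < α i) → ∀ R,
  ExMu (fun i => α (i + 1)) R → ExMu α R

/-! ### no invariant probability when the traps are strong -/

def StN1a : Prop := ∀ α : Fin 4 → ℝ, (∀ i, 0 < α i) → ∀ (j : Fin 4) (t : ℝ), 0 < t → t ≤ 1 →
  ∀ ψ : (Fin 4 → ℝ) → ℝ≥0∞, Measurable ψ →
  ENNReal.ofReal (t ^ (∑ i, α i - α j)) * ∫⁻ v, ψ (dsite j t v) ∂dirichlet α ≤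
    ∫⁻ v, ψ v ∂dirichlet α

def StN1 : Prop := ∀ α : Fin 4 → ℝ, (∀ i, 0 < α i) → ∀ t : ℝ, 0 < t → t ≤ 1 →
  ∀ Ψ : Env → ℝ≥0∞, Measurable Ψ →
  ENNReal.ofReal (t ^ (2 * ∑ i, α i - (α 0 + α 2))) * ∫⁻ ω, Ψ (Dt t ω) ∂law α ≤
    ∫⁻ ω, Ψ ω ∂law α

/-- elementary facts on minimal solutions -/
def StNM : Prop := ∀ ω : Env, Good ω → ∀ l : ℝ≥0∞, 0 < l → l ≤ 1 →
  (∀ c x, MM ω l c x = c x + (1 - l * kk ω x) * pOp ω (MM ω l c) x) ∧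
  (∀ c F : ℤ × ℤ → ℝ≥0∞, (∀ x, c x + (1 - l * kk ω x) * pOp ω F x ≤ F x) →
    ∀ x, MM ω l c x ≤ F x) ∧
  (∀ c : ℤ × ℤ → ℝ≥0∞, (∀ x, c x ≤ kk ω x) → ∀ x, MM ω l c x ≤ l⁻¹) ∧
  (∀ (c : ℤ × ℤ → ℤ × ℤ → ℝ≥0∞) (x : ℤ × ℤ),
    MM ω l (fun y => ∑' z, c z y) x = ∑' z, MM ω l (c z) x) ∧
  (∀ (a : ℝ≥0∞) c x, MM ω l (fun y => a * c y) x = a * MM ω l c x) ∧
  ∀ c z x, MM (shift z ω) l c x = MM ω l (fun y => c (y - z)) (z + x)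

def StNMeas : Prop := ∀ l : ℝ≥0∞,
  (∀ c : Env → ℤ × ℤ → ℝ≥0∞, (∀ y, Measurable fun ω => c ω y) → ∀ x,
    Measurable fun ω => MM ω l (c ω) x) ∧
  (∀ x, Measurable fun ω => cK ω x) ∧ (∀ x, Measurable fun ω => kk ω x) ∧
  (∀ x, Measurable fun ω => LL ω l x) ∧ (∀ t, MeasurableSet (Sh t)) ∧
  (∀ t y, Measurable fun ω => CC t ω y) ∧ ∀ t, Measurable (Dt t)

/-- the real algebra behind the comparison of the two depths -/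
def StN2a : Prop := ∀ a b A B t u₀ u₁ : ℝ, 0 < a → a ≤ 6 / 100 → 0 < b → b ≤ 6 / 100 →
  0 < t → t ≤ 1 → 0 ≤ A → 0 ≤ B → A ≤ a * (1 + max u₀ u₁) → B ≤ b * (1 + max u₀ u₁) →
  u₀ * (1 + t * a) = u₁ + t * A → u₁ * (1 + t * b) = u₀ + t * B →
  ∃ v₀ v₁ : ℝ, 0 ≤ v₀ ∧ 0 ≤ v₁ ∧ v₀ * (1 + a) = v₁ + A ∧ v₁ * (1 + b) = v₀ + B ∧
    v₀ ≤ u₀ + 1 / 2 ∧ v₁ ≤ u₁ + 1 / 2

def StN2 : Prop := ∀ ω : Env, Good ω → ω ∈ Sh 1 → ∀ t : ℝ, 0 < t → t ≤ 1 →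
  Good (Dt t ω) ∧ Dt t ω ∈ Sh t ∧ ∀ l : ℝ≥0∞, 0 < l → l ≤ 1 → ∀ x : ℤ × ℤ, 3 ≤ nm x →
    LL ω l x ≤ 2 * LL (Dt t ω) l x

def StN3 : Prop := ∀ ω : Env, Good ω → ∀ l : ℝ≥0∞, 0 < l → l ≤ 1 → ∀ π c : ℤ × ℤ → ℝ≥0∞,
  (∀ y, π y = ∑ i, π (y - dir i) * ENNReal.ofReal (ω (y - dir i) i)) →
  ∑' x, π x * (l * kk ω x * pOp ω (MM ω l c) x) ≤ ∑' x, π x * c x

/-- the walk is not positive recurrent -/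
def StN4 : Prop := ∀ ω : Env, Good ω → ω ∈ Sh 1 → ∀ π : ℤ × ℤ → ℝ≥0∞, (∀ x, π x ≠ ⊤) →
  (∀ y, π y = ∑ i, π (y - dir i) * ENNReal.ofReal (ω (y - dir i) i)) →
  ∑' x, π x * kk ω x = ⊤ → ∀ x : ℤ × ℤ,
  Tendsto (fun n : ℕ => LL ω ((n : ℝ≥0∞) + 1)⁻¹ x) atTop (𝓝 0)

def StN5a : Prop := ∀ ω : Env, Good ω → ∀ t : ℝ, 0 < t → t ≤ 1 → ∀ l : ℝ≥0∞, 0 < l → l ≤ 1 →
  (∀ y, CC t ω y ≤ kk ω y) ∧ (ω ∈ Sh t → ∀ y, cK ω y ≤ kk ω y) ∧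
  ∑' x : ℤ × ℤ, (Sh t).indicator 1 (shift (-x) ω) * LL (shift (-x) ω) l x =
    l * kk ω 0 * pOp ω (MM ω l (CC t ω)) 0

/-- mass transport -/
def StN5 : Prop := ∀ α : Fin 4 → ℝ, (∀ i, 0 < α i) → ∀ t : ℝ, 0 < t → t ≤ 1 →
  ∀ l : ℝ≥0∞, 0 < l → l ≤ 1 →
  (∀ g : Env → ℝ≥0∞, Measurable g →
    ∫⁻ ω, (Sh t).indicator 1 ω * ∑' x, g (shift x ω) * LL ω l x ∂law α ≤ ∫⁻ ω, g ω ∂law α) ∧
  ∀ f, Dens α f → ∫⁻ ω, (Sh t).indicator 1 ω * InK f ω ∂law α =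
    ∫⁻ ω, (Sh t).indicator 1 ω * ∑' x, f (shift x ω) * LL ω l x ∂law α

def StN7 : Prop := ∀ α : Fin 4 → ℝ, (∀ i, 0 < α i) → ExAC α → ∃ f, Dens α f

def StN8 : Prop := ∀ α : Fin 4 → ℝ, (∀ i, 0 < α i) → ∀ D : Set Env, MeasurableSet D →
  ∀ η : ℝ≥0∞, 0 < η → ∃ (R : ℕ) (D' : Set Env), MeasurableSet D' ∧ Loc R D' ∧
    law α (D \ D') ≤ η ∧ law α (D' \ D) ≤ η

/-- the far sources feel the depth of the trap only through a bounded factor -/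
def StN9a : Prop := ∀ α : Fin 4 → ℝ, (∀ i, 0 < α i) → ∀ t : ℝ, 0 < t → t ≤ 1 →
  ∀ l : ℝ≥0∞, 0 < l → l ≤ 1 → ∀ (R : ℕ) (D : Set Env), MeasurableSet D → Loc R D →
  ENNReal.ofReal (t ^ (2 * ∑ i, α i - (α 0 + α 2))) *
    ∫⁻ ω, (Sh 1).indicator 1 ω * ∑' x : ℤ × ℤ,
      (if (R : ℤ) + 3 ≤ nm x then D.indicator 1 (shift x ω) * LL ω l x else 0) ∂law α ≤
    2 * ∫⁻ ω, (Sh t).indicator 1 ω * ∑' x : ℤ × ℤ, D.indicator 1 (shift x ω) * LL ω l x ∂law α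

def StN9b : Prop := ∀ α : Fin 4 → ℝ, (∀ i, 0 < α i) → ∀ f, Dens α f → ∀ ρ : ℤ,
  Tendsto (fun n : ℕ => ∫⁻ ω, (Sh 1).indicator 1 ω * ∑' x : ℤ × ℤ,
    (if nm x < ρ then LL ω ((n : ℝ≥0∞) + 1)⁻¹ x else 0) ∂law α) atTop (𝓝 0)

def StN9 : Prop := ∀ α : Fin 4 → ℝ, (∀ i, 0 < α i) → ∀ f, Dens α f → ∃ c : ℝ, 0 < c ∧
  ∀ t : ℝ, 0 < t → t ≤ 1 → ENNReal.ofReal (c * t ^ (2 * ∑ i, α i - (α 0 + α 2))) ≤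
    ∫⁻ ω, (Sh t).indicator 1 ω * InK f ω ∂law α

def StN10 : Prop := ∀ α : Fin 4 → ℝ, (∀ i, 0 < α i) → 2 * ∑ i, α i - (α 0 + α 2) ≤ 1 → ¬ ExAC α

end DRW
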