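import Mathlib

/-! Random walk in an i.i.d. Dirichlet environment on the square lattice: the environment seen
from the particle. -/

namespace DRW

open MeasureTheory ProbabilityTheory

/-- The Dirichlet law with parameters `α` on `Fin 4 → ℝ`: the law of `(g i / ∑ j, g j)` for
independent Gamma variables `g i` of shape `α i` and rate `1`. -/
noncomputable def dirichlet (α : Fin 4 → ℝ) : Measure (Fin 4 → ℝ) :=
  (Measure.pi fun i => gammaMeasure (α i) 1).map fun g i => g i / ∑ j, g j

/-- The four unit steps `e₁, e₂, -e₁, -e₂`. -/
def dir : Fin 4 → ℤ × ℤ := ![(1, 0), (0, 1), (-1, 0), (0, -1)]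

/-- Environments: `ω x i` is the probability of the step from `x` to `x + dir i`. -/
abbrev Env : Type := ℤ × ℤ → Fin 4 → ℝ

/-- The static law: the vectors `ω x` are i.i.d. Dirichlet with parameters `α`. -/
noncomputable def law (α : Fin 4 → ℝ) : Measure Env :=
  Measure.infinitePi fun _ : ℤ × ℤ => dirichlet α

/-- The shifted environment `τ_x ω`. -/
def shift (x : ℤ × ℤ) (ω : Env) : Env := fun y => ω (x + y)

/-- `Q` is invariant for the environment seen from the particle, the Markov chain that moves
from `ω` to `τ_{dir i} ω` with probability `ω 0 i`. -/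
def Invariant (Q : Measure Env) : Prop :=
  ∀ A : Set Env, MeasurableSet A →
    Q A = ∫⁻ ω, ∑ i, ENNReal.ofReal (ω 0 i) * A.indicator 1 (shift (dir i) ω) ∂Q

end DRW
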