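import Pool.Agent.P.MP_de05b4_pr.R.A
import Pool.Agent.P.MP_de05b4_pr.R.A0
import Pool.Agent.P.MP_de05b4_pr.R.Box
import Pool.Agent.P.MP_de05b4_pr.R.Cond
import Pool.Agent.P.MP_de05b4_pr.R.Core
import Pool.Agent.P.MP_de05b4_pr.R.Core1
import Pool.Agent.P.MP_de05b4_pr.R.Cost
import Pool.Agent.P.MP_de05b4_pr.R.Cp
import Pool.Agent.P.MP_de05b4_pr.R.EX1
import Pool.Agent.P.MP_de05b4_pr.R.En
import Pool.Agent.P.MP_de05b4_pr.R.Erg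
import Pool.Agent.P.MP_de05b4_pr.R.F1
import Pool.Agent.P.MP_de05b4_pr.R.F2
import Pool.Agent.P.MP_de05b4_pr.R.F3
import Pool.Agent.P.MP_de05b4_pr.R.Flow
import Pool.Agent.P.MP_de05b4_pr.R.Gt0
import Pool.Agent.P.MP_de05b4_pr.R.Gt1
import Pool.Agent.P.MP_de05b4_pr.R.GtA
import Pool.Agent.P.MP_de05b4_pr.R.GtB
import Pool.Agent.P.MP_de05b4_pr.R.Hlow
import Pool.Agent.P.MP_de05b4_pr.R.Hold
import Pool.Agent.P.MP_de05b4_pr.R.I1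
import Pool.Agent.P.MP_de05b4_pr.R.I2
import Pool.Agent.P.MP_de05b4_pr.R.I3
import Pool.Agent.P.MP_de05b4_pr.R.IF
import Pool.Agent.P.MP_de05b4_pr.R.IFL
import Pool.Agent.P.MP_de05b4_pr.R.Ind
import Pool.Agent.P.MP_de05b4_pr.R.MP
import Pool.Agent.P.MP_de05b4_pr.R.Mgf
import Pool.Agent.P.MP_de05b4_pr.R.Pi
import Pool.Agent.P.MP_de05b4_pr.R.Rho
import Pool.Agent.P.MP_de05b4_pr.R.Riv
import Pool.Agent.P.MP_de05b4_pr.R.Rot
import Pool.Agent.P.MP_de05b4_pr.R.S1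
import Pool.Agent.P.MP_de05b4_pr.R.S2
import Pool.Agent.P.MP_de05b4_pr.R.SB
import Pool.Agent.P.MP_de05b4_pr.R.SBB
import Pool.Agent.P.MP_de05b4_pr.R.Scale
import Pool.Agent.P.MP_de05b4_pr.R.Sink
import Pool.Agent.P.MP_de05b4_pr.R.Stat
import Pool.Agent.P.MP_de05b4_pr.R.TR1
import Pool.Agent.P.MP_de05b4_pr.R.TR2
import Pool.Agent.P.MP_de05b4_pr.R.Tilt
import Pool.Agent.P.MP_de05b4_pr.R.UQ

/-! Assembly of the intermediate statements. -/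

namespace DRW

open MeasureTheory ProbabilityTheory Finset

theorem all_IF : StIF := pf_IF (pf_I (pf_I2 pf_I1))
theorem all_IF1 : StIF1 := pf_IF1 all_IF
theorem all_HB : StHB := pf_HB all_IF1
theorem all_A : StA := pf_A pf_A0 (pf_M all_IF1 pf_Mgf) pf_Mgf
theorem all_Bump : StBump := pf_Bump pf_Tilt
theorem all_Om : StOm := pf_Om pf_Scale all_Bump
theorem all_Hold : StHold := pf_Hold pf_Tilt pf_Cost
theorem all_Flow : StFlow := pf_Flow (pf_F3 pf_F1 pf_F2)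
theorem all_SBB : StSBB := pf_SBB (pf_SB all_Om all_Bump) all_A
theorem all_B2 : StB2 := pf_B2 all_SBB all_HB
theorem all_A00 : StA00 := pf_A00 (pf_S1 all_A pf_Id all_B2 pf_Ind) all_A
theorem all_Riv : StRiv :=
  pf_Riv (pf_EscU (pf_Blk pf_Box all_A all_A00 all_HB pf_Mgf) pf_Box (pf_IndN pf_Ind))
    (pf_IFL all_IF1)
theorem all_Cond : StCond :=
  pf_Cond all_SBB (pf_Hlow all_IF all_Flow all_Hold) (pf_OmT pf_Tilt pf_Mgf) pf_Ind all_A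
theorem all_S3 : StS3 :=
  pf_S3 (pf_S2 (pf_Core (pf_Core1 pf_Cp pf_Id all_A pf_Ind) (pf_En all_A) all_A)
    (pf_Rho (pf_IFR all_IF1) all_HB all_A) (pf_Rho2 all_Riv all_B2 all_A) all_Cond all_A00 all_A
    pf_Asy) all_A
theorem all_Sink : StSink := pf_Sink (pf_Sink0 (pf_IFL all_IF1) all_HB pf_Box all_A pf_Mgf) all_S3
theorem all_Gt : StGt :=
  pf_Gt (pf_Gt1 (pf_Gt0 (pf_GtA all_Flow) (pf_GtB all_IF pf_Scale) (pf_Boost all_Om) all_Hold)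
    all_Sink)
theorem all_Fin : StFin := pf_Fin (pf_Pi all_Gt all_HB pf_Stat) (pf_Test pf_Stat) pf_Stat all_A

theorem exAC_of_adm (α : Fin 4 → ℝ) (h : Adm α) (hk : Kap α) : ExAC α :=
  pf_TR3 α h.1 (pf_TR2 pf_EX1 α h.1 (pf_TR1 pf_MP α h.1 (all_Fin α h hk)))

theorem kap_rot {α : Fin 4 → ℝ} (hk : Kap α) : Kap fun i => α (i + 1) := by
  unfold Kap at *
  simp only [Fin.sum_univ_four] at *
  change 1 < 2 * (α 1 + α 2 + α 3 + α 0) - max (α 1 + α 3) (α 2 + α 0)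
  rw [max_comm, add_comm (α 2) (α 0)]
  linarith

theorem exAC_of_drift (α : Fin 4 → ℝ) (hα : ∀ i, 0 < α i) (hk : Kap α)
    (hd : α 0 ≠ α 2 ∨ α 1 ≠ α 3) : ExAC α := by
  have h1 : ∀ β : Fin 4 → ℝ, (∀ i, 0 < β i) → Kap β → β 3 < β 1 → ExAC β := fun β hβ hb h =>
    pf_Rot β hβ (exAC_of_adm _ ⟨fun i => hβ _, h⟩ (kap_rot hb))
  have h2 : ∀ β : Fin 4 → ℝ, (∀ i, 0 < β i) → Kap β → β 0 < β 2 → ExAC β := fun β hβ hb h =>
    pf_Rot β hβ (h1 _ (fun i => hβ _) (kap_rot hb) h)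
  have h3 : ∀ β : Fin 4 → ℝ, (∀ i, 0 < β i) → Kap β → β 1 < β 3 → ExAC β := fun β hβ hb h =>
    pf_Rot β hβ (h2 _ (fun i => hβ _) (kap_rot hb) h)
  rcases hd with h | h
  · rcases lt_or_gt_of_ne h with h | h
    · exact h2 α hα hk h
    · exact exAC_of_adm α ⟨hα, h⟩ hk
  · rcases lt_or_gt_of_ne h with h | h
    · exact h3 α hα hk h
    · exact h1 α hα hk h

theorem main (α : Fin 4 → ℝ) (hα : ∀ i, 0 < α i)
    (hκ : 1 < 2 * ∑ i, α i - max (α 0 + α 2) (α 1 + α 3))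
    (hd : α 0 ≠ α 2 ∨ α 1 ≠ α 3) :
    ∃! Q : Measure Env, IsProbabilityMeasure Q ∧ Q ≪ law α ∧ Invariant Q := by
  obtain ⟨Q, hQ⟩ := exAC_of_drift α hα hκ hd
  exact ⟨Q, hQ, fun Q' hQ' => pf_UQ pf_Erg α hα Q' Q hQ'.1 hQ'.2.1 hQ'.2.2 hQ.1 hQ.2.1 hQ.2.2⟩

end DRW
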