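import Pool.Agent.P.MP_de05b4_pr.Main
import Pool.Agent.P.MP_de05b4_pr.R2.J1
import Pool.Agent.P.MP_de05b4_pr.R2.JF
import Pool.Agent.P.MP_de05b4_pr.R2.JN
import Pool.Agent.P.MP_de05b4_pr.R2.JA
import Pool.Agent.P.MP_de05b4_pr.R2.UQA
import Pool.Agent.P.MP_de05b4_pr.R2.IndZ
import Pool.Agent.P.MP_de05b4_pr.R2.Good
import Pool.Agent.P.MP_de05b4_pr.R2.NE1
import Pool.Agent.P.MP_de05b4_pr.R2.NE2a
import Pool.Agent.P.MP_de05b4_pr.R2.NE2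
import Pool.Agent.P.MP_de05b4_pr.R2.GtA2
import Pool.Agent.P.MP_de05b4_pr.R2.Gt02
import Pool.Agent.P.MP_de05b4_pr.R2.Gt12
import Pool.Agent.P.MP_de05b4_pr.R2.Pi2
import Pool.Agent.P.MP_de05b4_pr.R2.Low2
import Pool.Agent.P.MP_de05b4_pr.R2.TR12
import Pool.Agent.P.MP_de05b4_pr.R2.TR22
import Pool.Agent.P.MP_de05b4_pr.R2.N1
import Pool.Agent.P.MP_de05b4_pr.R2.NM
import Pool.Agent.P.MP_de05b4_pr.R2.N2
import Pool.Agent.P.MP_de05b4_pr.R2.N3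
import Pool.Agent.P.MP_de05b4_pr.R2.N5a
import Pool.Agent.P.MP_de05b4_pr.R2.N5
import Pool.Agent.P.MP_de05b4_pr.R2.N7
import Pool.Agent.P.MP_de05b4_pr.R2.N9a
import Pool.Agent.P.MP_de05b4_pr.R2.N9
import Pool.Agent.P.MP_de05b4_pr.R2.N10

/-! Assembly for the accelerated walk and for strong traps. -/

namespace DRW

open MeasureTheory ProbabilityTheory Finset

theorem all_JL : StJL := pf_JL pf_J1
theorem all_JF : StJF := pf_JF pf_J1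
theorem all_JN : StJN := pf_JN pf_J1
theorem all_NE : StNE := pf_NE pf_NE1 (pf_NE2 (pf_NE2a pf_IndZ) pf_NE2b)
theorem all_Gt2 : StGt2 :=
  pf_Gt2 (pf_Gt12 (pf_Gt02 (pf_GtA2 all_Flow) (pf_GtB all_IF pf_Scale) (pf_Boost2 all_Om) all_Hold)
    all_Sink)
theorem all_Fin2 : StFin2 :=
  pf_Fin2 (pf_Pi2 all_Gt2 all_HB pf_Stat) (pf_Low2 pf_Stat all_A pf_Ind (pf_IndN pf_Ind) all_Om)
    (pf_Test2 pf_Stat) pf_Mgf pf_Stat
theorem all_N5a : StN5a := pf_N5a pf_NM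
theorem all_N10 : StN10 :=
  pf_N10 (pf_N7 (pf_Good pf_IndZ))
    (pf_N9 (pf_N5 pf_NM pf_NMeas all_N5a) pf_N8
      (pf_N9a (pf_N1 pf_N1a pf_Upd) (pf_N2 pf_NM pf_N2a all_N5a) pf_NMeas)
      (pf_N9b (pf_N4 pf_NM pf_N3) pf_NM all_N5a pf_NMeas) (pf_Good pf_IndZ) pf_NMeas) pf_NMeas

theorem exMu_of_adm (α : Fin 4 → ℝ) (h : Adm α) : ∃ R, ExMu α R := by
  obtain ⟨R, hR⟩ := all_Fin2 α h
  exact ⟨R, pf_TR32 α h.1 R (pf_TR22 pf_EX1 α h.1 R (pf_TR12 pf_MP α h.1 R hR))⟩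

theorem exMu_of_drift (α : Fin 4 → ℝ) (hα : ∀ i, 0 < α i) (hd : α 0 ≠ α 2 ∨ α 1 ≠ α 3) :
    ∃ R, ExMu α R := by
  have rot : ∀ β : Fin 4 → ℝ, (∀ i, 0 < β i) → (∃ R, ExMu (fun i => β (i + 1)) R) →
      ∃ R, ExMu β R := fun β hβ ⟨R, hR⟩ => ⟨R, pf_Rot2 β hβ R hR⟩
  have h1 : ∀ β : Fin 4 → ℝ, (∀ i, 0 < β i) → β 3 < β 1 → ∃ R, ExMu β R := fun β hβ h =>
    rot β hβ (exMu_of_adm _ ⟨fun i => hβ _, h⟩)
  have h2 : ∀ β : Fin 4 → ℝ, (∀ i, 0 < β i) → β 0 < β 2 → ∃ R, ExMu β R := fun β hβ h =>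
    rot β hβ (h1 _ (fun i => hβ _) h)
  have h3 : ∀ β : Fin 4 → ℝ, (∀ i, 0 < β i) → β 1 < β 3 → ∃ R, ExMu β R := fun β hβ h =>
    rot β hβ (h2 _ (fun i => hβ _) h)
  rcases hd with h | h
  · rcases lt_or_gt_of_ne h with h | h
    · exact h2 α hα h
    · exact exMu_of_adm α ⟨hα, h⟩
  · rcases lt_or_gt_of_ne h with h | h
    · exact h3 α hα h
    · exact h1 α hα h

theorem main_acc (α : Fin 4 → ℝ) (hα : ∀ i, 0 < α i) (hd : α 0 ≠ α 2 ∨ α 1 ≠ α 3) :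
    ∃ γ : Env → ℝ, LocalAcc γ ∧
      ∃! Q : Measure Env, IsProbabilityMeasure Q ∧ Q ≪ law α ∧ InvariantAcc γ Q := by
  obtain ⟨R, Q, hQ, hac, hinv⟩ := exMu_of_drift α hα hd
  have hI : InvariantAcc (gamR R) Q :=
    pf_JA pf_J1 all_JL all_JF all_JN _ (measurable_gamR R) (gamR_pos R) Q hQ
      (hac.ae_le (ae_good hα)) (hac.ae_le (all_NE α hα R)) hinv
  exact ⟨gamR R, localAcc_gamR R, Q, ⟨hQ, hac, hI⟩, fun Q' hQ' =>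
    pf_UQA pf_J1 all_JL all_JN α hα _ (measurable_gamR R) (gamR_pos R) Q' Q
      hQ'.1 hQ'.2.1 hQ'.2.2 hQ hac hI⟩

theorem main_traps (α : Fin 4 → ℝ) (hα : ∀ i, 0 < α i)
    (hκ : 2 * ∑ i, α i - max (α 0 + α 2) (α 1 + α 3) ≤ 1) :
    ¬ ∃ Q : Measure Env, IsProbabilityMeasure Q ∧ Q ≪ law α ∧ Invariant Q := by
  intro h
  rcases le_total (α 1 + α 3) (α 0 + α 2) with hm | hm
  · rw [max_eq_left hm] at hκ
    exact all_N10 α hα hκ h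
  · rw [max_eq_right hm] at hκ
    refine all_N10 (fun i => α (i + 3)) (fun i => hα _) ?_ (pf_Rot _ (fun i => hα _) ?_)
    · simp only [Fin.sum_univ_four] at *
      change 2 * (α 3 + α 0 + α 1 + α 2) - (α 3 + α 1) ≤ 1
      linarith
    · have e : (fun i : Fin 4 => α (i + 1 + 3)) = α := by
        funext i; fin_cases i <;> rfl
      change ExAC fun i : Fin 4 => α (i + 1 + 3)
      rw [e]
      exact h

theorem main2 (α : Fin 4 → ℝ) (hα : ∀ i, 0 < α i)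
    (hκ : 2 * ∑ i, α i - max (α 0 + α 2) (α 1 + α 3) ≤ 1) :
    (¬ ∃ Q : Measure Env, IsProbabilityMeasure Q ∧ Q ≪ law α ∧ Invariant Q) ∧
    ∃ γ : Env → ℝ, LocalAcc γ ∧
      ((∃! Q : Measure Env, IsProbabilityMeasure Q ∧ Q ≪ law α ∧ InvariantAcc γ Q) ↔
        (α 0 ≠ α 2 ∨ α 1 ≠ α 3)) := by
  refine ⟨main_traps α hα hκ, ?_⟩
  by_cases hd : α 0 ≠ α 2 ∨ α 1 ≠ α 3
  · obtain ⟨γ, hγ, h⟩ := main_acc α hα hd
    exact ⟨γ, hγ, fun _ => hd, fun _ => h⟩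
  · refine ⟨fun _ => 1, ⟨measurable_const, fun _ => one_pos, 0, fun _ _ _ => rfl⟩, ?_, fun h =>
      absurd h hd⟩
    rintro ⟨Q, ⟨hQ, hac, hinv⟩, -⟩
    exact absurd ⟨Q, hQ, hac, pf_JB pf_J1 all_JL all_JF Q hQ hinv⟩ (main_traps α hα hκ)

end DRW
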