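import Pool.Agent.P.MP_de05b4_pr.Defs

/-! The intermediate statements of the proof, as propositions. -/

namespace DRW

open MeasureTheory ProbabilityTheory Finset Filter
open scoped ENNReal Topology

/-! ### change of variables -/

def StI1 : Prop := ∀ (N : ℕ) [NeZero N] (W : Finset (T N)), W ≠ univ →
  ∀ (f : T N → ℝ) (G : E N → ℝ), Pos G →
  ∃ D : (E N → ℝ) →L[ℝ] (T N → ℝ), HasFDerivAt (fun G' => har W f G') D G ∧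
    ∀ d : E N → ℝ, (∀ x ∈ W, lap G (D d) x + lap d (har W f G) x = 0) ∧ ∀ x, x ∉ W → D d x = 0

def StI2 : Prop := ∀ (N : ℕ) [NeZero N] (W : Finset (T N)) (A : Finset (E N)), W ≠ univ →
  outE W ⊆ A → ∀ (f : T N → ℝ), (∀ x, 0 < f x) → ∀ G : E N → ℝ, Pos G →
  ∃ D : (E N → ℝ) →L[ℝ] (E N → ℝ), HasFDerivAt (Tm W A f) D G ∧
    D.det = ∏ e ∈ A, har W f G (tg e) / har W f G e.1

def StI : Prop := ∀ (N : ℕ) [NeZero N] (β : E N → ℝ), Pos β →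
  ∀ (W : Finset (T N)) (A : Finset (E N)), W ≠ univ → outE W ⊆ A →
  ∀ (f : T N → ℝ), (∀ x, 0 < f x) →
  Ex β (fun G => Real.exp (-∑ e ∈ A, G e * (har W f G (tg e) / har W f G e.1 - 1)) *
    ∏ e ∈ A, (har W f G (tg e) / har W f G e.1) ^ β e) ≤ 1

/-! ### Gamma calculus -/

def StTilt : Prop := ∀ (N : ℕ) [NeZero N] (β θ : E N → ℝ), Pos β → Pos (β + θ) →
  ∀ Φ : (E N → ℝ) → ℝ≥0∞, Measurable Φ →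
  ∫⁻ G, ENNReal.ofReal (∏ e, G e ^ θ e) * Φ G ∂mu β =
    ENNReal.ofReal (∏ e, Real.Gamma (β e + θ e) / Real.Gamma (β e)) * ∫⁻ G, Φ G ∂mu (β + θ)

def StBump : Prop := ∀ (N : ℕ) [NeZero N] (β : E N → ℝ), Pos β → ∀ (e : E N)
  (Φ : (E N → ℝ) → ℝ≥0∞), Measurable Φ →
  ∫⁻ G, ENNReal.ofReal (G e) * Φ G ∂mu β = ENNReal.ofReal (β e) * ∫⁻ G, Φ G ∂mu (bump β e)

def StScale : Prop := ∀ (N : ℕ) [NeZero N] (β : E N → ℝ), Pos β → ∀ (x : T N)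
  (Φ : (E N → ℝ) → ℝ≥0∞), Measurable Φ → ScaleInv x Φ → ∀ u : ℝ, -1 < u →
  ∫⁻ G, Φ G * ENNReal.ofReal (Real.exp (-u * Zs G x)) ∂mu β =
    ENNReal.ofReal ((1 + u) ^ (-Zs β x)) * ∫⁻ G, Φ G ∂mu β

def StOm : Prop := ∀ (N : ℕ) [NeZero N] (β : E N → ℝ), Pos β → ∀ (e : E N)
  (Φ : (E N → ℝ) → ℝ≥0∞), Measurable Φ → ScaleInv e.1 Φ →
  ∫⁻ G, ENNReal.ofReal (om G e) * Φ G ∂mu β =
    ENNReal.ofReal (β e / Zs β e.1) * ∫⁻ G, Φ G ∂mu (bump β e)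

def StCost : Prop := ∀ η : ℝ, 0 < η → ∃ C : ℝ, 0 ≤ C ∧ ∀ b θ τ : ℝ, 0 < τ → τ ≤ 1 → 0 ≤ θ →
  τ * θ + η ≤ b →
  Real.log (Real.Gamma (b - τ * θ)) + τ * Real.log (Real.Gamma (b + θ))
    - (1 + τ) * Real.log (Real.Gamma b) ≤ C * θ ^ 2

def StHold : Prop := ∀ η : ℝ, 0 < η → ∃ C : ℝ, 0 ≤ C ∧ ∀ (N : ℕ) [NeZero N] (β θ : E N → ℝ)
  (τ : ℝ), 0 < τ → τ ≤ 1 → (∀ e, 0 ≤ θ e) → (∀ e, τ * θ e + η ≤ β e) →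
  ∀ D : Set (E N → ℝ), MeasurableSet D →
  mu β D ≤ ENNReal.ofReal (Real.exp (C * ∑ e, θ e ^ 2)) * mu (β + θ) D ^ (τ / (1 + τ))

def StInd : Prop := ∀ (N : ℕ) [NeZero N] (β : E N → ℝ), Pos β → ∀ (S : Set (E N))
  (Φ Ψ : (E N → ℝ) → ℝ≥0∞), Measurable Φ → Measurable Ψ → DependsOn Φ S → DependsOn Ψ Sᶜ →
  ∫⁻ G, Φ G * Ψ G ∂mu β = (∫⁻ G, Φ G ∂mu β) * ∫⁻ G, Ψ G ∂mu β

def StIndN : Prop := ∀ (N : ℕ) [NeZero N] (β : E N → ℝ), Pos β → ∀ (n : ℕ) (S : ℕ → Set (E N))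
  (Φ : ℕ → (E N → ℝ) → ℝ≥0∞), (∀ k, Measurable (Φ k)) → (∀ k, DependsOn (Φ k) (S k)) →
  (∀ k < n, ∀ l < n, k ≠ l → Disjoint (S k) (S l)) →
  ∫⁻ G, ∏ k ∈ range n, Φ k G ∂mu β = ∏ k ∈ range n, ∫⁻ G, Φ k G ∂mu β

def StMgf : Prop := ∀ (N : ℕ) [NeZero N] (β : E N → ℝ), Pos β → ∀ (S : Finset (E N)),
  (∀ s : ℝ, s < 1 → Ex β (fun G => Real.exp (s * ∑ e ∈ S, G e)) =
    ENNReal.ofReal ((1 - s) ^ (-∑ e ∈ S, β e))) ∧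
  Ex β (fun G => ∑ e ∈ S, G e) = ENNReal.ofReal (∑ e ∈ S, β e)

def StOmT : Prop := ∀ α : Fin 4 → ℝ, (∀ i, 0 < α i) → ∃ C c : ℝ, 0 < C ∧ 0 < c ∧
  ∀ (N : ℕ) [NeZero N] (e : E N) (t : ℝ), 0 < t →
  mu (al N α) {G | om G e < t} ≤ ENNReal.ofReal (C * t ^ c)

/-- size-biasing by a flux -/
def StSB : Prop := ∀ (N : ℕ) [NeZero N] (W : Finset (T N)), W ≠ univ → ∀ (f : T N → ℝ),
  (∀ x, 0 ≤ f x) → ∀ (Φ : (E N → ℝ) → ℝ≥0∞), Measurable Φ → (∀ x ∈ W, ScaleInv x Φ) →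
  ∀ (η : ℝ≥0∞) (Cc : (E N → ℝ) → T N → Prop), (∀ β x, Cc β x → Pos β) →
  (∀ β x, Cc β x → x ∈ W → ∀ i, Cc (bump β (x, i)) (x + dr N i)) →
  (∀ β x, Cc β x → x ∉ W → f x ≠ 0 → ∫⁻ G, Φ G ∂mu β ≤ η) →
  ∀ (β : E N → ℝ), Pos β → ∀ S : Finset (E N), (∀ e ∈ S, Cc (bump β e) (tg e)) →
  ∫⁻ G, ENNReal.ofReal (Fx G S (har W f G)) * Φ G ∂mu β ≤ η * Ex β fun G => Fx G S (har W f G)

/-! ### flows -/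

def StF1 : Prop := ∀ L : ℕ, ∃ θ : ℤ × ℤ → Fin 4 → ℝ, (∀ z i, 0 ≤ θ z i) ∧ SuppZ θ L ∧
  EnZ θ (1 + Real.log (L + 1)) ∧ ∀ z, dvZ θ z = diagZ L z - if z = 0 then 1 else 0

def StF2 : Prop := ∀ (L : ℕ) (a b : ℤ), ∃ θ : ℤ × ℤ → Fin 4 → ℝ, (∀ z i, 0 ≤ θ z i) ∧
  SuppZ θ (L + |a| + |b|) ∧ (∀ z i, θ z i ≤ 1 / ((L : ℝ) + 1)) ∧
  EnZ θ ((|(a : ℝ)| + |(b : ℝ)|) / ((L : ℝ) + 1)) ∧
  ∀ z, dvZ θ z = diagZ L (z - (a, b)) - diagZ L z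

def StF3 : Prop := ∀ ε : ℝ, 0 < ε → ∃ C : ℕ, ∀ m : ℕ, 2 ≤ m → ∀ a b : ℤ, |a| ≤ m → |b| ≤ m →
  ∀ i j : Fin 4, ∃ θ : ℤ × ℤ → Fin 4 → ℝ, (∀ z k, 0 ≤ θ z k) ∧ SuppZ θ (C * m) ∧
  EnZ θ (C * Real.log m) ∧
  (∀ z, dvZ θ z = (if z = (a, b) then 1 else 0) - if z = 0 then 1 else 0) ∧
  ∀ z k, θ z k ≤ (if LineZ 0 i z k then 1 else 0) + (if LineZ (a, b) j z k then 1 else 0) + ε

def StFlow : Prop := ∀ ε : ℝ, 0 < ε → ∃ C : ℕ, ∀ (N : ℕ) [NeZero N] (m : ℕ), 2 ≤ m →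
  C * m ≤ N → ∀ (p : T N) (a b : ℤ), |a| ≤ m → |b| ≤ m → ∀ i j : Fin 4,
  ∃ θ : E N → ℝ, (∀ e, 0 ≤ θ e) ∧ ∑ e, θ e ^ 2 ≤ C * Real.log m ∧
  (∀ z, dv θ z = ind {p + cz N a b} z - ind {p} z) ∧
  ∀ e, θ e ≤ (if Line p i e then 1 else 0) + (if Line (p + cz N a b) j e then 1 else 0) + ε

/-! ### flux inequalities -/

def StIF : Prop := ∀ (N : ℕ) [NeZero N] (β : E N → ℝ), Pos β →
  ∀ (W Sg : Finset (T N)) (S : Finset (E N)), W ≠ univ → Disjoint W Sg → (∀ e ∈ S, e.1 ∉ W) →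
  ∀ t : ℝ, -1 < t →
  Ex β (fun G => Real.exp (-t * Fx G (S.filter fun e => e.1 ∉ Sg) (har W (ind Sg) G)
      + t / (1 + t) * Fx G (S.filter fun e => e.1 ∈ Sg) fun z => 1 - har W (ind Sg) G z) *
    ∏ z, (1 + t * har W (ind Sg) G z) ^ dvA (outE W ∪ S) β z) ≤ 1

def StIF1 : Prop := ∀ (N : ℕ) [NeZero N] (β : E N → ℝ), Pos β →
  ∀ (W Sg : Finset (T N)) (S : Finset (E N)), W ≠ univ → Disjoint W Sg → (∀ e ∈ S, e.1 ∉ W) →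
  ∀ t : ℝ, -1 < t → (∀ z ∈ W, 0 ≤ t * dvA (outE W ∪ S) β z) →
  Ex β (fun G => Real.exp (-t * Fx G (S.filter fun e => e.1 ∉ Sg) (har W (ind Sg) G)
      + t / (1 + t) * Fx G (S.filter fun e => e.1 ∈ Sg) fun z => 1 - har W (ind Sg) G z))
    ≤ ENNReal.ofReal ((1 + t) ^ (-∑ z ∈ Sg, dvA (outE W ∪ S) β z))

def StHB : Prop := ∀ (N : ℕ) [NeZero N] (β : E N → ℝ), Pos β →
  ∀ (W Sg : Finset (T N)) (S : Finset (E N)), W ≠ univ → Disjoint W Sg →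
  (∀ e ∈ S, e.1 ∉ W ∧ e.1 ∉ Sg) → (∀ z ∈ W, dv β z ≤ 0) →
  Ex β (fun G => Real.exp (Fx G S (har W (ind Sg) G) / 2))
      ≤ ENNReal.ofReal ((2 : ℝ) ^ (∑ z ∈ Sg, inw β z)) ∧
    Ex β (fun G => Fx G S (har W (ind Sg) G)) ≤ ENNReal.ofReal (2 * ∑ z ∈ Sg, inw β z)

def StIFL : Prop := ∀ α, Adm α → ∀ (N : ℕ) [NeZero N] (s t : ℕ), s < t → t < N →
  ∀ I ⊆ Col N s, ∀ ε : ℝ, 0 < ε → ε < 1 →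
  Ex (al N α) (fun G => Real.exp (ε * FR s t I G - ε / (1 - ε) * Esc s t I G))
    ≤ ENNReal.ofReal ((1 - ε) ^ ((α 0 - α 2) * I.card))

def StIFR : Prop := ∀ α, Adm α → ∀ (N : ℕ) [NeZero N] (s t : ℕ), s < t → t < N →
  ∀ I ⊆ Col N t,
  Ex (al N α) (fun G => Real.exp (-(FL s t I G +
      Fx G (SE (Col N t \ I) 2) (har (Wd N s t) (ind I) G))))
    ≤ ENNReal.ofReal ((2 : ℝ) ^ (-((α 0 - α 2) * I.card)))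

def StM : Prop := ∀ α, Adm α → ∀ (N : ℕ) [NeZero N] (s t : ℕ), s < t → t < N →
  Ex (al N α) (FL s t (Col N t)) =
    ENNReal.ofReal (N * (α 0 - α 2)) + Ex (al N α) (FR s t (Col N s))

/-! ### mean fluxes -/

def StA0 : Prop := ∀ α : Fin 4 → ℝ, (∀ i, 0 < α i) → ∀ (N : ℕ) [NeZero N] (s j : ℕ),
  s + j < N →
  (∀ y ∈ Col N s, Ex (al N α) (FR s (s + j) {y}) = Ex (al N α) (FR 0 j {0})) ∧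
  (∀ y ∈ Col N (s + j), ∀ y' ∈ Col N (s + j),
    Ex (al N α) (FL s (s + j) {y}) = Ex (al N α) (FL s (s + j) {y'})) ∧
  ∀ y ∈ Col N s, ∀ y' ∈ Col N s,
    Ex (al N α) (fun G => Fx G (SE {y} 0) (uu s (s + j) G)) =
      Ex (al N α) fun G => Fx G (SE {y'} 0) (uu s (s + j) G)

def StA : Prop := ∀ α, Adm α → ∀ (N : ℕ) [NeZero N],
  (∀ s t : ℕ, s < t → t < N →
    (∀ I ⊆ Col N s, Ex (al N α) (FR s t I) = ENNReal.ofReal (I.card * aa α N (t - s))) ∧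
    (∀ I ⊆ Col N t, Ex (al N α) (FL s t I) =
      ENNReal.ofReal (I.card * (α 0 - α 2 + aa α N (t - s)))) ∧
    (∀ I ⊆ Col N s, Ex (al N α) (fun G => Fx G (SE I 0) (uu s t G)) =
      ENNReal.ofReal (I.card * (α 0 - α 2 + aa α N (t - s))))) ∧
  (∀ j, 0 ≤ aa α N j) ∧ (∀ j, 1 ≤ j → j < N → aa α N j ≤ α 2) ∧
  ∀ j k, 1 ≤ j → j ≤ k → k < N → aa α N k ≤ aa α N j

def StId : Prop := ∀ (N : ℕ) [NeZero N] (s r t : ℕ), s < r → r < t → t < N →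
  ∀ G : E N → ℝ, Pos G →
  (∑ y ∈ Col N r, FL s r {y} G * vv s t G y) + FL s t (Col N t) G = FL s r (Col N r) G ∧
  (∑ y ∈ Col N r, FR r t {y} G * vv s t G y) = FR s t (Col N s) G ∧
  (∑ y ∈ Col N r, FR r t {y} G * uu s t G y) + FR s t (Col N s) G = FR r t (Col N r) G

def StSBB : Prop := ∀ α, Adm α → ∀ (N : ℕ) [NeZero N] (r t : ℕ), r < t → t < N →
  ∀ (Φ : (E N → ℝ) → ℝ≥0∞), Measurable Φ → (∀ x ∈ Wd N r t, ScaleInv x Φ) → ∀ η : ℝ≥0∞,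
  (∀ β : E N → ℝ, Cl α r t β → ∫⁻ G, Φ G ∂mu β ≤ η) → ∀ y ∈ Col N r,
  ∫⁻ G, ENNReal.ofReal (FR r t {y} G) * Φ G ∂mu (al N α) ≤ η * ENNReal.ofReal (aa α N (t - r))

def StB2 : Prop := ∀ α, Adm α → ∃ C : ℝ, 0 < C ∧ ∀ (N : ℕ) [NeZero N] (r t : ℕ), r < t → t < N →
  (∀ y ∈ Col N r, Ex (al N α) (fun G => FR r t {y} G ^ 2) ≤
    ENNReal.ofReal (C * aa α N (t - r))) ∧
  ∀ y ∈ Col N t, Ex (al N α) (fun G => FL r t {y} G ^ 2) ≤ ENNReal.ofReal C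

def StS1 : Prop := ∀ α, Adm α → ∃ c : ℝ, 0 < c ∧ c < 1 ∧ ∀ (N : ℕ) [NeZero N] (j : ℕ), 1 ≤ j →
  2 * j < N → aa α N (2 * j) ≤ (1 - c) * aa α N j

def StA00 : Prop := ∀ α, Adm α → ∀ ε : ℝ, 0 < ε → ∃ w₀ : ℕ, 2 ≤ w₀ ∧
  ∀ (N : ℕ) [NeZero N] (w : ℕ), w₀ ≤ w → w < N → aa α N w ≤ ε

/-! ### windows -/

def StRho : Prop := ∀ α, Adm α → ∀ (N : ℕ) [NeZero N] (r w l : ℕ), 2 ≤ w → w ≤ r → r < N →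
  1 ≤ l → l < N →
  ∑ p : ZMod N, mu (al N α) {G | FL 0 r (Win N r p l) G < (α 0 - α 2) * l / 4} ≤
    ENNReal.ofReal (N * (Real.exp (-((α 0 - α 2) * l / 6)) +
      4 * (4 * w * (∑ i, α i) + l * aa α N w) / ((α 0 - α 2) * l)))

def StBox : Prop := ∀ (N : ℕ) [NeZero N] (r w t l : ℕ) (p : ZMod N), 2 ≤ w → r + w ≤ t → t < N →
  l < N → ∀ G : E N → ℝ, Pos G →
  (∀ I ⊆ Col N r, Win N r p l ⊆ I →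
    Fx G (SE (Win N r p l) 0) (fun z => 1 - har (Wd N r t) (ind I) G z) ≤ Xb r w p l G) ∧
  Xb r w p l G ≤ Fx G (SE (Win N r p l) 0) (uu r (r + w) G) +
    Fx G (SE (Win N r p l) 0)
      (har (Wd N r (r + w) \ Sep r (r + w) p l) (ind (Sep r (r + w) p l)) G) ∧
  0 ≤ Xb r w p l G ∧ Xb r w p l G ≤ ∑ e ∈ SE (Win N r p l) 0, G e

def StBlk : Prop := ∀ α, Adm α → ∀ θ : ℝ, 0 < θ → ∃ (w l : ℕ) (s : ℝ), 2 ≤ w ∧ w ≤ l ∧ 0 < s ∧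
  ∀ (N : ℕ) [NeZero N] (r : ℕ) (p : ZMod N), l < N → r + w < N →
  Ex (al N α) (fun G => Real.exp (s * Xb r w p l G)) ≤
    ENNReal.ofReal (Real.exp (s * ((α 0 - α 2 + θ) * l)))

def StEscU : Prop := ∀ α, Adm α → ∀ θ : ℝ, 0 < θ → ∃ (l : ℕ) (c : ℝ), 1 ≤ l ∧ 0 < c ∧
  ∀ (N : ℕ) [NeZero N] (r t n : ℕ) (p : ZMod N), 1 ≤ n → n * l < N → r + l ≤ t → t < N →
  mu (al N α) {G | (α 0 - α 2 + θ) * (n * l : ℕ) < Esc r t (Win N r p (n * l)) G} ≤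
    ENNReal.ofReal (Real.exp (-c * n))

def StRiv : Prop := ∀ α, Adm α → ∀ θ : ℝ, 0 < θ → ∃ (l : ℕ) (c : ℝ), 1 ≤ l ∧ 0 < c ∧
  ∀ (N : ℕ) [NeZero N] (r t n : ℕ) (p : ZMod N), 1 ≤ n → n * l < N → r + l ≤ t → t < N →
  mu (al N α) {G | θ * (n * l : ℕ) < FR r t (Win N r p (n * l)) G} ≤
    ENNReal.ofReal (2 * Real.exp (-c * n))

def StHlow : Prop := ∀ α, Adm α → ∃ (c : ℝ) (C₀ K₀ : ℕ), 0 < c ∧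
  ∀ (N : ℕ) [NeZero N] (K : ℕ), K₀ ≤ K → C₀ * K ≤ N → K < N → ∀ x ∈ Wd N 0 K,
  ∀ β : E N → ℝ, (∀ e, α e.2 ≤ β e) → (∀ z ∈ Wd N 0 K, 0 ≤ dv β z) →
  mu β {G | HH 0 K x G ≤ (K : ℝ) ^ (-(1 / 4 : ℝ))} ≤ ENNReal.ofReal ((K : ℝ) ^ (-c))

def StCond : Prop := ∀ α, Adm α → ∃ (c : ℝ) (C₀ K₀ : ℕ), 0 < c ∧
  ∀ (N : ℕ) [NeZero N] (K r : ℕ), K₀ ≤ K → C₀ * K ≤ N → K < N → 0 < r → r < K →
  ∀ y ∈ Col N r, ∀ y' ∈ Col N r,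
  Ex (al N α) (fun G => if HH 0 K y G * om G (y, 1) < (K : ℝ) ^ (-(1 / 2 : ℝ))
      then FR r K {y'} G else 0) ≤ ENNReal.ofReal ((K : ℝ) ^ (-c) * aa α N (K - r))

def StEn : Prop := ∀ α, Adm α → ∀ (N : ℕ) [NeZero N] (r₁ r₂ K : ℕ), 0 < r₁ → r₁ ≤ r₂ →
  r₂ < K → K < N →
  Ex (al N α) (fun G => ∑ x ∈ Cols N r₁ r₂,
      HH 0 K x G * om G (x, 1) * (vv 0 K G (x + dr N 1) - vv 0 K G x) ^ 2)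
    ≤ ENNReal.ofReal (N * (aa α N r₁ + aa α N (K - r₂)))

def StCp : Prop := ∀ (l : ℕ) (v b f c : ℕ → ℝ) (d U Λ η : ℝ), (∀ k, 0 ≤ v k) → (∀ k, v k ≤ 1) →
  (∀ k, 0 ≤ b k) → (∀ k, 0 ≤ f k) → (∀ k, 0 ≤ c k) → 0 < d → 0 < U → 0 < Λ → 0 < η →
  ∑ k ∈ range l, b k * v k ≤
    (if ∑ k ∈ range l, f k < d then ∑ k ∈ range l, b k else 0)
    + (if U < ∑ k ∈ range l, b k then ∑ k ∈ range l, b k else 0)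
    + (∑ k' ∈ range l, ∑ k ∈ range l, if c k < Λ⁻¹ then b k' else 0)
    + U / d * (∑ k ∈ range l, f k * v k) + η * (∑ k ∈ range l, b k)
    + U * l * Λ / η * ∑ k ∈ range l, c k * (v (k + 1) - v k) ^ 2

/-- one column of the core inequality, summed over the windows -/
def StCore1 : Prop := ∀ α, Adm α → ∀ (N : ℕ) [NeZero N] (r K l : ℕ), 0 < r → r < K → K < N →
  1 ≤ l → l < N → ∀ U Λ η ρ₁ ρ₂ ρ₃ a : ℝ, 0 < U → 0 < Λ → 0 < η → 0 ≤ ρ₁ → 0 ≤ ρ₂ → 0 ≤ ρ₃ →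
  aa α N r ≤ a → aa α N (K - r) ≤ a →
  (∑ p : ZMod N, mu (al N α) {G | FL 0 r (Win N r p l) G < (α 0 - α 2) * l / 4}
    ≤ ENNReal.ofReal (N * ρ₁)) →
  (∀ p : ZMod N, Ex (al N α) (fun G => if U < FR r K (Win N r p l) G
      then FR r K (Win N r p l) G else 0) ≤ ENNReal.ofReal ρ₂) →
  (∀ y ∈ Col N r, ∀ y' ∈ Col N r, Ex (al N α) (fun G =>
      if HH 0 K y G * om G (y, 1) < Λ⁻¹ then FR r K {y'} G else 0) ≤ ENNReal.ofReal (ρ₃ * a)) →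
  ENNReal.ofReal (l * N * aa α N K) ≤
    ENNReal.ofReal (l * N * (a * (ρ₁ + l * ρ₃ + η + 4 * U / ((α 0 - α 2) * l)) + ρ₂ / l))
    + ENNReal.ofReal (U * l * Λ / η * l) * Ex (al N α) fun G => ∑ x ∈ Col N r,
      HH 0 K x G * om G (x, 1) * (vv 0 K G (x + dr N 1) - vv 0 K G x) ^ 2

def StCore : Prop := ∀ α, Adm α → ∀ (N : ℕ) [NeZero N] (r₁ r₂ K l : ℕ), 0 < r₁ → r₁ ≤ r₂ →
  r₂ < K → K < N → 1 ≤ l → l < N → ∀ U Λ η ρ₁ ρ₂ ρ₃ a : ℝ, 0 < U → 0 < Λ → 0 < η →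
  0 ≤ ρ₁ → 0 ≤ ρ₂ → 0 ≤ ρ₃ → aa α N r₁ ≤ a → aa α N (K - r₂) ≤ a →
  (∀ r, r₁ ≤ r → r ≤ r₂ →
    ∑ p : ZMod N, mu (al N α) {G | FL 0 r (Win N r p l) G < (α 0 - α 2) * l / 4}
      ≤ ENNReal.ofReal (N * ρ₁)) →
  (∀ r, r₁ ≤ r → r ≤ r₂ → ∀ p : ZMod N, Ex (al N α) (fun G => if U < FR r K (Win N r p l) G
      then FR r K (Win N r p l) G else 0) ≤ ENNReal.ofReal ρ₂) →
  (∀ r, r₁ ≤ r → r ≤ r₂ → ∀ y ∈ Col N r, ∀ y' ∈ Col N r, Ex (al N α) (fun G =>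
      if HH 0 K y G * om G (y, 1) < Λ⁻¹ then FR r K {y'} G else 0) ≤ ENNReal.ofReal (ρ₃ * a)) →
  aa α N K ≤ a * (ρ₁ + l * ρ₃ + η + 4 * U / ((α 0 - α 2) * l)
    + 2 * U * l * Λ / (η * (r₂ - r₁ + 1 : ℕ))) + ρ₂ / l

def StRho2 : Prop := ∀ α, Adm α → ∀ θ : ℝ, 0 < θ → ∃ (l : ℕ) (c C : ℝ), 1 ≤ l ∧ 0 < c ∧ 0 < C ∧
  ∀ (N : ℕ) [NeZero N] (r t n : ℕ) (p : ZMod N), 1 ≤ n → n * l < N → r + l ≤ t → t < N →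
  Ex (al N α) (fun G => if θ * (n * l : ℕ) < FR r t (Win N r p (n * l)) G
      then FR r t (Win N r p (n * l)) G else 0) ≤ ENNReal.ofReal (C * n ^ 2 * Real.exp (-c * n))

def StAsy : Prop := ∀ (c ε : ℝ) (M n₀ : ℕ), 0 < c → 0 < ε → ∃ K₀ : ℕ, ∀ K : ℕ, K₀ ≤ K →
  ∃ n : ℕ, n₀ ≤ n ∧ (n : ℝ) ^ 2 ≤ ε * (K : ℝ) ^ c ∧
    (n : ℝ) ^ 2 * Real.exp (-c * n) ≤ ε * ((K : ℝ) ^ M)⁻¹

def StS2 : Prop := ∀ α, Adm α → ∀ (θ : ℝ) (M : ℕ), 0 < θ → ∃ C₀ K₀ : ℕ,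
  ∀ (N : ℕ) [NeZero N] (K : ℕ), K₀ ≤ K → C₀ * K ≤ N →
  aa α N K ≤ θ * aa α N (K / 4) + ((K : ℝ) ^ M)⁻¹

def StS3 : Prop := ∀ α, Adm α → ∀ M : ℕ, ∃ (C : ℝ) (C₀ : ℕ), 0 < C ∧
  ∀ (N : ℕ) [NeZero N] (K : ℕ), 1 ≤ K → C₀ * K ≤ N → aa α N K ≤ C * ((K : ℝ) ^ M)⁻¹

/-! ### the tail of the Green function -/

def StSink0 : Prop := ∀ α, Adm α → ∀ (N : ℕ) [NeZero N] (s w K m : ℕ) (p : ZMod N), 2 ≤ w →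
  s + w ≤ K → K < N → 1 ≤ m → m < N →
  mu (al N α) {G | ∀ y ∈ Win N s p m,
      uu s K G (y + dr N 0) < (α 0 - α 2) / (8 * (α 0 + 1))} ≤
    ENNReal.ofReal (Real.exp (-((α 0 - α 2) * m / 6))
      + Real.exp (2 * w * (∑ i, α i) - (α 0 - α 2) * m / 16)
      + 8 * aa α N w / (α 0 - α 2) + Real.exp (-(m : ℝ)))

def StSink : Prop := ∀ α, Adm α → ∃ c₁ : ℝ, 0 < c₁ ∧ c₁ ≤ 1 ∧ ∀ M : ℕ, ∃ (C : ℝ) (C₀ : ℕ),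
  0 < C ∧ ∀ (N : ℕ) [NeZero N] (s K m : ℕ) (p : ZMod N), 1 ≤ m → s + m ≤ K → C₀ * K ≤ N →
  mu (al N α) {G | ∀ y ∈ Win N s p m, uu s K G (y + dr N 0) < c₁} ≤
    ENNReal.ofReal (C * ((m : ℝ) ^ M)⁻¹)

/-- the combined flow out of the edge `(x, x + dr i)` into `k` sinks -/
def StGtA : Prop := ∀ α : Fin 4 → ℝ, (∀ i, 0 < α i) → ∀ σ : ℝ, 0 < σ →
  σ < 2 * ∑ i, α i - max (α 0 + α 2) (α 1 + α 3) →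
  ∃ (η : ℝ) (k C : ℕ), 0 < η ∧ 1 ≤ k ∧ ∀ (N : ℕ) [NeZero N] (m : ℕ), 2 ≤ m → C * m ≤ N →
  ∀ (x : T N) (i : Fin 4) (a b : Fin k → ℤ), (∀ l, |a l| ≤ m ∧ |b l| ≤ m) →
  Function.Injective (fun l => ((b l : ℤ) : ZMod N)) →
  ∃ (θ : E N → ℝ) (g₀ g₁ : ℝ), 0 ≤ g₀ ∧ 0 ≤ g₁ ∧ g₀ + g₁ = σ ∧ (∀ e, 0 ≤ θ e) ∧
    (∀ e, θ e + η ≤ α e.2) ∧ ∑ e, θ e ^ 2 ≤ C * Real.log m ∧
    ∀ z, dv θ z = (∑ l, σ / k * ind {x + cz N (a l) (b l)} z)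
      - g₀ * ind {x} z - g₁ * ind {x + dr N i} z

/-- the escape bound in boosted weights -/
def StGtB : Prop := ∀ (N : ℕ) [NeZero N] (K : ℕ), K < N → ∀ x ∈ Wd N 0 K,
  ∀ (β : E N → ℝ), Pos β → ∀ (k : ℕ) (z : Fin k → T N) (g γ c₁ lam : ℝ), 0 ≤ g → 0 < c₁ →
  c₁ ≤ 1 → 0 < lam → lam ≤ 1 →
  (∀ y, dv β y ≤ (∑ l, g * ind {z l} y) - γ * ind {x} y) →
  mu β {G | esc 0 K x G ≤ lam ∧ ∀ l, c₁ ≤ 1 - gx 0 K x G (z l)} ≤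
    ENNReal.ofReal ((2 : ℝ) ^ Zs β x * c₁ ^ (-(g * k)) * lam ^ γ)

/-- boosting an edge that is likely -/
def StBoost : Prop := ∀ (N : ℕ) [NeZero N] (β : E N → ℝ), Pos β → ∀ (e : E N) (n : ℕ)
  (D : Set (E N → ℝ)), MeasurableSet D → ScaleInv e.1 (D.indicator 1) →
  mu β (D ∩ {G | 1 / 4 ≤ om G e}) ≤ 4 ^ n * mu (fun e' => β e' + if e' = e then (n : ℝ) else 0) D

def StGt0 : Prop := ∀ α : Fin 4 → ℝ, (∀ i, 0 < α i) → Kap α → ∃ (s : ℝ) (k : ℕ), 1 < s ∧ 1 ≤ k ∧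
  ∀ c₁ : ℝ, 0 < c₁ → c₁ ≤ 1 → ∃ C C₀ : ℕ, ∀ (N : ℕ) [NeZero N] (K m : ℕ), K < N → 2 ≤ m →
  C₀ * m ≤ N → ∀ x ∈ Wd N 0 K, ∀ a b : Fin k → ℤ, (∀ l, |a l| ≤ m ∧ |b l| ≤ m) →
  Function.Injective (fun l => ((b l : ℤ) : ZMod N)) → ∀ lam : ℝ, 0 < lam → lam ≤ 1 →
  mu (al N α) {G | esc 0 K x G ≤ lam ∧ ∀ l, c₁ ≤ 1 - gx 0 K x G (x + cz N (a l) (b l))} ≤
    ENNReal.ofReal (C * (m : ℝ) ^ C * lam ^ s)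

/-- tail bound at a given scale `m` -/
def StGt1 : Prop := ∀ α, Adm α → Kap α → ∃ s : ℝ, 1 < s ∧ ∃ C : ℕ, ∀ M : ℕ, ∃ (C' : ℝ) (C₀ K₀ : ℕ),
  0 < C' ∧ ∀ (N : ℕ) [NeZero N] (K m : ℕ), K₀ ≤ K → C₀ * K ≤ N → 1 ≤ m → ∀ x ∈ Wd N 0 K,
  ∀ lam : ℝ, 0 < lam → lam ≤ 1 →
  mu (al N α) {G | esc 0 K x G ≤ lam} ≤
    ENNReal.ofReal (C' * (((m : ℝ) ^ M)⁻¹ + (m : ℝ) ^ C * lam ^ s))

def StGt : Prop := ∀ α, Adm α → Kap α → ∃ (s C : ℝ) (C₀ K₀ : ℕ), 1 < s ∧ 0 < C ∧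
  ∀ (N : ℕ) [NeZero N] (K : ℕ), K₀ ≤ K → C₀ * K ≤ N → ∀ x ∈ Wd N 0 K, ∀ lam : ℝ, 0 < lam →
  mu (al N α) {G | esc 0 K x G ≤ lam} ≤ ENNReal.ofReal (C * lam ^ s)

def StPi : Prop := ∀ α, Adm α → Kap α → ∃ (s C : ℝ) (C₀ K₀ : ℕ), 1 < s ∧ 0 < C ∧
  ∀ (N : ℕ) [NeZero N] (K : ℕ), K₀ ≤ K → C₀ * K ≤ N → ∀ x ∈ Wd N 0 K,
  Ex (al N α) (fun G => pii 0 K x G ^ s) ≤ ENNReal.ofReal C

def StStat : Prop := ∀ (N : ℕ) [NeZero N] (K : ℕ), K < N → ∀ G : E N → ℝ, Pos G →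
  (∀ x ∈ Wd N 0 K, 0 < esc 0 K x G ∧ esc 0 K x G ≤ 1 ∧ 0 ≤ HH 0 K x G ∧
    FL 0 (col x) {x} G ≤ pii 0 K x G) ∧
  ∀ x ∈ Wd N 1 (K - 1), pii 0 K x G = ∑ i, pii 0 K (x - dr N i) G * om G (x - dr N i, i)

def StTest : Prop := ∀ (N : ℕ) [NeZero N] (K : ℕ), 4 ≤ K → K < N → ∀ G : E N → ℝ, Pos G →
  ∀ φ : T N → ℝ, (∀ x, 0 ≤ φ x) → (∀ x, φ x ≤ 1) →
  |(∑ x ∈ Wd N 1 (K - 1), pii 0 K x G * ∑ i, om G (x, i) * φ (x + dr N i))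
      - ∑ x ∈ Wd N 1 (K - 1), pii 0 K x G * φ x| ≤
    ∑ x ∈ Col N 1 ∪ Col N 2 ∪ Col N (K - 2) ∪ Col N (K - 1), pii 0 K x G

/-- approximately invariant densities on large tori -/
def Approx (α : Fin 4 → ℝ) : Prop := ∃ s C : ℝ, 1 < s ∧ 0 < C ∧ ∀ ε : ℝ, 0 < ε → ∀ R : ℕ,
  ∃ (N : ℕ) (_ : NeZero N), R ≤ N ∧ ∃ (S : Finset (T N)) (π : T N → (E N → ℝ) → ℝ) (Z : ℝ),
    0 < Z ∧ (∀ x, Measurable (π x)) ∧ (∀ x ∈ S, ∀ G, Pos G → 0 ≤ π x G) ∧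
    ∑ x ∈ S, Ex (al N α) (π x) = ENNReal.ofReal Z ∧ (S.card : ℝ) ≤ C * Z ∧
    (∀ x ∈ S, Ex (al N α) (fun G => π x G ^ s) ≤ ENNReal.ofReal C) ∧
    ∃ B : (E N → ℝ) → ℝ, Measurable B ∧ Ex (al N α) B ≤ ENNReal.ofReal (ε * Z) ∧
      ∀ G, Pos G → ∀ φ : T N → ℝ, (∀ x, 0 ≤ φ x) → (∀ x, φ x ≤ 1) →
        |(∑ x ∈ S, π x G * ∑ i, om G (x, i) * φ (x + dr N i)) - ∑ x ∈ S, π x G * φ x| ≤ B G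

def StFin : Prop := ∀ α, Adm α → Kap α → Approx α

/-! ### passage to the lattice -/

def StMP : Prop := ∀ α : Fin 4 → ℝ, (∀ i, 0 < α i) → ∀ (N : ℕ) [NeZero N] (x : T N),
  MeasurePreserving (resE x) (lawG α) (mu (al N α))

def ApproxZ (α : Fin 4 → ℝ) : Prop := ∃ s : ℝ, 1 < s ∧ ∃ C : ℝ≥0∞, C ≠ ⊤ ∧
  ∀ ε : ℝ, 0 < ε → ∀ R : ℕ, ∃ f : Env → ℝ≥0∞, Measurable f ∧ ∫⁻ γ, f γ ∂lawG α = 1 ∧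
    ∫⁻ γ, f γ ^ s ∂lawG α ≤ C ∧ ∀ A : Set Env, MeasurableSet A → Loc R A →
      ∫⁻ γ, f γ * A.indicator 1 γ ∂lawG α ≤
        (∫⁻ γ, f γ * ∑ i, ENNReal.ofReal (nrm (γ 0) i) * A.indicator 1 (shift (dir i) γ)
          ∂lawG α) + ENNReal.ofReal ε ∧
      (∫⁻ γ, f γ * ∑ i, ENNReal.ofReal (nrm (γ 0) i) * A.indicator 1 (shift (dir i) γ)
          ∂lawG α) ≤ (∫⁻ γ, f γ * A.indicator 1 γ ∂lawG α) + ENNReal.ofReal ε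

def StTR1 : Prop := ∀ α : Fin 4 → ℝ, (∀ i, 0 < α i) → Approx α → ApproxZ α

/-- limit of uniformly integrable densities along an ultrafilter -/
def StEX1 : Prop := ∀ (P : Measure Env) [IsProbabilityMeasure P] (f : ℕ → Env → ℝ≥0∞) (s : ℝ)
  (C : ℝ≥0∞), 1 < s → C ≠ ⊤ → (∀ k, Measurable (f k)) → (∀ k, ∫⁻ γ, f k γ ∂P = 1) →
  (∀ k, ∫⁻ γ, f k γ ^ s ∂P ≤ C) →
  ∃ Q : Measure Env, IsProbabilityMeasure Q ∧ Q ≪ P ∧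
    ∀ φ : Env → ℝ≥0∞, Measurable φ → (∀ᵐ γ ∂P, φ γ ≤ 1) →
      Tendsto (fun k => ∫⁻ γ, f k γ * φ γ ∂P) (hyperfilter ℕ : Filter ℕ) (𝓝 (∫⁻ γ, φ γ ∂Q))

def StTR2 : Prop := ∀ α : Fin 4 → ℝ, (∀ i, 0 < α i) → ApproxZ α →
  ∃ Q : Measure Env, IsProbabilityMeasure Q ∧ Q ≪ lawG α ∧ ∀ A : Set Env, MeasurableSet A →
    Q A = ∫⁻ γ, ∑ i, ENNReal.ofReal (nrm (γ 0) i) * A.indicator 1 (shift (dir i) γ) ∂Q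

def StTR3 : Prop := ∀ α : Fin 4 → ℝ, (∀ i, 0 < α i) →
  (∃ Q : Measure Env, IsProbabilityMeasure Q ∧ Q ≪ lawG α ∧ ∀ A : Set Env, MeasurableSet A →
    Q A = ∫⁻ γ, ∑ i, ENNReal.ofReal (nrm (γ 0) i) * A.indicator 1 (shift (dir i) γ) ∂Q) →
  ExAC α

def StRot : Prop := ∀ α : Fin 4 → ℝ, (∀ i, 0 < α i) → ExAC (fun i => α (i + 1)) → ExAC α

def StErg : Prop := ∀ (ν : Measure (Fin 4 → ℝ)) [IsProbabilityMeasure ν],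
  (∀ x : ℤ × ℤ, MeasurePreserving (shift x) (Measure.infinitePi fun _ : ℤ × ℤ => ν)
    (Measure.infinitePi fun _ : ℤ × ℤ => ν)) ∧
  Ergodic (shift (dir 0)) (Measure.infinitePi fun _ : ℤ × ℤ => ν)

def StUQ : Prop := ∀ α : Fin 4 → ℝ, (∀ i, 0 < α i) → ∀ Q₁ Q₂ : Measure Env,
  IsProbabilityMeasure Q₁ → Q₁ ≪ law α → Invariant Q₁ →
  IsProbabilityMeasure Q₂ → Q₂ ≪ law α → Invariant Q₂ → Q₁ = Q₂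

end DRW
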